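import Pool.Agent.W736.TC.Ell

/-! The sequence spaces have the block property; separability. -/

set_option autoImplicit false
open Filter Topology ENNReal

namespace Pool.Agent.W736.TC

/-- The identity of `E` and the identity of its dual space are simultaneously approximated, on
finite sets of vectors and of functionals, by projections of norm at most `1` and finite rank
(for reflexive spaces with a monotone basis the partial sum projections do this). -/
def HasProj (E : Type) [NormedAddCommGroup E] [NormedSpace ℂ E] : Prop :=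
  ∀ (F : Finset E) (G : Finset (E →L[ℂ] ℂ)) (ε : ℝ), 0 < ε → ∃ π : E →L[ℂ] E, ‖π‖ ≤ 1 ∧
    π ∘L π = π ∧ FiniteDimensional ℂ (LinearMap.range π.toLinearMap) ∧
    (∀ x ∈ F, ‖x - π x‖ < ε) ∧ ∀ y ∈ G, ‖y - y ∘L π‖ < ε

variable {p : ℝ≥0∞} [Fact (1 ≤ p)] {V : Type} [NormedAddCommGroup V] [NormedSpace ℂ V]
  {E : Type} [NormedAddCommGroup E] [NormedSpace ℂ E]

/-- kills the last coordinate -/
noncomputable def Ql (V : Type) [NormedAddCommGroup V] [NormedSpace ℂ V] (p : ℝ≥0∞) (N : ℕ) :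
    ellm V p (N + 1) →ₗ[ℂ] ellm V p (N + 1) where
  toFun v := WithLp.toLp p (fun i => if i = Fin.last N then 0 else v i)
  map_add' x y := by
    ext i
    simp only [PiLp.add_apply]
    split_ifs <;> simp
  map_smul' c x := by
    ext i
    simp only [PiLp.smul_apply, RingHom.id_apply]
    split_ifs <;> simp

theorem Ql_apply (N : ℕ) (v : ellm V p (N + 1)) (i : Fin (N + 1)) :
    Ql V p N v i = if i = Fin.last N then 0 else v i := rfl

theorem Ql_le (htop : p ≠ ⊤) (N : ℕ) (v : ellm V p (N + 1)) : ‖Ql V p N v‖ ≤ ‖v‖ := by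
  have hp := pos_r htop
  apply (Real.rpow_le_rpow_iff (norm_nonneg _) (norm_nonneg _) hp).1
  rw [ellm_norm hp, ellm_norm hp]
  refine Finset.sum_le_sum fun i _ => ?_
  rw [Ql_apply]
  split_ifs
  · rw [norm_zero, Real.zero_rpow hp.ne']
    positivity
  · exact le_rfl

/-- kills the last coordinate -/
noncomputable def Qm (V : Type) [NormedAddCommGroup V] [NormedSpace ℂ V] (p : ℝ≥0∞)
    [Fact (1 ≤ p)] (htop : p ≠ ⊤) (N : ℕ) : ellm V p (N + 1) →L[ℂ] ellm V p (N + 1) :=
  (Ql V p N).mkContinuous 1 fun v => by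
    rw [one_mul]
    exact Ql_le htop N v

theorem Qm_apply (htop : p ≠ ⊤) (N : ℕ) (v : ellm V p (N + 1)) (i : Fin (N + 1)) :
    Qm V p htop N v i = if i = Fin.last N then 0 else v i := rfl

theorem JQR (htop : p ≠ ⊤) (j : V →L[ℂ] E) (r : E →L[ℂ] V) (hr : ‖r‖ ≤ 1) (N : ℕ)
    (x : ell E p) :
    Jm p j (N + 1) 0 (Qm V p htop N (Rm p htop r hr (N + 1) 0 x))
      = ∑ i ∈ Finset.range N, lp.single p i (j (r (x i))) := by
  rw [Jm_apply, Fin.sum_univ_castSucc, Finset.sum_range, Qm_apply, if_pos rfl, map_zero,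
    lp.single_zero, add_zero]
  refine Finset.sum_congr rfl fun i _ => ?_
  rw [Qm_apply, if_neg (Fin.castSucc_lt_last i).ne, Rm_apply]
  simp

omit [NormedSpace ℂ E] in
theorem norm_single' (i : ℕ) (a : E) : ‖(lp.single p i a : ell E p)‖ = ‖a‖ := by
  have h : 0 < p := zero_lt_one.trans_le (Fact.out : 1 ≤ p)
  exact lp.norm_single (E := fun _ : ℕ => E) h i a

/-- `y` restricted to a coordinate -/
noncomputable def yc (y : ell E p →L[ℂ] ℂ) (i : ℕ) : E →L[ℂ] ℂ :=
  y.comp (lp.singleContinuousLinearMap ℂ (fun _ : ℕ => E) p i)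

theorem yc_apply (y : ell E p →L[ℂ] ℂ) (i : ℕ) (a : E) : yc y i a = y (lp.single p i a) := rfl

theorem hp_ell [Nontrivial E] (hE : HasProj E) (h1 : 1 < p) (htop : p ≠ ⊤) :
    HP p.toReal (ell E p) := by
  classical
  intro F G ε hε
  have hF : ∀ᶠ n in atTop, ∀ x ∈ F, ‖x - Pn E p n x‖ < ε / 2 := by
    rw [Filter.eventually_all_finset]
    intro x _
    have := (Pn_tendsto htop x).eventually (Metric.ball_mem_nhds x (half_pos hε))
    filter_upwards [this] with n hn
    rw [dist_eq_norm, norm_sub_rev] at hn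
    exact hn
  have hG : ∀ᶠ n in atTop, ∀ y ∈ G, ‖tl y n‖ < ε / 2 := by
    rw [Filter.eventually_all_finset]
    intro y _
    exact tl_tendsto h1 htop y _ (half_pos hε)
  obtain ⟨N, hN1, hN2⟩ := (hF.and hG).exists
  obtain ⟨e0, he0⟩ := exists_ne (0 : E)
  -- the projection in `E`
  set δ : ℝ := min (ε / (2 * (N + 1))) ‖e0‖ with hδ
  have hδ0 : 0 < δ := lt_min (by positivity) (norm_pos_iff.2 he0)
  obtain ⟨π, hπ1, hπ2, hπ3, hπF, hπG⟩ := hE
    ((F ×ˢ Finset.range N).image (fun a => a.1 a.2) ∪ {e0})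
    ((G ×ˢ Finset.range N).image (fun a => yc a.1 a.2)) δ hδ0
  have hN3 : (N : ℝ) * δ < ε / 2 := by
    calc (N : ℝ) * δ < (N + 1) * δ := by nlinarith
      _ ≤ (N + 1) * (ε / (2 * (N + 1))) := by
          gcongr
          exact min_le_left _ _
      _ = ε / 2 := by field_simp
  have hπx : ∀ x ∈ F, ∀ i < N, ‖x i - π (x i)‖ ≤ δ := fun x hx i hi => (hπF _ (by
    simp only [Finset.mem_union, Finset.mem_image, Finset.mem_product, Finset.mem_range]
    exact Or.inl ⟨(x, i), ⟨hx, hi⟩, rfl⟩)).le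
  have hπy : ∀ y ∈ G, ∀ i < N, ‖yc y i - (yc y i).comp π‖ ≤ δ := fun y hy i hi => (hπG _ (by
    simp only [Finset.mem_image, Finset.mem_product, Finset.mem_range]
    exact ⟨(y, i), ⟨hy, hi⟩, rfl⟩)).le
  have hπe : π e0 ≠ 0 := by
    intro h0
    have h2 := hπF e0 (by simp)
    rw [h0, sub_zero] at h2
    exact absurd h2 (not_lt.2 (min_le_right _ _))
  set W : Submodule ℂ E := LinearMap.range π.toLinearMap with hW
  set r : E →L[ℂ] W := π.codRestrict W (fun x => ⟨x, rfl⟩) with hr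
  set j : W →L[ℂ] E := W.subtypeL with hj
  have hjr : ∀ x, j (r x) = π x := fun x => rfl
  have hrj : ∀ v, r (j v) = v := by
    rintro ⟨_, x, rfl⟩
    apply Subtype.ext
    exact congrArg (fun B : E →L[ℂ] E => B x) hπ2
  have hj1 : ‖j‖ ≤ 1 := ContinuousLinearMap.opNorm_le_bound _ zero_le_one fun v => by
    rw [one_mul]
    exact le_rfl
  have hr1 : ‖r‖ ≤ 1 := ContinuousLinearMap.opNorm_le_bound _ zero_le_one fun x => by
    rw [one_mul]
    exact clm_le hπ1 x
  refine ⟨ellm W p (N + 1), inferInstance, inferInstance, inferInstance, Jm p j (N + 1),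
    Rm p htop r hr1 (N + 1), Qm W p htop N, PiLp.single p (Fin.last N) (r e0),
    blk_m htop hj1 hr1 hrj (N + 1), ?_, ?_, ?_, ?_, ?_, ?_⟩
  · exact LinearMap.mkContinuous_norm_le _ zero_le_one _
  · ext1 v
    ext1 i
    rw [ContinuousLinearMap.comp_apply, Qm_apply, Qm_apply]
    split_ifs <;> rfl
  · rw [Ne, PiLp.single_eq_zero_iff]
    intro h
    exact hπe (by rw [← hjr, h, map_zero])
  · ext1 i
    rw [Qm_apply]
    split_ifs with h
    · rfl
    · rw [PiLp.single_eq_of_ne p h]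
      rfl
  · intro x hx
    rw [JQR]
    have e : x - ∑ i ∈ Finset.range N, lp.single p i (j (r (x i)))
        = (x - Pn E p N x) + ∑ i ∈ Finset.range N, lp.single p i (x i - π (x i)) := by
      rw [Pn_apply]
      simp only [lp.single_sub, Finset.sum_sub_distrib, hjr]
      abel
    rw [e]
    calc _ ≤ ‖x - Pn E p N x‖ + ‖∑ i ∈ Finset.range N, lp.single p i (x i - π (x i))‖ :=
          norm_add_le _ _
      _ ≤ ‖x - Pn E p N x‖ + ∑ i ∈ Finset.range N, ‖(lp.single p i (x i - π (x i)) : ell E p)‖ := by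
          gcongr
          exact norm_sum_le _ _
      _ ≤ ‖x - Pn E p N x‖ + ∑ i ∈ Finset.range N, δ := by
          gcongr with i hi
          rw [norm_single']
          exact hπx x hx i (Finset.mem_range.1 hi)
      _ = ‖x - Pn E p N x‖ + N * δ := by rw [Finset.sum_const, Finset.card_range, nsmul_eq_mul]
      _ < ε := by linarith [hN1 x hx]
  · intro y hy
    have e : y - y.comp ((Jm p j (N + 1) 0).comp ((Qm W p htop N).comp
        (Rm p htop r hr1 (N + 1) 0))) = tl y N + ∑ i ∈ Finset.range N,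
          (yc y i - (yc y i).comp π).comp (lp.evalCLM ℂ (fun _ : ℕ => E) p i) := by
      ext1 x
      have e1 : (Jm p j (N + 1) 0).comp ((Qm W p htop N).comp
        (Rm p htop r hr1 (N + 1) 0)) x = _ := JQR htop j r hr1 N x
      rw [_root_.sub_apply, ContinuousLinearMap.comp_apply, e1, _root_.add_apply, tl_apply,
        _root_.sum_apply, Pn_apply, map_sub, map_sum, map_sum]
      have e2 : ∀ i, ((yc y i - (yc y i).comp π).comp (lp.evalCLM ℂ (fun _ : ℕ => E) p i)) x
          = y (lp.single p i (x i)) - y (lp.single p i (j (r (x i)))) := fun i => rfl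
      simp only [e2, Finset.sum_sub_distrib]
      abel
    rw [e]
    calc _ ≤ ‖tl y N‖ + ‖∑ i ∈ Finset.range N,
          (yc y i - (yc y i).comp π).comp (lp.evalCLM ℂ (fun _ : ℕ => E) p i)‖ := norm_add_le _ _
      _ ≤ ‖tl y N‖ + ∑ i ∈ Finset.range N,
          ‖(yc y i - (yc y i).comp π).comp (lp.evalCLM ℂ (fun _ : ℕ => E) p i)‖ := by
          gcongr
          exact norm_sum_le _ _
      _ ≤ ‖tl y N‖ + ∑ i ∈ Finset.range N, δ := by
          gcongr with i hi
          have b1 : ‖lp.evalCLM ℂ (fun _ : ℕ => E) p i‖ ≤ 1 :=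
            ContinuousLinearMap.opNorm_le_bound _ zero_le_one fun x => by
              rw [one_mul]
              exact lp.norm_apply_le_norm pos_p x i
          calc _ ≤ ‖yc y i - (yc y i).comp π‖ * ‖lp.evalCLM ℂ (fun _ : ℕ => E) p i‖ :=
                ContinuousLinearMap.opNorm_comp_le _ _
            _ ≤ δ * 1 := by
                gcongr
                exact hπy y hy i (Finset.mem_range.1 hi)
            _ = δ := mul_one _
      _ = ‖tl y N‖ + N * δ := by rw [Finset.sum_const, Finset.card_range, nsmul_eq_mul]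
      _ < ε := by linarith [hN2 y hy]

theorem sep_of {E : Type} [NormedAddCommGroup E] [NormedSpace ℂ E] {ι : Type} [Countable ι]
    (f : ι → E)
    (h : ∀ (x : E) (ε : ℝ), 0 < ε → ∃ z ∈ Submodule.span ℂ (Set.range f), ‖x - z‖ < ε) :
    TopologicalSpace.SeparableSpace E := by
  rw [← TopologicalSpace.isSeparable_univ_iff]
  have h1 : TopologicalSpace.IsSeparable (closure (Submodule.span ℂ (Set.range f) : Set E)) :=
    ((Set.countable_range f).isSeparable.span (R := ℂ)).closure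
  refine h1.mono fun x _ => ?_
  rw [Metric.mem_closure_iff]
  intro ε hε
  obtain ⟨z, hz, hxz⟩ := h x ε hε
  exact ⟨z, hz, by rwa [dist_eq_norm]⟩

/-- sums of approximable terms -/
theorem approx_sum {E : Type} [NormedAddCommGroup E] [NormedSpace ℂ E] (S : Submodule ℂ E)
    (f : ℕ → E) (n : ℕ) (h : ∀ i, ∀ ε : ℝ, 0 < ε → ∃ z ∈ S, ‖f i - z‖ < ε) (ε : ℝ) (hε : 0 < ε) :
    ∃ z ∈ S, ‖∑ i ∈ Finset.range n, f i - z‖ < ε := by
  induction n generalizing ε with
  | zero => exact ⟨0, S.zero_mem, by simpa using hε⟩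
  | succ n ih =>
    obtain ⟨z1, h1, h2⟩ := ih (ε / 2) (half_pos hε)
    obtain ⟨z2, h3, h4⟩ := h n (ε / 2) (half_pos hε)
    refine ⟨z1 + z2, S.add_mem h1 h3, ?_⟩
    rw [Finset.sum_range_succ, add_sub_add_comm]
    exact (norm_add_le _ _).trans_lt (by linarith)

theorem sep_ell [TopologicalSpace.SeparableSpace E] (htop : p ≠ ⊤) :
    TopologicalSpace.SeparableSpace (ell E p) := by
  refine sep_of (ι := ℕ × ℕ) (fun a => (lp.single p a.1 (TopologicalSpace.denseSeq E a.2) :
    ell E p)) fun x ε hε => ?_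
  obtain ⟨n, hn⟩ := ((Pn_tendsto htop x).eventually
    (Metric.ball_mem_nhds x (half_pos hε))).exists
  rw [dist_eq_norm, norm_sub_rev, Pn_apply] at hn
  obtain ⟨z, hz, hxz⟩ := approx_sum (Submodule.span ℂ (Set.range fun a : ℕ × ℕ =>
    (lp.single p a.1 (TopologicalSpace.denseSeq E a.2) : ell E p)))
    (fun i => lp.single p i (x i)) n (fun i ε hε => by
      obtain ⟨k, hk⟩ := (TopologicalSpace.denseRange_denseSeq E).exists_dist_lt (x i) hε
      refine ⟨_, Submodule.subset_span ⟨(i, k), rfl⟩, ?_⟩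
      rw [← lp.single_sub, norm_single', ← dist_eq_norm]
      exact hk) (ε / 2) (half_pos hε)
  refine ⟨z, hz, ?_⟩
  calc ‖x - z‖ = ‖(x - ∑ i ∈ Finset.range n, lp.single p i (x i))
        + (∑ i ∈ Finset.range n, lp.single p i (x i) - z)‖ := by congr 1; abel
    _ ≤ _ := norm_add_le _ _
    _ < ε := by linarith

theorem sep_dual [TopologicalSpace.SeparableSpace (E →L[ℂ] ℂ)] (h1 : 1 < p) (htop : p ≠ ⊤) :
    TopologicalSpace.SeparableSpace (ell E p →L[ℂ] ℂ) := by
  refine sep_of (ι := ℕ × ℕ) (fun a => (TopologicalSpace.denseSeq (E →L[ℂ] ℂ) a.2).comp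
    (lp.evalCLM ℂ (fun _ : ℕ => E) p a.1)) fun y ε hε => ?_
  obtain ⟨n, hn⟩ := tail_small h1 htop y (ε / 2) (half_pos hε)
  have e : y.comp (Pn E p n) = ∑ i ∈ Finset.range n,
      (yc y i).comp (lp.evalCLM ℂ (fun _ : ℕ => E) p i) := by
    ext1 x
    rw [ContinuousLinearMap.comp_apply, Pn_apply, map_sum, _root_.sum_apply]
    rfl
  rw [tl, e] at hn
  obtain ⟨z, hz, hxz⟩ := approx_sum (Submodule.span ℂ (Set.range fun a : ℕ × ℕ =>
    (TopologicalSpace.denseSeq (E →L[ℂ] ℂ) a.2).comp (lp.evalCLM ℂ (fun _ : ℕ => E) p a.1)))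
    (fun i => (yc y i).comp (lp.evalCLM ℂ (fun _ : ℕ => E) p i)) n (fun i ε hε => by
      obtain ⟨k, hk⟩ := (TopologicalSpace.denseRange_denseSeq (E →L[ℂ] ℂ)).exists_dist_lt
        (yc y i) hε
      refine ⟨_, Submodule.subset_span ⟨(i, k), rfl⟩, ?_⟩
      have b1 : ‖lp.evalCLM ℂ (fun _ : ℕ => E) p i‖ ≤ 1 :=
        ContinuousLinearMap.opNorm_le_bound _ zero_le_one fun x => by
          rw [one_mul]
          exact lp.norm_apply_le_norm pos_p x i
      have e2 : (yc y i).comp (lp.evalCLM ℂ (fun _ : ℕ => E) p i) -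
          (TopologicalSpace.denseSeq (E →L[ℂ] ℂ) k).comp (lp.evalCLM ℂ (fun _ : ℕ => E) p i)
          = (yc y i - TopologicalSpace.denseSeq (E →L[ℂ] ℂ) k).comp
            (lp.evalCLM ℂ (fun _ : ℕ => E) p i) := by
        ext1 x
        rfl
      rw [dist_eq_norm] at hk
      show ‖(yc y i).comp (lp.evalCLM ℂ (fun _ : ℕ => E) p i) -
          (TopologicalSpace.denseSeq (E →L[ℂ] ℂ) k).comp (lp.evalCLM ℂ (fun _ : ℕ => E) p i)‖ < ε
      rw [e2]
      calc _ ≤ ‖yc y i - TopologicalSpace.denseSeq (E →L[ℂ] ℂ) k‖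
            * ‖lp.evalCLM ℂ (fun _ : ℕ => E) p i‖ := ContinuousLinearMap.opNorm_comp_le _ _
        _ ≤ ‖yc y i - TopologicalSpace.denseSeq (E →L[ℂ] ℂ) k‖ * 1 := by gcongr
        _ < ε := by rwa [mul_one]) (ε / 2) (half_pos hε)
  refine ⟨z, hz, ?_⟩
  calc ‖y - z‖ = ‖(y - ∑ i ∈ Finset.range n, (yc y i).comp (lp.evalCLM ℂ (fun _ : ℕ => E) p i))
        + (∑ i ∈ Finset.range n, (yc y i).comp (lp.evalCLM ℂ (fun _ : ℕ => E) p i) - z)‖ := by
        congr 1; abel
    _ ≤ _ := norm_add_le _ _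
    _ < ε := by linarith

/-- finite-dimensional spaces have projections -/
theorem hasProj_fd [FiniteDimensional ℂ E] : HasProj E := by
  intro F G ε hε
  refine ⟨ContinuousLinearMap.id ℂ E, ContinuousLinearMap.norm_id_le, ?_, inferInstance, ?_, ?_⟩
  · exact ContinuousLinearMap.id_comp _
  · intro x _
    simpa using hε
  · intro y _
    simpa using hε

/-- sequence spaces have projections -/
theorem hasProj_ell (hE : HasProj E) (h1 : 1 < p) (htop : p ≠ ⊤) : HasProj (ell E p) := by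
  rcases subsingleton_or_nontrivial E with hs | hn
  · intro F G ε hε
    have hz : ∀ x : ell E p, x = 0 := fun x => by
      ext1
      funext i
      exact Subsingleton.elim _ _
    refine ⟨0, by simp, by simp, ?_, ?_, ?_⟩
    · have : LinearMap.range (0 : ell E p →L[ℂ] ell E p).toLinearMap = ⊥ := by
        rw [Submodule.eq_bot_iff]
        intro x _
        exact hz x
      rw [this]
      infer_instance
    · intro x _
      rw [hz x]
      simpa using hε
    · intro y _
      have : y = 0 := by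
        ext1 x
        rw [hz x, map_zero, map_zero]
      rw [this]
      simpa using hε
  · intro F G ε hε
    obtain ⟨V, i1, i2, i3, J, R, Q, w, hB, hQ1, hQ2, -, -, h3, h4⟩ := hp_ell hE h1 htop F G ε hε
    have hp := pos_r htop
    refine ⟨(J 0).comp (Q.comp (R 0)), ?_, ?_, ?_, h3, h4⟩
    · refine ContinuousLinearMap.opNorm_le_bound _ zero_le_one fun x => ?_
      calc _ ≤ ‖Q‖ * ‖x‖ := norm_comp3 hp hB Q x
        _ ≤ 1 * ‖x‖ := by gcongr
    · ext1 x
      show J 0 (Q (R 0 (J 0 (Q (R 0 x))))) = J 0 (Q (R 0 x))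
      rw [hB.rj]
      exact congrArg (fun B : V →L[ℂ] V => J 0 (B (R 0 x))) hQ2
    · have : LinearMap.range ((J 0).comp (Q.comp (R 0))).toLinearMap
          ≤ LinearMap.range (J 0).toLinearMap := by
        rintro _ ⟨x, rfl⟩
        exact ⟨Q (R 0 x), rfl⟩
      exact Submodule.finiteDimensional_of_le this

end Pool.Agent.W736.TC
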