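import Pool.Agent.W736.TC.Defs

/-! The contractions with the strong* topology form a Baire space. -/

set_option autoImplicit false
open Filter Topology

namespace Pool.Agent.W736.TC

variable {X : Type} [NormedAddCommGroup X] [NormedSpace ℂ X]

/-- values on dense sequences -/
noncomputable def Phi (X : Type) [NormedAddCommGroup X] [NormedSpace ℂ X]
    (d : ℕ → X) (e : ℕ → (X →L[ℂ] ℂ)) (T : Contr X) :
    (ℕ → X) × (ℕ → (X →L[ℂ] ℂ)) := ((fun i => T.op (d i)), (fun j => (e j).comp T.op))

theorem phi_cont (d : ℕ → X) (e : ℕ → (X →L[ℂ] ℂ)) : Continuous (Phi X d e) :=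
  (continuous_pi fun _ => continuous_app _).prodMk (continuous_pi fun _ => continuous_comp _)

theorem phi_ind (d : ℕ → X) (e : ℕ → (X →L[ℂ] ℂ)) (hd : DenseRange d) (he : DenseRange e) :
    IsInducing (Phi X d e) := by
  constructor
  apply le_antisymm
  · exact (phi_cont d e).le_induced
  · -- the maps `T ↦ T x` are uniform limits
    show TopologicalSpace.induced _ _ ≤ TopologicalSpace.induced _ _
    rw [← continuous_iff_le_induced]
    let t : TopologicalSpace (Contr X) := TopologicalSpace.induced (Phi X d e) inferInstance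
    have hc : Continuous[t, _] (Phi X d e) := continuous_induced_dom
    refine Continuous.prodMk ?_ ?_
    · refine continuous_pi fun x => ?_
      refine continuous_of_uniform_approx_of_continuous fun u hu => ?_
      obtain ⟨ε, hε, hu⟩ := Metric.mem_uniformity_dist.1 hu
      obtain ⟨i, hi⟩ := hd.exists_dist_lt x hε
      refine ⟨fun T => T.op (d i), (continuous_apply i).comp (continuous_fst.comp hc), fun T => hu ?_⟩
      rw [dist_eq_norm, ← map_sub]
      exact (T.app_le _).trans_lt (by rwa [← dist_eq_norm])
    · refine continuous_pi fun x => ?_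
      refine continuous_of_uniform_approx_of_continuous fun u hu => ?_
      obtain ⟨ε, hε, hu⟩ := Metric.mem_uniformity_dist.1 hu
      obtain ⟨i, hi⟩ := he.exists_dist_lt x hε
      refine ⟨fun T => (e i).comp T.op, (continuous_apply i).comp (continuous_snd.comp hc),
        fun T => hu ?_⟩
      rw [dist_eq_norm]
      have e1 : x.comp T.op - (e i).comp T.op = (x - e i).comp T.op := by
        ext v; simp
      rw [e1]
      exact (T.comp_le _).trans_lt (by rwa [← dist_eq_norm])

theorem phi_inj (d : ℕ → X) (e : ℕ → (X →L[ℂ] ℂ)) (hd : DenseRange d) :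
    Function.Injective (Phi X d e) := by
  intro T S h
  apply Subtype.ext
  have h1 : ∀ i, T.op (d i) = S.op (d i) := fun i => congrFun (congrArg Prod.fst h) i
  have h2 : (T.op : X → X) = S.op :=
    hd.equalizer T.op.continuous S.op.continuous (funext h1)
  exact ContinuousLinearMap.ext fun x => congrFun h2 x

theorem phi_closed [CompleteSpace X] (d : ℕ → X) (e : ℕ → (X →L[ℂ] ℂ)) (hd : DenseRange d) :
    IsClosed (Set.range (Phi X d e)) := by
  apply IsSeqClosed.isClosed
  intro u w hu hw
  choose T hT using hu
  have h1 : ∀ i, Tendsto (fun n => (T n).op (d i)) atTop (𝓝 (w.1 i)) := by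
    intro i
    have := ((continuous_apply i).comp continuous_fst).tendsto w |>.comp hw
    refine this.congr fun n => ?_
    rw [Function.comp_apply, ← hT n]
    rfl
  have h2 : ∀ j, Tendsto (fun n => (e j).comp (T n).op) atTop (𝓝 (w.2 j)) := by
    intro j
    have := ((continuous_apply j).comp continuous_snd).tendsto w |>.comp hw
    refine this.congr fun n => ?_
    rw [Function.comp_apply, ← hT n]
    rfl
  have h3 : ∀ x, CauchySeq (fun n => (T n).op x) := by
    intro x
    rw [Metric.cauchySeq_iff']
    intro ε hε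
    obtain ⟨i, hi⟩ := hd.exists_dist_lt x (show 0 < ε / 3 by positivity)
    obtain ⟨N, hN⟩ := Metric.cauchySeq_iff'.1 (h1 i).cauchySeq (ε / 3) (by positivity)
    refine ⟨N, fun n hn => ?_⟩
    have a1 := hN n hn
    rw [dist_eq_norm] at a1 hi ⊢
    have a2 : ‖(T n).op (x - d i)‖ < ε / 3 := ((T n).app_le _).trans_lt hi
    have a3 : ‖(T N).op (x - d i)‖ < ε / 3 := ((T N).app_le _).trans_lt hi
    calc ‖(T n).op x - (T N).op x‖
        = ‖(T n).op (x - d i) + ((T n).op (d i) - (T N).op (d i)) - (T N).op (x - d i)‖ := by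
          congr 1
          rw [map_sub, map_sub]
          abel
      _ ≤ ‖(T n).op (x - d i) + ((T n).op (d i) - (T N).op (d i))‖ + ‖(T N).op (x - d i)‖ :=
          norm_sub_le _ _
      _ ≤ ‖(T n).op (x - d i)‖ + ‖(T n).op (d i) - (T N).op (d i)‖ + ‖(T N).op (x - d i)‖ := by
          gcongr
          exact norm_add_le _ _
      _ < ε := by linarith
  choose f hf using fun x => cauchySeq_tendsto_of_complete (h3 x)
  have hfle : ∀ x, ‖f x‖ ≤ 1 * ‖x‖ := fun x => by
    rw [one_mul]
    exact le_of_tendsto' (hf x).norm fun n => (T n).app_le x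
  let L : X →ₗ[ℂ] X :=
    { toFun := f
      map_add' := fun x y => by
        have := (hf x).add (hf y)
        refine tendsto_nhds_unique (hf (x + y)) (this.congr fun n => ?_)
        rw [map_add]
      map_smul' := fun c x => by
        have := (hf x).const_smul c
        refine tendsto_nhds_unique (hf (c • x)) (this.congr fun n => ?_)
        rw [map_smul] }
  let S : X →L[ℂ] X := L.mkContinuous 1 hfle
  have hS : ∀ x, S x = f x := fun x => rfl
  refine ⟨mkC S (L.mkContinuous_norm_le zero_le_one hfle), ?_⟩
  refine Prod.ext ?_ ?_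
  · funext i
    exact tendsto_nhds_unique (hf (d i)) (h1 i)
  · funext j
    ext x
    have a1 : Tendsto (fun n => (e j) ((T n).op x)) atTop (𝓝 ((e j) (f x))) :=
      ((e j).continuous.tendsto _).comp (hf x)
    have a2 : Tendsto (fun n => (e j) ((T n).op x)) atTop (𝓝 ((w.2 j) x)) := by
      have hc : Continuous (fun g : X →L[ℂ] ℂ => g x) := continuous_id.clm_apply continuous_const
      exact (hc.tendsto _).comp (h2 j)
    exact tendsto_nhds_unique a1 a2

theorem polish [CompleteSpace X] [TopologicalSpace.SeparableSpace X]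
    [TopologicalSpace.SeparableSpace (X →L[ℂ] ℂ)] : PolishSpace (Contr X) := by
  have hd := TopologicalSpace.denseRange_denseSeq X
  have he := TopologicalSpace.denseRange_denseSeq (X →L[ℂ] ℂ)
  have h : IsClosedEmbedding (Phi X (TopologicalSpace.denseSeq X)
      (TopologicalSpace.denseSeq (X →L[ℂ] ℂ))) :=
    ⟨⟨phi_ind _ _ hd he, phi_inj _ _ hd⟩, phi_closed _ _ hd⟩
  have h1 : PolishSpace X := inferInstance
  have h2 : PolishSpace (X →L[ℂ] ℂ) := inferInstance
  exact h.polishSpace

theorem baire [CompleteSpace X] [TopologicalSpace.SeparableSpace X]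
    [TopologicalSpace.SeparableSpace (X →L[ℂ] ℂ)] : BaireSpace (Contr X) := by
  have hd := TopologicalSpace.denseRange_denseSeq X
  have he := TopologicalSpace.denseRange_denseSeq (X →L[ℂ] ℂ)
  have h : IsClosedEmbedding (Phi X (TopologicalSpace.denseSeq X)
      (TopologicalSpace.denseSeq (X →L[ℂ] ℂ))) :=
    ⟨⟨phi_ind _ _ hd he, phi_inj _ _ hd⟩, phi_closed _ _ hd⟩
  have := h.IsCompletelyMetrizableSpace
  infer_instance

end Pool.Agent.W736.TC
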