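import Pool.Agent.W736.TC.Approx

/-! The spaces of `p`-summable sequences in a Banach space. -/

set_option autoImplicit false
open Filter Topology ENNReal

namespace Pool.Agent.W736.TC

/-- The space `ℓ_p(E)` of the `p`-summable sequences (indexed by the natural numbers) of elements
of the normed space `E`. -/
abbrev ell (E : Type) [NormedAddCommGroup E] (p : ℝ≥0∞) : Type := lp (fun _ : ℕ => E) p

/-- finitely many coordinates -/
abbrev ellm (V : Type) [NormedAddCommGroup V] (p : ℝ≥0∞) (m : ℕ) : Type :=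
  PiLp p (fun _ : Fin m => V)

variable {p : ℝ≥0∞} {V : Type} [NormedAddCommGroup V] [NormedSpace ℂ V]

theorem ellm_norm (hp : 0 < p.toReal) {m : ℕ} [Fact (1 ≤ p)] (f : ellm V p m) :
    ‖f‖ ^ p.toReal = ∑ i, ‖f i‖ ^ p.toReal := by
  rw [PiLp.norm_eq_sum hp, ← Real.rpow_mul (by positivity), one_div, inv_mul_cancel₀ hp.ne',
    Real.rpow_one]

variable [Fact (1 ≤ p)] {E : Type} [NormedAddCommGroup E] [NormedSpace ℂ E]

/-- the embedding on the coordinates `k * m + i` -/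
noncomputable def Jm (p : ℝ≥0∞) [Fact (1 ≤ p)] (j : V →L[ℂ] E) (m k : ℕ) :
    ellm V p m →L[ℂ] ell E p :=
  ∑ i : Fin m, (lp.singleContinuousLinearMap ℂ (fun _ : ℕ => E) p (k * m + i)).comp
    (j.comp (PiLp.proj (𝕜 := ℂ) p (fun _ : Fin m => V) i))

theorem Jm_apply (j : V →L[ℂ] E) (m k : ℕ) (v : ellm V p m) :
    Jm p j m k v = ∑ i : Fin m, lp.single p (k * m + i) (j (v i)) := by
  simp [Jm]

theorem idx_inj {m k l : ℕ} {i j : Fin m} (h : k * m + i = l * m + j) : k = l ∧ i = j := by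
  have hm : 0 < m := lt_of_le_of_lt (Nat.zero_le _) i.2
  have h1 : (k * m + i) / m = k := by
    rw [mul_comm, Nat.mul_add_div hm, Nat.div_eq_of_lt i.2, add_zero]
  have h2 : (l * m + j) / m = l := by
    rw [mul_comm, Nat.mul_add_div hm, Nat.div_eq_of_lt j.2, add_zero]
  have hk : k = l := by rw [← h1, ← h2, h]
  subst hk
  exact ⟨rfl, Fin.ext (by omega)⟩

theorem Jm_coord (j : V →L[ℂ] E) (m k l : ℕ) (v : ellm V p m) (a : Fin m) :
    (Jm p j m k v) (l * m + a) = if k = l then j (v a) else 0 := by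
  rw [Jm_apply, lp.coeFn_sum, Finset.sum_apply]
  simp only [lp.single_apply]
  split_ifs with h
  · subst h
    rw [Finset.sum_eq_single a]
    · simp
    · intro i _ hi
      rw [Pi.single_eq_of_ne]
      intro h
      exact hi (idx_inj h).2.symm
    · intro h
      exact absurd (Finset.mem_univ _) h
  · refine Finset.sum_eq_zero fun i _ => ?_
    rw [Pi.single_eq_of_ne]
    intro h'
    exact h (idx_inj h').1.symm

/-- the image index set -/
def idx (m : ℕ) (s : Finset ℕ) : Finset ℕ :=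
  (s ×ˢ (Finset.univ : Finset (Fin m))).image (fun a => a.1 * m + a.2)

theorem sum_idx {M : Type} [AddCommMonoid M] (m : ℕ) (s : Finset ℕ) (f : ℕ → M) :
    ∑ n ∈ idx m s, f n = ∑ k ∈ s, ∑ i : Fin m, f (k * m + i) := by
  rw [idx, Finset.sum_image, Finset.sum_product]
  rintro ⟨k, i⟩ _ ⟨l, j⟩ _ h
  obtain ⟨h1, h2⟩ := idx_inj h
  exact Prod.ext h1 h2

theorem clm_le {A B : Type} [NormedAddCommGroup A] [NormedSpace ℂ A] [NormedAddCommGroup B]
    [NormedSpace ℂ B] {j : A →L[ℂ] B} (hj : ‖j‖ ≤ 1) (v : A) : ‖j v‖ ≤ ‖v‖ := by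
  calc ‖j v‖ ≤ ‖j‖ * ‖v‖ := j.le_opNorm v
    _ ≤ 1 * ‖v‖ := by gcongr
    _ = ‖v‖ := one_mul _

theorem up_m (hp : 0 < p.toReal) {j : V →L[ℂ] E} (hj : ‖j‖ ≤ 1) (m : ℕ) (s : Finset ℕ)
    (v : ℕ → ellm V p m) :
    ‖∑ k ∈ s, Jm p j m k (v k)‖ ^ p.toReal ≤ ∑ k ∈ s, ‖v k‖ ^ p.toReal := by
  classical
  set w : ℕ → E := fun n => if h : ∃ a : ℕ × Fin m, a.1 * m + a.2 = n then
    j (v h.choose.1 h.choose.2) else 0 with hw
  have hwk : ∀ (k : ℕ) (i : Fin m), w (k * m + i) = j (v k i) := by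
    intro k i
    have h : ∃ a : ℕ × Fin m, a.1 * m + a.2 = k * m + i := ⟨(k, i), rfl⟩
    obtain ⟨h1, h2⟩ := idx_inj h.choose_spec
    simp only [hw, dif_pos h]
    rw [h1, h2]
  have e : ∑ k ∈ s, Jm p j m k (v k) = ∑ n ∈ idx m s, lp.single p n (w n) := by
    rw [sum_idx]
    refine Finset.sum_congr rfl fun k _ => ?_
    rw [Jm_apply]
    refine Finset.sum_congr rfl fun i _ => ?_
    rw [hwk]
  rw [e, lp.norm_sum_single hp, sum_idx]
  refine Finset.sum_le_sum fun k _ => ?_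
  rw [ellm_norm hp]
  refine Finset.sum_le_sum fun i _ => ?_
  rw [hwk]
  exact Real.rpow_le_rpow (norm_nonneg _) (clm_le hj _) hp.le

/-- the coordinate map, as a linear map -/
noncomputable def Rl (p : ℝ≥0∞) [Fact (1 ≤ p)] (r : E →L[ℂ] V) (m k : ℕ) :
    ell E p →ₗ[ℂ] ellm V p m where
  toFun x := WithLp.toLp p (fun i : Fin m => r (x (k * m + i)))
  map_add' x y := by
    ext i
    exact map_add r _ _
  map_smul' c x := by
    ext i
    exact map_smul r _ _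

theorem Rl_eq (hp : 0 < p.toReal) (r : E →L[ℂ] V) (m k : ℕ) (x : ell E p) :
    ‖Rl p r m k x‖ ^ p.toReal = ∑ i : Fin m, ‖r (x (k * m + i))‖ ^ p.toReal := by
  rw [ellm_norm hp]
  rfl

theorem low_l (hp : 0 < p.toReal) {r : E →L[ℂ] V} (hr : ‖r‖ ≤ 1) (m : ℕ) (s : Finset ℕ)
    (x : ell E p) : ∑ k ∈ s, ‖Rl p r m k x‖ ^ p.toReal ≤ ‖x‖ ^ p.toReal := by
  have e : ∑ k ∈ s, ‖Rl p r m k x‖ ^ p.toReal ≤ ∑ n ∈ idx m s, ‖x n‖ ^ p.toReal := by
    rw [sum_idx]
    refine Finset.sum_le_sum fun k _ => ?_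
    rw [Rl_eq hp]
    exact Finset.sum_le_sum fun i _ => Real.rpow_le_rpow (norm_nonneg _) (clm_le hr _) hp.le
  exact e.trans (lp.sum_rpow_le_norm_rpow hp x _)

omit [NormedSpace ℂ E] in
theorem pos_p : p ≠ 0 := (zero_lt_one.trans_le (Fact.out : 1 ≤ p)).ne'

theorem pos_r (htop : p ≠ ⊤) : 0 < p.toReal := ENNReal.toReal_pos pos_p htop

/-- the coordinate map -/
noncomputable def Rm (p : ℝ≥0∞) [Fact (1 ≤ p)] (htop : p ≠ ⊤) (r : E →L[ℂ] V) (hr : ‖r‖ ≤ 1)
    (m k : ℕ) : ell E p →L[ℂ] ellm V p m :=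
  (Rl p r m k).mkContinuous 1 fun x => by
    have hp := pos_r htop
    rw [one_mul]
    apply (Real.rpow_le_rpow_iff (norm_nonneg _) (norm_nonneg _) hp).1
    have := low_l hp hr m {k} x
    simpa using this

theorem Rm_apply (htop : p ≠ ⊤) (r : E →L[ℂ] V) (hr : ‖r‖ ≤ 1) (m k : ℕ) (x : ell E p)
    (i : Fin m) : Rm p htop r hr m k x i = r (x (k * m + i)) := rfl

theorem blk_m (htop : p ≠ ⊤) {j : V →L[ℂ] E} {r : E →L[ℂ] V} (hj : ‖j‖ ≤ 1) (hr : ‖r‖ ≤ 1)
    (hrj : ∀ v, r (j v) = v) (m : ℕ) : Blk p.toReal (Jm p j m) (Rm p htop r hr m) where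
  rj k v := by
    ext i
    rw [Rm_apply, Jm_coord, if_pos rfl, hrj]
  rj' k l hkl v := by
    ext i
    rw [Rm_apply, Jm_coord, if_neg (Ne.symm hkl), map_zero]
    rfl
  up s v := up_m (pos_r htop) hj m s v
  low s x := low_l (pos_r htop) hr m s x

/-- the truncation to the first `n` coordinates -/
noncomputable def Pn (E : Type) [NormedAddCommGroup E] [NormedSpace ℂ E] (p : ℝ≥0∞)
    [Fact (1 ≤ p)] (n : ℕ) : ell E p →L[ℂ] ell E p :=
  ∑ i ∈ Finset.range n, (lp.singleContinuousLinearMap ℂ (fun _ : ℕ => E) p i).comp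
    (lp.evalCLM ℂ (fun _ : ℕ => E) p i)

theorem Pn_apply (n : ℕ) (x : ell E p) :
    Pn E p n x = ∑ i ∈ Finset.range n, lp.single p i (x i) := by
  simp only [Pn, _root_.sum_apply, ContinuousLinearMap.comp_apply,
    lp.singleContinuousLinearMap_apply]
  rfl

theorem Pn_coord (n : ℕ) (x : ell E p) (j : ℕ) : (Pn E p n x) j = if j < n then x j else 0 := by
  rw [Pn_apply, lp.coeFn_sum, Finset.sum_apply]
  simp only [lp.single_apply]
  rw [Finset.sum_pi_single]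
  simp

theorem Pn_tendsto (htop : p ≠ ⊤) (x : ell E p) :
    Tendsto (fun n => Pn E p n x) atTop (𝓝 x) := by
  have := (lp.hasSum_single htop x).tendsto_sum_nat
  refine this.congr fun n => ?_
  rw [Pn_apply]

theorem Pn_norm (htop : p ≠ ⊤) (n : ℕ) (x : ell E p) :
    ‖x‖ ^ p.toReal = ‖Pn E p n x‖ ^ p.toReal + ‖x - Pn E p n x‖ ^ p.toReal := by
  rw [Pn_apply, lp.norm_compl_sum_single (pos_r htop), lp.norm_sum_single (pos_r htop)]
  ring

theorem Pn_le (htop : p ≠ ⊤) (n : ℕ) (x : ell E p) : ‖Pn E p n x‖ ≤ ‖x‖ := by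
  apply (Real.rpow_le_rpow_iff (norm_nonneg _) (norm_nonneg _) (pos_r htop)).1
  rw [Pn_norm htop n x]
  have : 0 ≤ ‖x - Pn E p n x‖ ^ p.toReal := by positivity
  linarith

theorem Pn_le' (htop : p ≠ ⊤) (n : ℕ) (x : ell E p) : ‖x - Pn E p n x‖ ≤ ‖x‖ := by
  apply (Real.rpow_le_rpow_iff (norm_nonneg _) (norm_nonneg _) (pos_r htop)).1
  rw [Pn_norm htop n x]
  have : 0 ≤ ‖Pn E p n x‖ ^ p.toReal := by positivity
  linarith

theorem Pn_comp {m n : ℕ} (h : n ≤ m) (x : ell E p) : Pn E p n (Pn E p m x) = Pn E p n x := by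
  ext1
  funext j
  rw [Pn_coord, Pn_coord, Pn_coord]
  split_ifs with h1 h2
  · rfl
  · omega
  · rfl

/-- a phase -/
theorem phase (a : ℂ) : ∃ u : ℂ, ‖u‖ = 1 ∧ u * a = (‖a‖ : ℂ) := by
  by_cases h : a = 0
  · exact ⟨1, by simp, by simp [h]⟩
  · refine ⟨(‖a‖ : ℂ) / a, ?_, by field_simp⟩
    rw [norm_div, Complex.norm_real, norm_norm, div_self (norm_ne_zero_iff.2 h)]

/-- a functional restricted to the tail -/
noncomputable def tl (y : ell E p →L[ℂ] ℂ) (n : ℕ) : ell E p →L[ℂ] ℂ := y - y.comp (Pn E p n)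

theorem tl_apply (y : ell E p →L[ℂ] ℂ) (n : ℕ) (x : ell E p) :
    tl y n x = y (x - Pn E p n x) := by
  simp [tl]

theorem tl_anti (htop : p ≠ ⊤) (y : ell E p →L[ℂ] ℂ) {m n : ℕ} (h : n ≤ m) :
    ‖tl y m‖ ≤ ‖tl y n‖ := by
  apply ContinuousLinearMap.opNorm_le_bound _ (norm_nonneg _)
  intro x
  have e : tl y m x = tl y n (x - Pn E p m x) := by
    rw [tl_apply, tl_apply, map_sub (Pn E p n), Pn_comp h]
    simp
  rw [e]
  calc _ ≤ ‖tl y n‖ * ‖x - Pn E p m x‖ := (tl y n).le_opNorm _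
    _ ≤ ‖tl y n‖ * ‖x‖ := by gcongr; exact Pn_le' htop m x

/-- a functional almost attains its norm -/
theorem almost (y : ell E p →L[ℂ] ℂ) (c : ℝ) (hc : c < ‖y‖) :
    ∃ u : ell E p, ‖u‖ ≤ 1 ∧ c < ‖y u‖ := by
  by_contra hcon
  push Not at hcon
  rcases lt_or_ge c 0 with h | h
  · have := hcon 0 (by simp)
    rw [map_zero, norm_zero] at this
    linarith
  · have : ‖y‖ ≤ c := by
      apply ContinuousLinearMap.opNorm_le_of_unit_norm h
      intro x hx
      exact hcon x hx.le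
    linarith

theorem tail_small (h1 : 1 < p) (htop : p ≠ ⊤) (y : ell E p →L[ℂ] ℂ) (ε : ℝ) (hε : 0 < ε) :
    ∃ n, ‖tl y n‖ < ε := by
  by_contra hcon
  push Not at hcon
  have hr : 1 < p.toReal := by
    rw [← ENNReal.toReal_one]
    exact (ENNReal.toReal_lt_toReal ENNReal.one_ne_top htop).2 h1
  set c : ℝ := (2:ℝ) ^ (1 / p.toReal) with hc
  have hc0 : 0 < c := by positivity
  have hc2 : c < 2 := by
    calc c < (2:ℝ) ^ (1:ℝ) := Real.rpow_lt_rpow_of_exponent_lt (by norm_num) (by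
          rw [div_lt_one (by linarith)]
          exact hr)
      _ = 2 := Real.rpow_one _
  set a : ℝ := ⨅ n, ‖tl y n‖ with ha
  have hbdd : BddBelow (Set.range fun n => ‖tl y n‖) := ⟨0, by
    rintro _ ⟨n, rfl⟩
    exact norm_nonneg _⟩
  have hale : ∀ n, a ≤ ‖tl y n‖ := fun n => ciInf_le hbdd n
  have hae : ε ≤ a := le_ciInf hcon
  set δ : ℝ := a * (2 - c) / (4 * (2 + c)) with hδ
  have hδ0 : 0 < δ := by
    have : 0 < 2 - c := by linarith
    have : 0 < a := by linarith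
    positivity
  obtain ⟨N, hN⟩ := exists_lt_of_ciInf_lt (show (⨅ n, ‖tl y n‖) < a + δ by rw [← ha]; linarith)
  obtain ⟨u, hu1, hu2⟩ := almost (tl y N) (a - δ) (by linarith [hale N])
  rw [tl_apply] at hu2
  -- truncate
  have ht : Tendsto (fun M => ‖y (Pn E p M (u - Pn E p N u))‖) atTop (𝓝 ‖y (u - Pn E p N u)‖) :=
    ((y.continuous.tendsto _).comp (Pn_tendsto htop _)).norm
  obtain ⟨M, hM1, hM2⟩ := ((ht.eventually (lt_mem_nhds hu2)).and (eventually_ge_atTop N)).exists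
  obtain ⟨v, hv1, hv2⟩ := almost (tl y M) (a - δ) (by linarith [hale M])
  rw [tl_apply] at hv2
  set u2 : ell E p := Pn E p M (u - Pn E p N u) with hu2d
  set v2 : ell E p := v - Pn E p M v with hv2d
  have hu2n : ‖u2‖ ≤ 1 := (Pn_le htop M _).trans ((Pn_le' htop N u).trans hu1)
  have hv2n : ‖v2‖ ≤ 1 := (Pn_le' htop M _).trans hv1
  obtain ⟨α, hα1, hα2⟩ := phase (y u2)
  obtain ⟨β, hβ1, hβ2⟩ := phase (y v2)
  set z : ell E p := α • u2 + β • v2 with hz
  have q1 : Pn E p M u2 = u2 := Pn_comp le_rfl _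
  have q2 : Pn E p M v2 = 0 := by rw [hv2d, map_sub, Pn_comp le_rfl, sub_self]
  have q3 : Pn E p N u2 = 0 := by rw [hu2d, Pn_comp hM2, map_sub, Pn_comp le_rfl, sub_self]
  have q4 : Pn E p N v2 = 0 := by rw [hv2d, map_sub, Pn_comp hM2, sub_self]
  have hPz : Pn E p M z = α • u2 := by
    rw [hz, map_add, map_smul, map_smul, q1, q2, smul_zero, add_zero]
  have hPz' : z - Pn E p M z = β • v2 := by
    rw [hPz, hz]
    abel
  have hPN : Pn E p N z = 0 := by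
    rw [hz, map_add, map_smul, map_smul, q3, q4, smul_zero, smul_zero, add_zero]
  have hzn : ‖z‖ ≤ c := by
    apply (Real.rpow_le_rpow_iff (norm_nonneg _) hc0.le (pos_r htop)).1
    rw [Pn_norm htop M z, hPz', hPz, norm_smul, norm_smul, hα1, hβ1, one_mul, one_mul, hc,
      ← Real.rpow_mul (by norm_num), one_div, inv_mul_cancel₀ (pos_r htop).ne', Real.rpow_one]
    have b1 : ‖u2‖ ^ p.toReal ≤ 1 := Real.rpow_le_one (norm_nonneg _) hu2n (pos_r htop).le
    have b2 : ‖v2‖ ^ p.toReal ≤ 1 := Real.rpow_le_one (norm_nonneg _) hv2n (pos_r htop).le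
    linarith
  have hyz : y z = ((‖y u2‖ + ‖y v2‖ : ℝ) : ℂ) := by
    rw [hz, map_add, map_smul, map_smul, smul_eq_mul, smul_eq_mul, hα2, hβ2]
    push_cast
    rfl
  have hyz2 : ‖y z‖ = ‖y u2‖ + ‖y v2‖ := by
    rw [hyz, Complex.norm_real, Real.norm_of_nonneg (by positivity)]
  have hyz3 : ‖y z‖ ≤ (a + δ) * c := by
    have e : y z = tl y N z := by
      rw [tl_apply, hPN, sub_zero]
    rw [e]
    calc _ ≤ ‖tl y N‖ * ‖z‖ := (tl y N).le_opNorm _
      _ ≤ (a + δ) * c := by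
          gcongr
          linarith
  have hfin : 2 * (a - δ) < (a + δ) * c := by linarith
  have : δ * (4 * (2 + c)) = a * (2 - c) := by
    rw [hδ]
    field_simp
  nlinarith

theorem tl_tendsto (h1 : 1 < p) (htop : p ≠ ⊤) (y : ell E p →L[ℂ] ℂ) (ε : ℝ) (hε : 0 < ε) :
    ∀ᶠ n in atTop, ‖tl y n‖ < ε := by
  obtain ⟨n, hn⟩ := tail_small h1 htop y ε hε
  filter_upwards [eventually_ge_atTop n] with m hm
  exact (tl_anti htop y hm).trans_lt hn

end Pool.Agent.W736.TC
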