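import Mathlib

/-! The Baire category scheme (adapted from `Pool.Agent.H952R2.TY.P.T5`). -/

set_option autoImplicit false
open Filter Topology

namespace Pool.Agent.W736.TC

namespace BaireAux

variable {X P : Type} [TopologicalSpace X]

/-- A family of level `k`. -/
def Fam (R : X → P → Prop) (A : Set (Set X × P)) : Prop :=
  (∀ v ∈ A, IsOpen v.1 ∧ v.1.Nonempty ∧ ∀ x ∈ v.1, R x v.2) ∧
    ∀ v ∈ A, ∀ w ∈ A, v ≠ w → Disjoint v.1 w.1

/-- The union of a family. -/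
def Un (A : Set (Set X × P)) : Set X := ⋃ v ∈ A, v.1

theorem isOpen_Un {R : X → P → Prop} {A : Set (Set X × P)} (h : Fam R A) : IsOpen (Un A) :=
  isOpen_biUnion fun v hv => (h.1 v hv).1

/-- Existence of a family with dense union, all of whose members satisfy `Q`. -/
theorem exists_fam (R : X → P → Prop) (hR : ∀ E, IsOpen {x | R x E}) (Q : Set X × P → Prop)
    (hQ : ∀ U : Set X, IsOpen U → U.Nonempty → ∃ V : Set X, IsOpen V ∧ V ⊆ U ∧ ∃ x ∈ V, ∃ E,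
      R x E ∧ ∀ V' ⊆ V, Q (V', E)) :
    ∃ A, Fam R A ∧ Dense (Un A) ∧ ∀ v ∈ A, Q v := by
  obtain ⟨A, hA⟩ := zorn_subset {A : Set (Set X × P) | Fam R A ∧ ∀ v ∈ A, Q v} (by
    intro c hc hch
    refine ⟨⋃₀ c, ⟨⟨?_, ?_⟩, ?_⟩, fun s hs => Set.subset_sUnion_of_mem hs⟩
    · rintro v ⟨s, hs, hv⟩
      exact (hc hs).1.1 v hv
    · rintro v ⟨s, hs, hv⟩ w ⟨t, ht, hw⟩ hvw
      rcases hch.total hs ht with h | h
      · exact (hc ht).1.2 v (h hv) w hw hvw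
      · exact (hc hs).1.2 v hv w (h hw) hvw
    · rintro v ⟨s, hs, hv⟩
      exact (hc hs).2 v hv)
  refine ⟨A, hA.prop.1, ?_, hA.prop.2⟩
  rw [dense_iff_inter_open]
  intro U hU hUn
  by_contra hcon
  rw [Set.not_nonempty_iff_eq_empty] at hcon
  have hdis : ∀ v ∈ A, Disjoint v.1 U := by
    intro v hv
    rw [Set.disjoint_left]
    intro x hx hxU
    have : x ∈ U ∩ Un A := ⟨hxU, Set.mem_biUnion hv hx⟩
    rw [hcon] at this
    exact this
  obtain ⟨V, hV, hVU, x, hxV, E, hxE, hq⟩ := hQ U hU hUn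
  let v' : Set X × P := (V ∩ {y | R y E}, E)
  have hv'n : v'.1.Nonempty := ⟨x, hxV, hxE⟩
  have hv'U : v'.1 ⊆ U := fun y hy => hVU hy.1
  have hv'A : v' ∉ A := by
    intro h
    have h1 := hdis v' h
    obtain ⟨y, hy⟩ := hv'n
    exact Set.disjoint_left.1 h1 hy (hv'U hy)
  have hins : insert v' A ∈ {A : Set (Set X × P) | Fam R A ∧ ∀ v ∈ A, Q v} := by
    refine ⟨⟨?_, ?_⟩, ?_⟩
    · intro v hv
      rcases hv with rfl | hv
      · exact ⟨hV.inter (hR E), hv'n, fun y hy => hy.2⟩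
      · exact hA.prop.1.1 v hv
    · intro v hv w hw hvw
      rcases hv with rfl | hv
      · rcases hw with rfl | hw
        · exact absurd rfl hvw
        · exact (hdis w hw).symm.mono_left hv'U
      · rcases hw with rfl | hw
        · exact (hdis v hv).mono_right hv'U
        · exact hA.prop.1.2 v hv w hw hvw
    · intro v hv
      rcases hv with rfl | hv
      · exact hq _ Set.inter_subset_left
      · exact hA.prop.2 v hv
  exact hv'A (hA.le_of_ge hins (Set.subset_insert _ _) (Set.mem_insert _ _))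

theorem main (R : ℕ → X → P → Prop) (N : ℕ → P → P → Prop)
    (hR : ∀ k E, IsOpen {x | R k x E})
    (h0 : ∀ U : Set X, IsOpen U → U.Nonempty → ∃ x ∈ U, ∃ E, R 0 x E)
    (hs : ∀ k x E, R k x E → ∀ U : Set X, IsOpen U → x ∈ U →
      ∃ y ∈ U, ∃ E', R (k + 1) y E' ∧ N k E E') :
    ∃ S ∈ residual X, ∀ x ∈ S, ∃ E : ℕ → P, ∀ k, R k x (E k) ∧ N k (E k) (E (k + 1)) := by
  classical
  obtain ⟨A0, hA0, hA0d, -⟩ := exists_fam (R 0) (hR 0) (fun _ => True) (by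
    intro U hU hUn
    obtain ⟨x, hx, E, hE⟩ := h0 U hU hUn
    exact ⟨U, hU, subset_rfl, x, hx, E, hE, fun _ _ => trivial⟩)
  have step : ∀ k (A : Set (Set X × P)), Fam (R k) A → Dense (Un A) →
      ∃ A', Fam (R (k + 1)) A' ∧ Dense (Un A') ∧
        ∀ v' ∈ A', ∃ v ∈ A, v'.1 ⊆ v.1 ∧ N k v.2 v'.2 := by
    intro k A hA hAd
    refine exists_fam (R (k + 1)) (hR (k + 1)) (fun v' => ∃ v ∈ A, v'.1 ⊆ v.1 ∧ N k v.2 v'.2) ?_
    intro U hU hUn
    obtain ⟨x, hxU, hxA⟩ := dense_iff_inter_open.1 hAd U hU hUn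
    obtain ⟨v, hv, hxv⟩ := Set.mem_iUnion₂.1 hxA
    obtain ⟨y, hy, E', hyE', hN⟩ := hs k x v.2 ((hA.1 v hv).2.2 x hxv) (U ∩ v.1)
      (hU.inter (hA.1 v hv).1) ⟨hxU, hxv⟩
    exact ⟨U ∩ v.1, hU.inter (hA.1 v hv).1, Set.inter_subset_left, y, hy, E', hyE',
      fun V' hV' => ⟨v, hv, hV'.trans Set.inter_subset_right, hN⟩⟩
  choose F hF1 hF2 hF3 using step
  let seq : (k : ℕ) → {A : Set (Set X × P) // Fam (R k) A ∧ Dense (Un A)} := fun k =>
    Nat.rec ⟨A0, hA0, hA0d⟩ (fun k A => ⟨F k A.1 A.2.1 A.2.2, hF1 k A.1 A.2.1 A.2.2,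
      hF2 k A.1 A.2.1 A.2.2⟩) k
  have hseq : ∀ k, ∀ v' ∈ (seq (k + 1)).1, ∃ v ∈ (seq k).1, v'.1 ⊆ v.1 ∧ N k v.2 v'.2 :=
    fun k => hF3 k (seq k).1 (seq k).2.1 (seq k).2.2
  refine ⟨⋂ k, Un (seq k).1, ?_, ?_⟩
  · rw [countable_iInter_mem]
    intro k
    exact residual_of_dense_open (isOpen_Un (seq k).2.1) (seq k).2.2
  · intro x hx
    have hx' : ∀ k, ∃ v ∈ (seq k).1, x ∈ v.1 := by
      intro k
      obtain ⟨v, hv, hxv⟩ := Set.mem_iUnion₂.1 (Set.mem_iInter.1 hx k)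
      exact ⟨v, hv, hxv⟩
    choose v hv hxv using hx'
    refine ⟨fun k => (v k).2, fun k => ⟨((seq k).2.1.1 _ (hv k)).2.2 x (hxv k), ?_⟩⟩
    obtain ⟨w, hw, hsub, hN⟩ := hseq k (v (k + 1)) (hv (k + 1))
    have heq : w = v k := by
      by_contra hne
      exact Set.disjoint_left.1 ((seq k).2.1.2 w hw (v k) (hv k) hne) (hsub (hxv (k + 1))) (hxv k)
    rw [heq] at hN
    exact hN

end BaireAux

theorem scheme (X P : Type) [TopologicalSpace X] (R : ℕ → X → P → Prop) (N : ℕ → P → P → Prop)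
    (hR : ∀ k E, IsOpen {x | R k x E})
    (h0 : ∀ U : Set X, IsOpen U → U.Nonempty → ∃ x ∈ U, ∃ E, R 0 x E)
    (hs : ∀ k E x, R k x E → ∀ U : Set X, IsOpen U → x ∈ U →
      ∃ y ∈ U, ∃ E', R (k + 1) y E' ∧ N k E E') :
    {x | ∃ E : ℕ → P, ∀ k, R k x (E k) ∧ N k (E k) (E (k + 1))} ∈ residual X := by
  obtain ⟨S, hS, h⟩ := BaireAux.main R N hR h0 (fun k x E => hs k E x)
  exact Filter.mem_of_superset hS h

end Pool.Agent.W736.TC
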