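import Pool.Agent.W736.TC.Refine
import Pool.Agent.W736.TC.Baire

/-! Typical contractions have hyperinvariant subspaces: the abstract theorem. -/

set_option autoImplicit false
open Filter Topology Polynomial

namespace Pool.Agent.W736.TC

variable {X : Type} [NormedAddCommGroup X] [NormedSpace ℂ X]

theorem RR.mono {ρ ρ' : ℝ} {T : X →L[ℂ] X} {x : X} {y : X →L[ℂ] ℂ} (h : RR ρ T x y)
    (hρ : ρ ≤ ρ') : RR ρ' T x y := by
  obtain ⟨b, z, h1, h2⟩ := h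
  exact ⟨b, z, h1.trans_le hρ, h2.trans_le hρ⟩

/-- `E` is closed and invariant under all operators commuting with `T` -/
def Hyp (T : X →L[ℂ] X) (E : Submodule ℂ X) : Prop :=
  IsClosed (E : Set X) ∧ ∀ S : X →L[ℂ] X, S ∘L T = T ∘L S → ∀ v ∈ E, S v ∈ E

/-- the vectors whose commutant orbit is annihilated by `y` -/
def EE (T : X →L[ℂ] X) (y : X →L[ℂ] ℂ) : Submodule ℂ X where
  carrier := {v | ∀ S : X →L[ℂ] X, S ∘L T = T ∘L S → y (S v) = 0}
  add_mem' := by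
    intro a b ha hb S hS
    rw [map_add, map_add, ha S hS, hb S hS, add_zero]
  zero_mem' := by
    intro S _
    rw [map_zero, map_zero]
  smul_mem' := by
    intro c a ha S hS
    rw [map_smul, map_smul, ha S hS, smul_zero]

theorem mem_EE (T : X →L[ℂ] X) (y : X →L[ℂ] ℂ) (v : X) :
    v ∈ EE T y ↔ ∀ S : X →L[ℂ] X, S ∘L T = T ∘L S → y (S v) = 0 := Iff.rfl

theorem hyp_EE (T : X →L[ℂ] X) (y : X →L[ℂ] ℂ) : Hyp T (EE T y) := by
  constructor
  · have : ((EE T y : Submodule ℂ X) : Set X)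
        = ⋂ (S : X →L[ℂ] X) (_ : S ∘L T = T ∘L S), {v | y (S v) = 0} := by
      ext v
      simp [mem_EE]
    rw [this]
    exact isClosed_iInter fun S => isClosed_iInter fun _ =>
      isClosed_eq (y.continuous.comp S.continuous) continuous_const
  · intro Q hQ v hv S hS
    have : (S ∘L Q) ∘L T = T ∘L (S ∘L Q) := by
      rw [ContinuousLinearMap.comp_assoc, hQ, ← ContinuousLinearMap.comp_assoc, hS,
        ContinuousLinearMap.comp_assoc]
    exact hv (S ∘L Q) this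

theorem limit [CompleteSpace X] (T : X →L[ℂ] X) (x : ℕ → X) (y : ℕ → (X →L[ℂ] ℂ)) (σ : ℕ → ℝ)
    (C : ℝ) (hσ : Tendsto σ atTop (𝓝 0)) (hR : ∀ k, RR (σ k) T (x k) (y k))
    (hx : ∀ k, ‖x (k + 1) - x k‖ ≤ C * (1 / 2 : ℝ) ^ k)
    (hy : ∀ k, ‖y (k + 1) - y k‖ ≤ C * (1 / 2 : ℝ) ^ k) :
    ∃ (x' : X) (y' : X →L[ℂ] ℂ), Tendsto x atTop (𝓝 x') ∧ Tendsto y atTop (𝓝 y') ∧
      x' ∈ EE T y' := by
  have h1 : CauchySeq x := cauchySeq_of_le_geometric (1 / 2) C (by norm_num) (fun k => by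
    rw [dist_eq_norm, norm_sub_rev]
    exact hx k)
  have h2 : CauchySeq y := cauchySeq_of_le_geometric (1 / 2) C (by norm_num) (fun k => by
    rw [dist_eq_norm, norm_sub_rev]
    exact hy k)
  obtain ⟨x', hx'⟩ := cauchySeq_tendsto_of_complete h1
  obtain ⟨y', hy'⟩ := cauchySeq_tendsto_of_complete h2
  refine ⟨x', y', hx', hy', fun S hS => ?_⟩
  have h3 : Tendsto (fun k => (y k) (S (x k))) atTop (𝓝 (y' (S x'))) := by
    have hc : Continuous (fun q : (X →L[ℂ] ℂ) × X => q.1 (S q.2)) :=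
      continuous_fst.clm_apply (S.continuous.comp continuous_snd)
    exact (hc.tendsto (y', x')).comp (hy'.prodMk_nhds hx')
  have h4 : Tendsto (fun k => σ k * (1 + ‖x k‖) * ‖S‖) atTop (𝓝 0) := by
    have : Tendsto (fun k => σ k * (1 + ‖x k‖) * ‖S‖) atTop (𝓝 (0 * (1 + ‖x'‖) * ‖S‖)) :=
      (hσ.mul (tendsto_const_nhds.add hx'.norm)).mul tendsto_const_nhds
    simpa using this
  have h5 : Tendsto (fun k => (y k) (S (x k))) atTop (𝓝 0) :=
    squeeze_zero_norm (fun k => (hR k).small S hS) h4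
  exact tendsto_nhds_unique h3 h5

theorem half_pow (k : ℕ) : (0:ℝ) < (1 / 2 : ℝ) ^ k ∧ (1 / 2 : ℝ) ^ k ≤ 1 :=
  ⟨by positivity, pow_le_one₀ (by norm_num) (by norm_num)⟩

theorem typ [CompleteSpace X] {p q : ℝ} (hpq : p.HolderConjugate q) (hX : HP p X) (x0 : X)
    (ε : ℝ) (hε : 0 < ε) (Y : (X →L[ℂ] ℂ) → ℝ → Prop) (W : X → ℝ → Prop)
    (B : ℝ) (hB : 0 ≤ B) (hWB : ∀ x r, r ≤ 2 * ε → W x r → ‖x‖ ≤ B)
    (hW : ∀ x x' r d, W x r → ‖x' - x‖ ≤ d → W x' (r + d))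
    (hY : ∀ y y' r d, Y y r → ‖y' - y‖ ≤ d → Y y' (r + d))
    (hst : ∀ (U : Set (Contr X)), IsOpen U → U.Nonempty → ∃ T' ∈ U, ∃ (x' : X) (y' : X →L[ℂ] ℂ),
      W x' ε ∧ Y y' ε ∧ ∀ ρ' : ℝ, 0 < ρ' → RR ρ' T'.op x' y') :
    {T : Contr X | ∃ (x : ℕ → X) (y : ℕ → (X →L[ℂ] ℂ)) (x' : X) (y' : X →L[ℂ] ℂ),
      Tendsto x atTop (𝓝 x') ∧ Tendsto y atTop (𝓝 y') ∧ x' ∈ EE T.op y' ∧
      (∀ k, W (x k) (2 * ε)) ∧ ∀ k, Y (y k) (2 * ε)} ∈ residual (Contr X) := by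
  have hstep := fun k : ℕ => refine_step hpq hX (ε * (1 / 2) ^ (k + 1)) B (by positivity) hB
  choose ρ hρ0 hρ using hstep
  set σ : ℕ → ℝ := fun k => min (ρ k) ((1 / 2 : ℝ) ^ k) with hσ
  have hσ0 : ∀ k, 0 < σ k := fun k => lt_min (hρ0 k) (half_pow k).1
  set r : ℕ → ℝ := fun k => ε * (2 - (1 / 2 : ℝ) ^ k) with hr
  have hr2 : ∀ k, r k ≤ 2 * ε := by
    intro k
    have := (half_pow k).1
    simp only [hr]
    nlinarith
  have hrs : ∀ k, r (k + 1) = r k + ε * (1 / 2) ^ (k + 1) := by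
    intro k
    simp only [hr]
    rw [pow_succ]
    ring
  have key := scheme (Contr X) (X × (X →L[ℂ] ℂ))
    (fun k T P => RR (σ k) T.op P.1 P.2 ∧ W P.1 (r k) ∧ Y P.2 (r k))
    (fun k P P' => ‖P'.1 - P.1‖ ≤ ε * (1 / 2) ^ (k + 1) ∧ ‖P'.2 - P.2‖ ≤ ε * (1 / 2) ^ (k + 1))
    ?_ ?_ ?_
  · refine Filter.mem_of_superset key ?_
    rintro T ⟨P, hP⟩
    obtain ⟨x', y', h1, h2, h3⟩ := limit T.op (fun k => (P k).1) (fun k => (P k).2) σ ε
      (squeeze_zero (fun k => (hσ0 k).le) (fun k => min_le_right _ _)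
        (tendsto_pow_atTop_nhds_zero_of_lt_one (by norm_num) (by norm_num)))
      (fun k => (hP k).1.1)
      (fun k => (hP k).2.1.trans (by
        have := (half_pow k).1
        rw [pow_succ]
        nlinarith))
      (fun k => (hP k).2.2.trans (by
        have := (half_pow k).1
        rw [pow_succ]
        nlinarith))
    refine ⟨_, _, x', y', h1, h2, h3, fun k => ?_, fun k => ?_⟩
    · have := hW (P k).1 (P k).1 (r k) (2 * ε - r k) (hP k).1.2.1 (by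
        rw [sub_self, norm_zero]
        linarith [hr2 k])
      rwa [add_sub_cancel] at this
    · have := hY (P k).2 (P k).2 (r k) (2 * ε - r k) (hP k).1.2.2 (by
        rw [sub_self, norm_zero]
        linarith [hr2 k])
      rwa [add_sub_cancel] at this
  · intro k P
    by_cases h : W P.1 (r k) ∧ Y P.2 (r k)
    · convert isOpen_RR (σ k) P.1 P.2 using 1
      ext T
      exact ⟨fun h => h.1, fun h' => ⟨h', h⟩⟩
    · convert isOpen_empty using 1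
      ext T
      simp only [Set.mem_setOf_eq, Set.mem_empty_iff_false, iff_false]
      exact fun h' => h h'.2
  · intro U hU hne
    obtain ⟨T', hT', x', y', h1, h2, h3⟩ := hst U hU hne
    have hr0 : r 0 = ε := by simp [hr]; ring
    exact ⟨T', hT', (x', y'), h3 _ (hσ0 0), by rw [hr0]; exact h1, by rw [hr0]; exact h2⟩
  · rintro k ⟨x, y⟩ T ⟨h1, h2, h3⟩ U hU hT
    obtain ⟨T', hT', x', y', h4, h5, h6⟩ := hρ k U hU T hT x y (hWB x _ (hr2 k) h2)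
      (h1.mono (min_le_left _ _))
    refine ⟨T', hT', (x', y'), ⟨h6 _ (hσ0 (k + 1)), ?_, ?_⟩, h4, h5⟩
    · rw [hrs]
      exact hW x x' _ _ h2 h4
    · rw [hrs]
      exact hY y y' _ _ h3 h5

theorem typ_x [CompleteSpace X] {p q : ℝ} (hpq : p.HolderConjugate q) (hX : HP p X) (x0 : X)
    (η : ℝ) (hη : 0 < η) :
    {T : Contr X | ∃ E : Submodule ℂ X, Hyp T.op E ∧ E ≠ ⊤ ∧ ∃ x ∈ E, ‖x - x0‖ ≤ η} ∈
      residual (Contr X) := by
  set ε : ℝ := min (η / 2) (1 / 4) with hε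
  have hε0 : 0 < ε := lt_min (by positivity) (by norm_num)
  have hε1 : 2 * ε ≤ η := by
    have := min_le_left (η / 2) (1 / 4 : ℝ)
    linarith
  have hε2 : 2 * ε ≤ 1 / 2 := by
    have := min_le_right (η / 2) (1 / 4 : ℝ)
    linarith
  have key := typ hpq hX x0 ε hε0 (fun y r => 1 - r ≤ ‖y‖) (fun x r => ‖x - x0‖ ≤ r)
    (‖x0‖ + 2 * ε) (by positivity)
    (fun x r hr hx => by
      calc ‖x‖ = ‖x0 + (x - x0)‖ := by rw [add_sub_cancel]
        _ ≤ ‖x0‖ + ‖x - x0‖ := norm_add_le _ _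
        _ ≤ ‖x0‖ + 2 * ε := by linarith)
    (fun x x' r d h1 h2 => by
      calc ‖x' - x0‖ = ‖(x - x0) + (x' - x)‖ := by congr 1; abel
        _ ≤ ‖x - x0‖ + ‖x' - x‖ := norm_add_le _ _
        _ ≤ r + d := add_le_add h1 h2)
    (fun y y' r d h1 h2 => by
      have : ‖y‖ ≤ ‖y'‖ + ‖y' - y‖ := by
        calc ‖y‖ = ‖y' - (y' - y)‖ := by rw [sub_sub_cancel]
          _ ≤ _ := norm_sub_le _ _
      show 1 - (r + d) ≤ ‖y'‖
      have h1' : 1 - r ≤ ‖y‖ := h1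
      linarith)
    (fun U hU hne => by
      obtain ⟨T', hT', x', y', h1, h2, h3⟩ := start_x hpq.pos hX x0 ε hε0 U hU hne
      exact ⟨T', hT', x', y', h1, by rw [h2]; linarith, h3⟩)
  refine Filter.mem_of_superset key ?_
  rintro T ⟨x, y, x', y', h1, h2, h3, h4, h5⟩
  refine ⟨EE T.op y', hyp_EE _ _, ?_, x', h3, ?_⟩
  · intro htop
    have hy0 : y' = 0 := by
      ext v
      have hv : v ∈ EE T.op y' := by rw [htop]; trivial
      have := hv (ContinuousLinearMap.id ℂ X) (by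
        rw [ContinuousLinearMap.id_comp, ContinuousLinearMap.comp_id])
      simpa using this
    have h6 : (1 / 2 : ℝ) ≤ ‖y'‖ := ge_of_tendsto' h2.norm fun k => by
      have h5k : 1 - 2 * ε ≤ ‖y k‖ := h5 k
      linarith
    rw [hy0, norm_zero] at h6
    linarith
  · exact (le_of_tendsto' (h1.sub_const x0).norm h4).trans hε1

theorem typ_y [CompleteSpace X] {p q : ℝ} (hpq : p.HolderConjugate q) (hX : HP p X)
    (y0 : X →L[ℂ] ℂ) (η : ℝ) (hη : 0 < η) :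
    {T : Contr X | ∃ y : X →L[ℂ] ℂ, ‖y - y0‖ ≤ η ∧ EE T.op y ≠ ⊥} ∈ residual (Contr X) := by
  set ε : ℝ := min (η / 2) (1 / 4) with hε
  have hε0 : 0 < ε := lt_min (by positivity) (by norm_num)
  have hε1 : 2 * ε ≤ η := by
    have := min_le_left (η / 2) (1 / 4 : ℝ)
    linarith
  have hε2 : 2 * ε ≤ 1 / 2 := by
    have := min_le_right (η / 2) (1 / 4 : ℝ)
    linarith
  have key := typ hpq hX (0 : X) ε hε0 (fun y r => ‖y - y0‖ ≤ r)
    (fun x r => 1 - r ≤ ‖x‖ ∧ ‖x‖ ≤ 1 + r)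
    (1 + 2 * ε) (by positivity)
    (fun x r hr hx => by
      have := hx.2
      linarith)
    (fun x x' r d h1 h2 => by
      have a1 : ‖x‖ ≤ ‖x'‖ + ‖x' - x‖ := by
        calc ‖x‖ = ‖x' - (x' - x)‖ := by rw [sub_sub_cancel]
          _ ≤ _ := norm_sub_le _ _
      have a2 : ‖x'‖ ≤ ‖x‖ + ‖x' - x‖ := by
        calc ‖x'‖ = ‖x + (x' - x)‖ := by rw [add_sub_cancel]
          _ ≤ _ := norm_add_le _ _
      have b1 := h1.1
      have b2 := h1.2
      exact ⟨by linarith, by linarith⟩)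
    (fun y y' r d h1 h2 => by
      calc ‖y' - y0‖ = ‖(y - y0) + (y' - y)‖ := by congr 1; abel
        _ ≤ ‖y - y0‖ + ‖y' - y‖ := norm_add_le _ _
        _ ≤ r + d := add_le_add h1 h2)
    (fun U hU hne => by
      obtain ⟨T', hT', x', y', h1, h2, h3⟩ := start_y hpq.pos hX y0 ε hε0 U hU hne
      exact ⟨T', hT', x', y', ⟨by rw [h2]; linarith, by rw [h2]; linarith⟩, h1, h3⟩)
  refine Filter.mem_of_superset key ?_
  rintro T ⟨x, y, x', y', h1, h2, h3, h4, h5⟩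
  refine ⟨y', (le_of_tendsto' (h2.sub_const y0).norm h5).trans hε1, ?_⟩
  intro hbot
  rw [hbot, Submodule.mem_bot] at h3
  have h6 : (1 / 2 : ℝ) ≤ ‖x'‖ := ge_of_tendsto' h1.norm fun k => by
    have := (h4 k).1
    linarith
  rw [h3, norm_zero] at h6
  linarith

/-- The abstract theorem. -/
theorem main [CompleteSpace X] [TopologicalSpace.SeparableSpace X]
    [TopologicalSpace.SeparableSpace (X →L[ℂ] ℂ)] {p q : ℝ} (hpq : p.HolderConjugate q)
    (hX : HP p X) :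
    {T : Contr X | (∀ (x : X) (ε : ℝ), 0 < ε → ∃ E : Submodule ℂ X, Hyp T.op E ∧ E ≠ ⊤ ∧
        ∃ x' ∈ E, ‖x' - x‖ < ε) ∧
      ∀ v : X, v ≠ 0 → ∃ E : Submodule ℂ X, Hyp T.op E ∧ E ≠ ⊥ ∧ v ∉ E} ∈
      residual (Contr X) := by
  have h1 : {T : Contr X | ∀ (i j : ℕ), ∃ E : Submodule ℂ X, Hyp T.op E ∧ E ≠ ⊤ ∧
      ∃ x ∈ E, ‖x - TopologicalSpace.denseSeq X i‖ ≤ 1 / ((j : ℝ) + 1)} ∈ residual (Contr X) := by
    have : {T : Contr X | ∀ (i j : ℕ), ∃ E : Submodule ℂ X, Hyp T.op E ∧ E ≠ ⊤ ∧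
      ∃ x ∈ E, ‖x - TopologicalSpace.denseSeq X i‖ ≤ 1 / ((j : ℝ) + 1)}
      = ⋂ (i : ℕ) (j : ℕ), {T : Contr X | ∃ E : Submodule ℂ X, Hyp T.op E ∧ E ≠ ⊤ ∧
      ∃ x ∈ E, ‖x - TopologicalSpace.denseSeq X i‖ ≤ 1 / ((j : ℝ) + 1)} := by
      ext T
      simp
    rw [this, countable_iInter_mem]
    intro i
    rw [countable_iInter_mem]
    intro j
    exact typ_x hpq hX _ _ (by positivity)
  have h2 : {T : Contr X | ∀ (i : ℕ), ∃ y : X →L[ℂ] ℂ,
      ‖y - TopologicalSpace.denseSeq (X →L[ℂ] ℂ) i‖ ≤ 1 / 4 ∧ EE T.op y ≠ ⊥} ∈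
      residual (Contr X) := by
    have : {T : Contr X | ∀ (i : ℕ), ∃ y : X →L[ℂ] ℂ,
      ‖y - TopologicalSpace.denseSeq (X →L[ℂ] ℂ) i‖ ≤ 1 / 4 ∧ EE T.op y ≠ ⊥}
      = ⋂ i : ℕ, {T : Contr X | ∃ y : X →L[ℂ] ℂ,
      ‖y - TopologicalSpace.denseSeq (X →L[ℂ] ℂ) i‖ ≤ 1 / 4 ∧ EE T.op y ≠ ⊥} := by
      ext T
      simp
    rw [this, countable_iInter_mem]
    intro i
    exact typ_y hpq hX _ _ (by norm_num)
  filter_upwards [h1, h2] with T hT1 hT2
  constructor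
  · intro x ε hε
    obtain ⟨i, hi⟩ := (TopologicalSpace.denseRange_denseSeq X).exists_dist_lt x
      (show (0:ℝ) < ε / 2 by positivity)
    obtain ⟨j, hj⟩ := exists_nat_one_div_lt (show (0:ℝ) < ε / 2 by positivity)
    obtain ⟨E, hE1, hE2, x', hx', hxx⟩ := hT1 i j
    refine ⟨E, hE1, hE2, x', hx', ?_⟩
    rw [dist_eq_norm, norm_sub_rev] at hi
    calc ‖x' - x‖ = ‖(x' - TopologicalSpace.denseSeq X i) + (TopologicalSpace.denseSeq X i - x)‖ := by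
          congr 1; abel
      _ ≤ ‖x' - TopologicalSpace.denseSeq X i‖ + ‖TopologicalSpace.denseSeq X i - x‖ :=
          norm_add_le _ _
      _ < ε := by linarith
  · intro v hv
    have hv0 : 0 < ‖v‖ := norm_pos_iff.2 hv
    obtain ⟨g, hg1, hg2⟩ := exists_dual_vector ℂ v hv0.ne'
    obtain ⟨i, hi⟩ := (TopologicalSpace.denseRange_denseSeq (X →L[ℂ] ℂ)).exists_dist_lt g
      (show (0:ℝ) < 1 / 4 by norm_num)
    obtain ⟨y, hy1, hy2⟩ := hT2 i
    refine ⟨EE T.op y, hyp_EE _ _, hy2, fun hmem => ?_⟩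
    have hyv : y v = 0 := by
      have := hmem (ContinuousLinearMap.id ℂ X) (by
        rw [ContinuousLinearMap.id_comp, ContinuousLinearMap.comp_id])
      simpa using this
    rw [dist_eq_norm, norm_sub_rev] at hi
    have h3 : ‖y - g‖ ≤ 1 / 2 := by
      calc ‖y - g‖ = ‖(y - TopologicalSpace.denseSeq (X →L[ℂ] ℂ) i)
            + (TopologicalSpace.denseSeq (X →L[ℂ] ℂ) i - g)‖ := by congr 1; abel
        _ ≤ _ := norm_add_le _ _
        _ ≤ 1 / 2 := by linarith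
    have h4 : ‖(y - g) v‖ ≤ 1 / 2 * ‖v‖ := (y - g).le_of_opNorm_le h3 v
    rw [ContinuousLinearMap.sub_apply, hyv, zero_sub, norm_neg, hg2] at h4
    have h5 : ‖((‖v‖ : ℝ) : ℂ)‖ = ‖v‖ := by simp
    have h6 : ‖v‖ ≤ 1 / 2 * ‖v‖ := by
      rw [← h5] at h4 ⊢
      simpa using h4
    linarith

end Pool.Agent.W736.TC
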