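import Pool.Agent.W736.TC.Defs

/-! Basic neighbourhoods for the strong* topology. -/

set_option autoImplicit false
open Filter Topology Polynomial

namespace Pool.Agent.W736.TC

variable {X : Type} [NormedAddCommGroup X] [NormedSpace ℂ X]

theorem pi_nbhd {ι E : Type} [NormedAddCommGroup E] (W : Set (ι → E)) (hW : IsOpen W) (f : ι → E)
    (hf : f ∈ W) : ∃ (I : Finset ι) (ε : ℝ), 0 < ε ∧ ∀ g : ι → E, (∀ i ∈ I, ‖g i - f i‖ < ε) →
      g ∈ W := by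
  classical
  obtain ⟨I, u, hu, hIu⟩ := isOpen_pi_iff.1 hW f hf
  have h1 : ∀ i : ι, ∃ ε : ℝ, 0 < ε ∧ (i ∈ I → Metric.ball (f i) ε ⊆ u i) := by
    intro i
    by_cases hi : i ∈ I
    · obtain ⟨ε, hε, h⟩ := Metric.isOpen_iff.1 (hu i hi).1 (f i) (hu i hi).2
      exact ⟨ε, hε, fun _ => h⟩
    · exact ⟨1, one_pos, fun h => absurd h hi⟩
  choose e he heb using h1
  rcases I.eq_empty_or_nonempty with rfl | hne
  · refine ⟨∅, 1, one_pos, fun g _ => hIu ?_⟩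
    simp
  · refine ⟨I, I.inf' hne e, ?_, fun g hg => hIu fun i hi => heb i hi ?_⟩
    · rw [Finset.lt_inf'_iff]
      exact fun i _ => he i
    · rw [Metric.mem_ball, dist_eq_norm]
      exact (hg i hi).trans_le (Finset.inf'_le _ hi)

theorem exists_nbhd (U : Set (Contr X)) (hU : IsOpen U) (T : Contr X) (hT : T ∈ U) :
    ∃ (F : Finset X) (G : Finset (X →L[ℂ] ℂ)) (ε : ℝ), 0 < ε ∧ ∀ T' : Contr X,
      (∀ x ∈ F, ‖T'.op x - T.op x‖ < ε) → (∀ y ∈ G, ‖y.comp T'.op - y.comp T.op‖ < ε) →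
      T' ∈ U := by
  obtain ⟨W, hW, rfl⟩ := isOpen_induced_iff.1 hU
  obtain ⟨W1, W2, hW1, hW2, h1, h2, h12⟩ := isOpen_prod_iff.1 hW _ _ hT
  obtain ⟨F, e1, he1, hF⟩ := pi_nbhd W1 hW1 _ h1
  obtain ⟨G, e2, he2, hG⟩ := pi_nbhd W2 hW2 _ h2
  refine ⟨F, G, min e1 e2, lt_min he1 he2, fun T' a1 a2 => h12 ⟨hF _ ?_, hG _ ?_⟩⟩
  · exact fun x hx => (a1 x hx).trans_le (min_le_left _ _)
  · exact fun y hy => (a2 y hy).trans_le (min_le_right _ _)

end Pool.Agent.W736.TC
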