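import Pool.Agent.W736.TC.Blk
import Pool.Agent.W736.TC.Nbhd

/-! Density of block operators. -/

set_option autoImplicit false
open Filter Topology Polynomial

namespace Pool.Agent.W736.TC

/-- `X` has block systems that almost contain given finite sets. -/
def HP (p : ℝ) (X : Type) [NormedAddCommGroup X] [NormedSpace ℂ X] : Prop :=
  ∀ (F : Finset X) (G : Finset (X →L[ℂ] ℂ)) (ε : ℝ), 0 < ε →
    ∃ (V : Type) (_ : NormedAddCommGroup V) (_ : NormedSpace ℂ V) (_ : FiniteDimensional ℂ V)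
      (J : ℕ → V →L[ℂ] X) (R : ℕ → X →L[ℂ] V) (Q : V →L[ℂ] V) (w : V),
      Blk p J R ∧ ‖Q‖ ≤ 1 ∧ Q.comp Q = Q ∧ w ≠ 0 ∧ Q w = 0 ∧
      (∀ x ∈ F, ‖x - J 0 (Q (R 0 x))‖ < ε) ∧
      (∀ y ∈ G, ‖y - y.comp ((J 0).comp (Q.comp (R 0)))‖ < ε)

variable {X : Type} [NormedAddCommGroup X] [NormedSpace ℂ X]

theorem norm_comp3 {V : Type} [NormedAddCommGroup V] [NormedSpace ℂ V] {p : ℝ} (hp : 0 < p)
    {J : ℕ → V →L[ℂ] X} {R : ℕ → X →L[ℂ] V} (h : Blk p J R) (A : V →L[ℂ] V) (x : X) :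
    ‖J 0 (A (R 0 x))‖ ≤ ‖A‖ * ‖x‖ := by
  calc ‖J 0 (A (R 0 x))‖ ≤ ‖A (R 0 x)‖ := h.J_le hp 0 _
    _ ≤ ‖A‖ * ‖R 0 x‖ := A.le_opNorm _
    _ ≤ ‖A‖ * ‖x‖ := by gcongr; exact h.R_le hp 0 x

theorem approx {p : ℝ} (hp : 0 < p) (hX : HP p X) (U : Set (Contr X)) (hU : IsOpen U)
    (T : Contr X) (hT : T ∈ U) (x0 : X) (y0 : X →L[ℂ] ℂ) (ε0 : ℝ) (hε0 : 0 < ε0) :
    ∃ (V : Type) (_ : NormedAddCommGroup V) (_ : NormedSpace ℂ V) (_ : FiniteDimensional ℂ V)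
      (J : ℕ → V →L[ℂ] X) (R : ℕ → X →L[ℂ] V) (Q : V →L[ℂ] V) (t : V →L[ℂ] V) (Λ : Finset ℂ),
      Blk p J R ∧ ‖Q‖ ≤ 1 ∧ ‖t‖ < 1 ∧ Diag t Λ ∧ (0:ℂ) ∈ Λ ∧
      (∀ s : Finset ℕ, 0 ∈ s → ∃ h, mkC (bOp J R s t) h ∈ U) ∧
      ‖x0 - J 0 (Q (R 0 x0))‖ < ε0 ∧
      ‖y0 - y0.comp ((J 0).comp (Q.comp (R 0)))‖ < ε0 := by
  classical
  obtain ⟨F, G, ε, hε, hFG⟩ := exists_nbhd U hU T hT
  set M : ℝ := ∑ x ∈ F, ‖x‖ + ∑ y ∈ G, ‖y‖ with hM
  have hM0 : 0 ≤ M := by positivity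
  have hMF : ∀ x ∈ F, ‖x‖ ≤ M := by
    intro x hx
    have h1 : ‖x‖ ≤ ∑ x ∈ F, ‖x‖ := Finset.single_le_sum (fun z _ => norm_nonneg z) hx
    have h2 : 0 ≤ ∑ y ∈ G, ‖y‖ := Finset.sum_nonneg fun y _ => norm_nonneg y
    linarith
  have hMG : ∀ y ∈ G, ‖y‖ ≤ M := by
    intro y hy
    have h1 : ‖y‖ ≤ ∑ y ∈ G, ‖y‖ := Finset.single_le_sum (f := fun y : X →L[ℂ] ℂ => ‖y‖)
      (fun z _ => norm_nonneg z) hy
    have h2 : 0 ≤ ∑ x ∈ F, ‖x‖ := Finset.sum_nonneg fun y _ => norm_nonneg y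
    linarith
  set δ : ℝ := min (1 / 2) (ε / (8 * (M + 1))) with hδ
  have hδ0 : 0 < δ := lt_min (by norm_num) (by positivity)
  have hδ1 : δ ≤ 1 / 2 := min_le_left _ _
  have hδM : ∀ a : ℝ, 0 ≤ a → a ≤ M → δ * a ≤ ε / 8 := by
    intro a ha haM
    calc δ * a ≤ (ε / (8 * (M + 1))) * (M + 1) := by
          gcongr
          · exact min_le_right _ _
          · linarith
      _ = ε / 8 := by field_simp
  set ε' : ℝ := min (ε / 8) ε0 with hε'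
  have hε'0 : 0 < ε' := lt_min (by positivity) hε0
  have hε'8 : ε' ≤ ε / 8 := min_le_left _ _
  obtain ⟨V, i1, i2, i3, J, R, Q, w, hB, hQ1, hQQ, hw, hQw, hF', hG'⟩ :=
    hX (F ∪ F.image (fun x => T.op x) ∪ {x0})
      (G ∪ G.image (fun y => y.comp T.op) ∪ {y0}) ε' hε'0
  have hFx : ∀ x ∈ F, ‖x - J 0 (Q (R 0 x))‖ < ε' := fun x hx => hF' x (by simp [hx])
  have hFTx : ∀ x ∈ F, ‖T.op x - J 0 (Q (R 0 (T.op x)))‖ < ε' := fun x hx => hF' _ (by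
    simp only [Finset.mem_union, Finset.mem_image, Finset.mem_singleton]
    exact Or.inl (Or.inr ⟨x, hx, rfl⟩))
  have hGy : ∀ y ∈ G, ‖y - y.comp ((J 0).comp (Q.comp (R 0)))‖ < ε' :=
    fun y hy => hG' y (by simp [hy])
  have hGTy : ∀ y ∈ G, ‖y.comp T.op - (y.comp T.op).comp ((J 0).comp (Q.comp (R 0)))‖ < ε' :=
    fun y hy => hG' _ (by
      simp only [Finset.mem_union, Finset.mem_image, Finset.mem_singleton]
      exact Or.inl (Or.inr ⟨y, hy, rfl⟩))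
  set P : X →L[ℂ] X := (J 0).comp (Q.comp (R 0)) with hP
  have hPx : ∀ x, P x = J 0 (Q (R 0 x)) := fun x => rfl
  have hPle : ∀ x, ‖P x‖ ≤ ‖x‖ := by
    intro x
    calc ‖P x‖ ≤ ‖Q‖ * ‖x‖ := norm_comp3 hp hB Q x
      _ ≤ 1 * ‖x‖ := by gcongr
      _ = ‖x‖ := one_mul _
  have hPn : ‖P‖ ≤ 1 := P.opNorm_le_bound zero_le_one fun x => by rw [one_mul]; exact hPle x
  -- the operator `t0`
  set t1 : V →L[ℂ] V := Q.comp ((R 0).comp (T.op.comp ((J 0).comp Q))) with ht1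
  have ht1n : ‖t1‖ ≤ 1 := by
    apply t1.opNorm_le_bound zero_le_one
    intro v
    have e : t1 v = Q (R 0 (T.op (J 0 (Q v)))) := rfl
    rw [e, one_mul]
    calc _ ≤ ‖Q‖ * ‖R 0 (T.op (J 0 (Q v)))‖ := Q.le_opNorm _
      _ ≤ 1 * ‖R 0 (T.op (J 0 (Q v)))‖ := by gcongr
      _ ≤ 1 * ‖T.op (J 0 (Q v))‖ := by gcongr; exact hB.R_le hp 0 _
      _ ≤ 1 * ‖J 0 (Q v)‖ := by gcongr; exact T.app_le _
      _ ≤ 1 * ‖Q v‖ := by gcongr; exact hB.J_le hp 0 _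
      _ ≤ 1 * (‖Q‖ * ‖v‖) := by gcongr; exact Q.le_opNorm _
      _ ≤ 1 * (1 * ‖v‖) := by gcongr
      _ = ‖v‖ := by ring
  set t0 : V →L[ℂ] V := ((1 - δ : ℝ) : ℂ) • t1 with ht0
  have ht0n : ‖t0‖ ≤ 1 - δ := by
    rw [ht0, norm_smul, Complex.norm_real, Real.norm_of_nonneg (by linarith)]
    calc (1 - δ) * ‖t1‖ ≤ (1 - δ) * 1 := by gcongr; linarith
      _ = 1 - δ := mul_one _
  have ht0w : t0 w = 0 := by
    have e : t0 w = ((1 - δ : ℝ) : ℂ) • Q (R 0 (T.op (J 0 (Q w)))) := rfl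
    rw [e, hQw]
    simp
  obtain ⟨t, Λ, ht, hd, h0Λ⟩ := LA0 t0 w hw ht0w (δ / 2) (by positivity)
  have htn : ‖t‖ < 1 := by
    have : ‖t‖ ≤ ‖t - t0‖ + ‖t0‖ := by
      calc ‖t‖ = ‖(t - t0) + t0‖ := by rw [sub_add_cancel]
        _ ≤ _ := norm_add_le _ _
    linarith
  -- comparison
  have key : ∀ A : V →L[ℂ] V, ∀ x, J 0 (A (Q (R 0 x))) = J 0 ((A.comp Q) (R 0 x)) :=
    fun A x => rfl
  have hPTP : ∀ x, J 0 (t0 (Q (R 0 x))) = ((1 - δ : ℝ) : ℂ) • P (T.op (P x)) := by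
    intro x
    have e : t0 (Q (R 0 x)) = ((1 - δ : ℝ) : ℂ) • Q (R 0 (T.op (J 0 (Q (Q (R 0 x)))))) := rfl
    have e2 : Q (Q (R 0 x)) = Q (R 0 x) := congrArg (fun B : V →L[ℂ] V => B (R 0 x)) hQQ
    rw [e, e2, map_smul]
    rfl
  have hPTP' : ∀ x, J 0 (Q (t0 (R 0 x))) = ((1 - δ : ℝ) : ℂ) • P (T.op (P x)) := by
    intro x
    have e : t0 (R 0 x) = ((1 - δ : ℝ) : ℂ) • Q (R 0 (T.op (J 0 (Q (R 0 x))))) := rfl
    have e2 : ∀ v, Q (Q v) = Q v := fun v => congrArg (fun B : V →L[ℂ] V => B v) hQQ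
    rw [e, map_smul, map_smul, e2]
    rfl
  have hts : ∀ x : X, ‖x‖ ≤ M → ‖t - t0‖ * ‖x‖ ≤ ε / 8 := by
    intro x hx
    calc ‖t - t0‖ * ‖x‖ ≤ δ * ‖x‖ := by gcongr; linarith
      _ ≤ ε / 8 := hδM _ (norm_nonneg _) hx
  refine ⟨V, i1, i2, i3, J, R, Q, t, Λ, hB, hQ1, htn, hd, h0Λ, fun s hs => ?_, ?_, ?_⟩
  · refine ⟨(hB.bOp_le hp s t).trans htn.le, hFG _ (fun x hx => ?_) (fun y hy => ?_)⟩
    · rw [mkC_op]
      have hxM := hMF x hx
      have e1 : bOp J R s t x - T.op x = bOp J R s t (x - P x)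
          + (J 0 ((t - t0) (Q (R 0 x))))
          + ((P (T.op (P x - x))) - (T.op x - P (T.op x)) - (δ : ℂ) • P (T.op (P x))) := by
        have a1 : bOp J R s t (P x) = J 0 (t (Q (R 0 x))) := by
          rw [hPx, hB.bOp_J s t 0 hs]
        have a2 : J 0 ((t - t0) (Q (R 0 x))) = J 0 (t (Q (R 0 x))) - J 0 (t0 (Q (R 0 x))) := by
          rw [sub_apply, map_sub]
        rw [map_sub, a1, a2, hPTP, map_sub, map_sub]
        push_cast
        rw [sub_smul, one_smul]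
        abel
      have b1 : ‖bOp J R s t (x - P x)‖ ≤ ε / 8 := by
        calc _ ≤ ‖t‖ * ‖x - P x‖ := hB.bOp_app_le hp s t _
          _ ≤ 1 * ε' := by
              gcongr
              exact (hFx x hx).le
          _ ≤ ε / 8 := by linarith
      have b2 : ‖J 0 ((t - t0) (Q (R 0 x)))‖ ≤ ε / 8 := by
        calc _ ≤ ‖(t - t0) (Q (R 0 x))‖ := hB.J_le hp 0 _
          _ ≤ ‖t - t0‖ * ‖Q (R 0 x)‖ := (t - t0).le_opNorm _
          _ ≤ ‖t - t0‖ * ‖x‖ := by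
              gcongr
              calc ‖Q (R 0 x)‖ ≤ ‖Q‖ * ‖R 0 x‖ := Q.le_opNorm _
                _ ≤ 1 * ‖x‖ := by gcongr; exact hB.R_le hp 0 x
                _ = ‖x‖ := one_mul _
          _ ≤ ε / 8 := hts x hxM
      have b3 : ‖P (T.op (P x - x))‖ ≤ ε / 8 := by
        calc _ ≤ ‖T.op (P x - x)‖ := hPle _
          _ ≤ ‖P x - x‖ := T.app_le _
          _ = ‖x - P x‖ := norm_sub_rev _ _
          _ ≤ ε' := (hFx x hx).le
          _ ≤ ε / 8 := hε'8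
      have b4 : ‖T.op x - P (T.op x)‖ ≤ ε / 8 := (hFTx x hx).le.trans hε'8
      have b5 : ‖(δ : ℂ) • P (T.op (P x))‖ ≤ ε / 8 := by
        rw [norm_smul, Complex.norm_real, Real.norm_of_nonneg hδ0.le]
        calc δ * ‖P (T.op (P x))‖ ≤ δ * ‖x‖ := by
              gcongr
              exact (hPle _).trans ((T.app_le _).trans (hPle _))
          _ ≤ ε / 8 := hδM _ (norm_nonneg _) hxM
      rw [e1]
      calc _ ≤ ‖bOp J R s t (x - P x)‖ + ‖J 0 ((t - t0) (Q (R 0 x)))‖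
            + (‖P (T.op (P x - x))‖ + ‖T.op x - P (T.op x)‖ + ‖(δ : ℂ) • P (T.op (P x))‖) := by
            refine (norm_add_le _ _).trans (add_le_add (norm_add_le _ _) ?_)
            exact (norm_sub_le _ _).trans (add_le_add (norm_sub_le _ _) le_rfl)
        _ ≤ ε / 8 + ε / 8 + (ε / 8 + ε / 8 + ε / 8) := by gcongr
        _ < ε := by linarith
    · rw [mkC_op]
      have hyM := hMG y hy
      refine lt_of_le_of_lt (b := 5 * (ε / 8)) ?_ (by linarith)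
      apply ContinuousLinearMap.opNorm_le_bound _ (by positivity)
      intro x
      have e1 : (y.comp (bOp J R s t) - y.comp T.op) x
          = (y - y.comp P) (bOp J R s t x) + y (J 0 (Q ((t - t0) (R 0 x))))
            + ((-((y - y.comp P) (T.op (P x)))) - ((y.comp T.op - (y.comp T.op).comp P) x)
              - (δ : ℂ) * y (P (T.op (P x)))) := by
        have a1 : P (bOp J R s t x) = J 0 (Q (t (R 0 x))) := by
          rw [hPx, hB.R_bOp, if_pos hs]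
        have a2 : J 0 (Q ((t - t0) (R 0 x))) = J 0 (Q (t (R 0 x))) - J 0 (Q (t0 (R 0 x))) := by
          rw [sub_apply, map_sub, map_sub]
        rw [a2]
        simp only [sub_apply, ContinuousLinearMap.comp_apply]
        rw [a1, hPTP', map_sub, map_smul]
        push_cast
        rw [smul_eq_mul]
        ring
      have b1 : ‖(y - y.comp P) (bOp J R s t x)‖ ≤ ε / 8 * ‖x‖ := by
        calc _ ≤ ‖y - y.comp P‖ * ‖bOp J R s t x‖ := ContinuousLinearMap.le_opNorm _ _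
          _ ≤ ε' * (‖t‖ * ‖x‖) := by
              gcongr
              · exact (hGy y hy).le
              · exact hB.bOp_app_le hp s t x
          _ ≤ ε / 8 * (1 * ‖x‖) := by gcongr
          _ = ε / 8 * ‖x‖ := by ring
      have b2 : ‖y (J 0 (Q ((t - t0) (R 0 x))))‖ ≤ ε / 8 * ‖x‖ := by
        calc _ ≤ ‖y‖ * ‖J 0 (Q ((t - t0) (R 0 x)))‖ := y.le_opNorm _
          _ ≤ M * (1 * (‖t - t0‖ * ‖x‖)) := by
              gcongr
              calc _ ≤ ‖Q ((t - t0) (R 0 x))‖ := hB.J_le hp 0 _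
                _ ≤ ‖Q‖ * ‖(t - t0) (R 0 x)‖ := Q.le_opNorm _
                _ ≤ 1 * (‖t - t0‖ * ‖R 0 x‖) := by gcongr; exact (t - t0).le_opNorm _
                _ ≤ 1 * (‖t - t0‖ * ‖x‖) := by gcongr; exact hB.R_le hp 0 x
          _ ≤ M * (1 * (δ * ‖x‖)) := by gcongr; linarith
          _ = (δ * M) * ‖x‖ := by ring
          _ ≤ ε / 8 * ‖x‖ := by gcongr; exact hδM M hM0 le_rfl
      have b3 : ‖(y - y.comp P) (T.op (P x))‖ ≤ ε / 8 * ‖x‖ := by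
        calc _ ≤ ‖y - y.comp P‖ * ‖T.op (P x)‖ := ContinuousLinearMap.le_opNorm _ _
          _ ≤ ε' * ‖x‖ := by
              gcongr
              · exact (hGy y hy).le
              · exact (T.app_le _).trans (hPle _)
          _ ≤ ε / 8 * ‖x‖ := by gcongr
      have b4 : ‖(y.comp T.op - (y.comp T.op).comp P) x‖ ≤ ε / 8 * ‖x‖ := by
        calc _ ≤ ‖y.comp T.op - (y.comp T.op).comp P‖ * ‖x‖ := ContinuousLinearMap.le_opNorm _ _
          _ ≤ ε' * ‖x‖ := by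
              gcongr
              exact (hGTy y hy).le
          _ ≤ ε / 8 * ‖x‖ := by gcongr
      have b5 : ‖(δ : ℂ) * y (P (T.op (P x)))‖ ≤ ε / 8 * ‖x‖ := by
        rw [norm_mul, Complex.norm_real, Real.norm_of_nonneg hδ0.le]
        calc δ * ‖y (P (T.op (P x)))‖ ≤ δ * (M * ‖x‖) := by
              gcongr
              calc _ ≤ ‖y‖ * ‖P (T.op (P x))‖ := y.le_opNorm _
                _ ≤ M * ‖x‖ := by
                    gcongr
                    exact (hPle _).trans ((T.app_le _).trans (hPle _))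
          _ = (δ * M) * ‖x‖ := by ring
          _ ≤ ε / 8 * ‖x‖ := by gcongr; exact hδM M hM0 le_rfl
      rw [e1]
      calc _ ≤ ‖(y - y.comp P) (bOp J R s t x)‖ + ‖y (J 0 (Q ((t - t0) (R 0 x))))‖
            + (‖(y - y.comp P) (T.op (P x))‖ + ‖(y.comp T.op - (y.comp T.op).comp P) x‖
              + ‖(δ : ℂ) * y (P (T.op (P x)))‖) := by
            refine (norm_add_le _ _).trans (add_le_add (norm_add_le _ _) ?_)
            refine (norm_sub_le _ _).trans (add_le_add ((norm_sub_le _ _).trans ?_) le_rfl)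
            rw [norm_neg]
        _ ≤ ε / 8 * ‖x‖ + ε / 8 * ‖x‖ + (ε / 8 * ‖x‖ + ε / 8 * ‖x‖ + ε / 8 * ‖x‖) := by gcongr
        _ = 5 * (ε / 8) * ‖x‖ := by ring
  · exact (hF' x0 (by simp)).trans_le (min_le_right _ _)
  · exact (hG' y0 (by simp)).trans_le (min_le_right _ _)

/-- small perturbations stay in an open set -/
theorem perturb (U : Set (Contr X)) (hU : IsOpen U) (T : Contr X) (hT : T ∈ U)
    (hT1 : ‖T.op‖ < 1) (N : X →L[ℂ] X) :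
    ∃ (κ : ℝ), 0 < κ ∧ ∃ h, mkC (T.op + (κ : ℂ) • N) h ∈ U := by
  obtain ⟨F, G, ε, hε, hFG⟩ := exists_nbhd U hU T hT
  set M : ℝ := ∑ x ∈ F, ‖x‖ + ∑ y ∈ G, ‖y‖ with hM
  have hM0 : 0 ≤ M := by positivity
  have hMF : ∀ x ∈ F, ‖x‖ ≤ M := by
    intro x hx
    have h1 : ‖x‖ ≤ ∑ x ∈ F, ‖x‖ := Finset.single_le_sum (fun z _ => norm_nonneg z) hx
    have h2 : 0 ≤ ∑ y ∈ G, ‖y‖ := Finset.sum_nonneg fun y _ => norm_nonneg y
    linarith
  have hMG : ∀ y ∈ G, ‖y‖ ≤ M := by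
    intro y hy
    have h1 : ‖y‖ ≤ ∑ y ∈ G, ‖y‖ := Finset.single_le_sum (f := fun y : X →L[ℂ] ℂ => ‖y‖)
      (fun z _ => norm_nonneg z) hy
    have h2 : 0 ≤ ∑ x ∈ F, ‖x‖ := Finset.sum_nonneg fun y _ => norm_nonneg y
    linarith
  set κ : ℝ := min ((1 - ‖T.op‖) / (‖N‖ + 1)) (ε / (2 * ((‖N‖ + 1) * (M + 1)))) with hκ
  have h1 : 0 < 1 - ‖T.op‖ := by linarith
  have hκ0 : 0 < κ := lt_min (by positivity) (by positivity)
  have hκN : ‖(κ : ℂ) • N‖ ≤ κ * (‖N‖ + 1) := by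
    rw [norm_smul, Complex.norm_real, Real.norm_of_nonneg hκ0.le]
    gcongr
    linarith
  have h2 : κ * (‖N‖ + 1) ≤ 1 - ‖T.op‖ := by
    calc κ * (‖N‖ + 1) ≤ ((1 - ‖T.op‖) / (‖N‖ + 1)) * (‖N‖ + 1) := by
          gcongr
          exact min_le_left _ _
      _ = _ := by field_simp
  have h3 : ∀ a : ℝ, a ≤ M → κ * (‖N‖ + 1) * a < ε := by
    intro a ha
    calc κ * (‖N‖ + 1) * a ≤ κ * (‖N‖ + 1) * (M + 1) := by
          gcongr
          linarith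
      _ ≤ (ε / (2 * ((‖N‖ + 1) * (M + 1)))) * (‖N‖ + 1) * (M + 1) := by
          gcongr
          exact min_le_right _ _
      _ = ε / 2 := by field_simp
      _ < ε := by linarith
  refine ⟨κ, hκ0, ?_, hFG _ (fun x hx => ?_) (fun y hy => ?_)⟩
  · calc ‖T.op + (κ : ℂ) • N‖ ≤ ‖T.op‖ + ‖(κ : ℂ) • N‖ := norm_add_le _ _
      _ ≤ ‖T.op‖ + (1 - ‖T.op‖) := by gcongr; exact hκN.trans h2
      _ = 1 := by ring
  · rw [mkC_op, add_apply, add_sub_cancel_left]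
    calc ‖((κ : ℂ) • N) x‖ ≤ ‖(κ : ℂ) • N‖ * ‖x‖ := ContinuousLinearMap.le_opNorm _ _
      _ ≤ κ * (‖N‖ + 1) * ‖x‖ := by gcongr
      _ < ε := h3 _ (hMF x hx)
  · rw [mkC_op, ContinuousLinearMap.comp_add, add_sub_cancel_left]
    calc ‖y.comp ((κ : ℂ) • N)‖ ≤ ‖y‖ * ‖(κ : ℂ) • N‖ := y.opNorm_comp_le _
      _ ≤ ‖y‖ * (κ * (‖N‖ + 1)) := by gcongr
      _ = κ * (‖N‖ + 1) * ‖y‖ := by ring
      _ < ε := h3 _ (hMG y hy)

end Pool.Agent.W736.TC
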