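import Pool.Agent.W736.TC.Poly

/-! Systems of blocks. -/

set_option autoImplicit false
open Filter Topology Polynomial

namespace Pool.Agent.W736.TC

/-- `J k` are copies of `V` in `X`, `R k` the coordinate maps; `p`-estimates. -/
structure Blk (p : ℝ) {V X : Type} [NormedAddCommGroup V] [NormedSpace ℂ V]
    [NormedAddCommGroup X] [NormedSpace ℂ X] (J : ℕ → V →L[ℂ] X) (R : ℕ → X →L[ℂ] V) : Prop where
  rj : ∀ k v, R k (J k v) = v
  rj' : ∀ k l, k ≠ l → ∀ v, R k (J l v) = 0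
  up : ∀ (s : Finset ℕ) (v : ℕ → V), ‖∑ k ∈ s, J k (v k)‖ ^ p ≤ ∑ k ∈ s, ‖v k‖ ^ p
  low : ∀ (s : Finset ℕ) (x : X), ∑ k ∈ s, ‖R k x‖ ^ p ≤ ‖x‖ ^ p

variable {V X : Type} [NormedAddCommGroup V] [NormedSpace ℂ V]
    [NormedAddCommGroup X] [NormedSpace ℂ X]

/-- `t` on the blocks of `s`, zero elsewhere -/
noncomputable def bOp (J : ℕ → V →L[ℂ] X) (R : ℕ → X →L[ℂ] V) (s : Finset ℕ) (t : V →L[ℂ] V) :
    X →L[ℂ] X := ∑ k ∈ s, (J k).comp (t.comp (R k))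

theorem bOp_apply (J : ℕ → V →L[ℂ] X) (R : ℕ → X →L[ℂ] V) (s : Finset ℕ) (t : V →L[ℂ] V)
    (x : X) : bOp J R s t x = ∑ k ∈ s, J k (t (R k x)) := by
  simp [bOp]

theorem bOp_add (J : ℕ → V →L[ℂ] X) (R : ℕ → X →L[ℂ] V) (s : Finset ℕ) (t t' : V →L[ℂ] V) :
    bOp J R s (t + t') = bOp J R s t + bOp J R s t' := by
  ext x
  simp [bOp_apply, Finset.sum_add_distrib]

theorem bOp_smul (J : ℕ → V →L[ℂ] X) (R : ℕ → X →L[ℂ] V) (s : Finset ℕ) (a : ℂ)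
    (t : V →L[ℂ] V) : bOp J R s (a • t) = a • bOp J R s t := by
  ext x
  simp [bOp_apply, Finset.smul_sum]

variable {p : ℝ} {J : ℕ → V →L[ℂ] X} {R : ℕ → X →L[ℂ] V}

namespace Blk

theorem J_le (h : Blk p J R) (hp : 0 < p) (k : ℕ) (v : V) : ‖J k v‖ ≤ ‖v‖ := by
  have := h.up {k} (fun _ => v)
  simp only [Finset.sum_singleton] at this
  exact (Real.rpow_le_rpow_iff (norm_nonneg _) (norm_nonneg _) hp).1 this

theorem R_le (h : Blk p J R) (hp : 0 < p) (k : ℕ) (x : X) : ‖R k x‖ ≤ ‖x‖ := by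
  have := h.low {k} x
  simp only [Finset.sum_singleton] at this
  exact (Real.rpow_le_rpow_iff (norm_nonneg _) (norm_nonneg _) hp).1 this

theorem bOp_app_le (h : Blk p J R) (hp : 0 < p) (s : Finset ℕ) (t : V →L[ℂ] V) (x : X) :
    ‖bOp J R s t x‖ ≤ ‖t‖ * ‖x‖ := by
  apply (Real.rpow_le_rpow_iff (norm_nonneg _) (by positivity) hp).1
  rw [bOp_apply]
  calc _ ≤ ∑ k ∈ s, ‖t (R k x)‖ ^ p := h.up s _
    _ ≤ ∑ k ∈ s, ‖t‖ ^ p * ‖R k x‖ ^ p := by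
        refine Finset.sum_le_sum fun k _ => ?_
        rw [← Real.mul_rpow (norm_nonneg _) (norm_nonneg _)]
        exact Real.rpow_le_rpow (norm_nonneg _) (t.le_opNorm _) hp.le
    _ = ‖t‖ ^ p * ∑ k ∈ s, ‖R k x‖ ^ p := by rw [Finset.mul_sum]
    _ ≤ ‖t‖ ^ p * ‖x‖ ^ p := by
        gcongr
        exact h.low s x
    _ = (‖t‖ * ‖x‖) ^ p := (Real.mul_rpow (norm_nonneg _) (norm_nonneg _)).symm

theorem bOp_le (h : Blk p J R) (hp : 0 < p) (s : Finset ℕ) (t : V →L[ℂ] V) :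
    ‖bOp J R s t‖ ≤ ‖t‖ :=
  ContinuousLinearMap.opNorm_le_bound _ (norm_nonneg _) fun x => h.bOp_app_le hp s t x

theorem R_bOp (h : Blk p J R) (s : Finset ℕ) (t : V →L[ℂ] V) (l : ℕ) (x : X) :
    R l (bOp J R s t x) = if l ∈ s then t (R l x) else 0 := by
  rw [bOp_apply, map_sum]
  split_ifs with hl
  · rw [Finset.sum_eq_single l]
    · exact h.rj l _
    · intro k _ hk
      exact h.rj' l k (Ne.symm hk) _
    · intro hh
      exact absurd hl hh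
  · refine Finset.sum_eq_zero fun k hk => h.rj' l k ?_ _
    rintro rfl
    exact hl hk

theorem bOp_J (h : Blk p J R) (s : Finset ℕ) (t : V →L[ℂ] V) (l : ℕ) (hl : l ∈ s) (v : V) :
    bOp J R s t (J l v) = J l (t v) := by
  rw [bOp_apply, Finset.sum_eq_single l]
  · rw [h.rj]
  · intro k _ hk
    rw [h.rj' k l hk, map_zero, map_zero]
  · intro hh
    exact absurd hl hh

theorem bOp_mul (h : Blk p J R) (s : Finset ℕ) (t t' : V →L[ℂ] V) :
    bOp J R s t * bOp J R s t' = bOp J R s (t * t') := by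
  ext x
  show bOp J R s t (bOp J R s t' x) = _
  rw [bOp_apply J R s t, bOp_apply J R s (t * t')]
  refine Finset.sum_congr rfl fun k hk => ?_
  rw [h.R_bOp, if_pos hk]
  rfl

theorem bOp_pow (h : Blk p J R) (s : Finset ℕ) (t : V →L[ℂ] V) (n : ℕ) :
    (bOp J R s t) ^ (n + 1) = bOp J R s (t ^ (n + 1)) := by
  induction n with
  | zero => simp
  | succ n ih => rw [pow_succ, ih, h.bOp_mul, ← pow_succ]

theorem aeval_bOp (h : Blk p J R) (s : Finset ℕ) (t : V →L[ℂ] V) (q : ℂ[X]) :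
    aeval (bOp J R s t) q = q.eval 0 • (1 - bOp J R s 1) + bOp J R s (aeval t q) := by
  induction q using Polynomial.induction_on' with
  | add q r hq hr =>
    rw [map_add, map_add, hq, hr, eval_add, add_smul, bOp_add]
    abel
  | monomial n a =>
    rw [aeval_monomial, aeval_monomial, eval_monomial, ← Algebra.smul_def, ← Algebra.smul_def,
      bOp_smul]
    cases n with
    | zero =>
      rw [pow_zero, pow_zero, pow_zero, mul_one, smul_sub]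
      abel
    | succ n =>
      rw [h.bOp_pow, zero_pow (Nat.succ_ne_zero n), mul_zero, zero_smul, zero_add]

theorem aeval_J (h : Blk p J R) (s : Finset ℕ) (t : V →L[ℂ] V) (q : ℂ[X]) (l : ℕ) (hl : l ∈ s)
    (v : V) : (aeval (bOp J R s t) q) (J l v) = J l ((aeval t q) v) := by
  rw [h.aeval_bOp, add_apply, smul_apply, sub_apply, h.bOp_J s 1 l hl, h.bOp_J s _ l hl]
  simp

theorem annih (h : Blk p J R) (s : Finset ℕ) (t : V →L[ℂ] V) (Λ : Finset ℂ) (h0 : (0:ℂ) ∈ Λ)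
    (ht : aeval t (mu Λ) = 0) : aeval (bOp J R s t) (mu Λ) = 0 := by
  rw [h.aeval_bOp, ht]
  have : (mu Λ).eval 0 = 0 := by
    rw [mu, eval_prod]
    exact Finset.prod_eq_zero h0 (by simp)
  rw [this, zero_smul, zero_add]
  ext x
  simp [bOp_apply]

theorem aeval_le (h : Blk p J R) (hp : 0 < p) (s : Finset ℕ) (t : V →L[ℂ] V) (w : V)
    (hw : w ≠ 0) (htw : t w = 0) (q : ℂ[X]) : ‖aeval (bOp J R s t) q‖ ≤ 3 * ‖aeval t q‖ := by
  have h1 : ‖q.eval 0‖ ≤ ‖aeval t q‖ := by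
    have h2 : (aeval t q) w = q.eval 0 • w := aeval_eig t w 0 (by rw [htw, zero_smul]) q
    have h3 := (aeval t q).le_opNorm w
    rw [h2, norm_smul] at h3
    exact le_of_mul_le_mul_right h3 (norm_pos_iff.2 hw)
  have hV : ‖(1 : V →L[ℂ] V)‖ ≤ 1 := ContinuousLinearMap.norm_id_le
  have hX : ‖(1 : X →L[ℂ] X)‖ ≤ 1 := ContinuousLinearMap.norm_id_le
  have h4 : ‖(1 : X →L[ℂ] X) - bOp J R s 1‖ ≤ 2 := by
    calc _ ≤ ‖(1 : X →L[ℂ] X)‖ + ‖bOp J R s (1 : V →L[ℂ] V)‖ := norm_sub_le _ _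
      _ ≤ 1 + 1 := add_le_add hX ((h.bOp_le hp s 1).trans hV)
      _ = 2 := by norm_num
  rw [h.aeval_bOp]
  calc _ ≤ ‖q.eval 0 • ((1 : X →L[ℂ] X) - bOp J R s 1)‖ + ‖bOp J R s (aeval t q)‖ :=
        norm_add_le _ _
    _ ≤ ‖aeval t q‖ * 2 + ‖aeval t q‖ := by
        rw [norm_smul]
        gcongr
        exact h.bOp_le hp s _
    _ = 3 * ‖aeval t q‖ := by ring

/-- sums over far blocks -/
theorem sumJ_le (h : Blk p J R) (hp : 0 < p) (s : Finset ℕ) (v : ℕ → V) (c : ℝ) (hc : 0 ≤ c)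
    (hv : ∑ k ∈ s, ‖v k‖ ^ p ≤ c) : ‖∑ k ∈ s, J k (v k)‖ ≤ c ^ (1 / p) := by
  apply (Real.rpow_le_rpow_iff (norm_nonneg _) (by positivity) hp).1
  rw [← Real.rpow_mul hc, one_div, inv_mul_cancel₀ hp.ne', Real.rpow_one]
  exact (h.up s v).trans hv

theorem sumR_le (h : Blk p J R) {q : ℝ} (hpq : p.HolderConjugate q) (s : Finset ℕ)
    (v : ℕ → (V →L[ℂ] ℂ)) (c : ℝ) (hc : 0 ≤ c) (hv : ∑ k ∈ s, ‖v k‖ ^ q ≤ c) :
    ‖∑ k ∈ s, (v k).comp (R k)‖ ≤ c ^ (1 / q) := by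
  apply ContinuousLinearMap.opNorm_le_bound _ (by positivity)
  intro x
  rw [sum_apply]
  have h1 : ∑ k ∈ s, ‖v k‖ * ‖R k x‖ ≤
      (∑ k ∈ s, ‖v k‖ ^ q) ^ (1 / q) * (∑ k ∈ s, ‖R k x‖ ^ p) ^ (1 / p) := by
    have := Real.inner_le_Lp_mul_Lq s (fun k => ‖v k‖) (fun k => ‖R k x‖) hpq.symm
    simpa using this
  calc ‖∑ k ∈ s, ((v k).comp (R k)) x‖ ≤ ∑ k ∈ s, ‖((v k).comp (R k)) x‖ := norm_sum_le _ _
    _ ≤ ∑ k ∈ s, ‖v k‖ * ‖R k x‖ := Finset.sum_le_sum fun k _ => (v k).le_opNorm _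
    _ ≤ _ := h1
    _ ≤ c ^ (1 / q) * (‖x‖ ^ p) ^ (1 / p) := by
        have := hpq.symm.pos
        have := hpq.pos
        gcongr
        exact h.low s x
    _ = c ^ (1 / q) * ‖x‖ := by
        rw [← Real.rpow_mul (norm_nonneg _), mul_one_div, div_self hpq.pos.ne', Real.rpow_one]

end Blk

end Pool.Agent.W736.TC
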