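import Mathlib

/-! Contractions with the strong* topology; the relation `RR`. -/

set_option autoImplicit false
open Filter Topology Polynomial

namespace Pool.Agent.W736.TC

/-- The contractions of the Banach space `X`. -/
def Contr (X : Type) [NormedAddCommGroup X] [NormedSpace ℂ X] : Type :=
  {T : X →L[ℂ] X // ‖T‖ ≤ 1}

/-- The operator. -/
def Contr.op {X : Type} [NormedAddCommGroup X] [NormedSpace ℂ X] (T : Contr X) : X →L[ℂ] X := T.1

/-- The strong* topology: the coarsest topology for which all the maps `T ↦ T x` and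
`T ↦ y ∘ T` (`x` in `X`, `y` in the dual space, norm topologies) are continuous. -/
noncomputable instance {X : Type} [NormedAddCommGroup X] [NormedSpace ℂ X] :
    TopologicalSpace (Contr X) :=
  TopologicalSpace.induced
    (fun T : Contr X => ((fun x : X => T.op x), (fun y : X →L[ℂ] ℂ => y.comp T.op))) inferInstance

variable {X : Type} [NormedAddCommGroup X] [NormedSpace ℂ X]

/-- the constructor -/
def mkC (T : X →L[ℂ] X) (h : ‖T‖ ≤ 1) : Contr X := ⟨T, h⟩

@[simp] theorem mkC_op (T : X →L[ℂ] X) (h : ‖T‖ ≤ 1) : (mkC T h).op = T := rfl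

theorem Contr.norm_le (T : Contr X) : ‖T.op‖ ≤ 1 := T.2

theorem Contr.app_le (T : Contr X) (x : X) : ‖T.op x‖ ≤ ‖x‖ := by
  calc ‖T.op x‖ ≤ ‖T.op‖ * ‖x‖ := T.op.le_opNorm x
    _ ≤ 1 * ‖x‖ := by gcongr; exact T.norm_le
    _ = ‖x‖ := one_mul _

theorem Contr.comp_le (T : Contr X) (y : X →L[ℂ] ℂ) : ‖y.comp T.op‖ ≤ ‖y‖ := by
  calc ‖y.comp T.op‖ ≤ ‖y‖ * ‖T.op‖ := y.opNorm_comp_le T.op
    _ ≤ ‖y‖ * 1 := by gcongr; exact T.norm_le
    _ = ‖y‖ := mul_one _

theorem continuous_map : Continuous
    (fun T : Contr X => ((fun x : X => T.op x), (fun y : X →L[ℂ] ℂ => y.comp T.op))) :=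
  continuous_induced_dom

theorem continuous_app (x : X) : Continuous (fun T : Contr X => T.op x) :=
  (continuous_apply x).comp (continuous_fst.comp continuous_map)

theorem continuous_comp (y : X →L[ℂ] ℂ) : Continuous (fun T : Contr X => y.comp T.op) :=
  (continuous_apply y).comp (continuous_snd.comp continuous_map)

theorem continuous_app' {Z : Type} [TopologicalSpace Z] {f : Z → Contr X} {g : Z → X}
    (hf : Continuous f) (hg : Continuous g) : Continuous (fun z => (f z).op (g z)) := by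
  rw [continuous_iff_continuousAt]
  intro z0
  rw [ContinuousAt, tendsto_iff_norm_sub_tendsto_zero]
  have h1 : Tendsto (fun z => ‖g z - g z0‖ + ‖(f z).op (g z0) - (f z0).op (g z0)‖) (𝓝 z0)
      (𝓝 0) := by
    have a1 : Tendsto (fun z => ‖g z - g z0‖) (𝓝 z0) (𝓝 0) :=
      tendsto_iff_norm_sub_tendsto_zero.1 (hg.tendsto z0)
    have a2 : Tendsto (fun z => ‖(f z).op (g z0) - (f z0).op (g z0)‖) (𝓝 z0) (𝓝 0) :=
      tendsto_iff_norm_sub_tendsto_zero.1 (((continuous_app (g z0)).comp hf).tendsto z0)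
    simpa using a1.add a2
  refine squeeze_zero (fun z => norm_nonneg _) (fun z => ?_) h1
  have e : (f z).op (g z) - (f z0).op (g z0)
      = (f z).op (g z - g z0) + ((f z).op (g z0) - (f z0).op (g z0)) := by
    rw [map_sub]; abel
  rw [e]
  refine (norm_add_le _ _).trans ?_
  gcongr
  exact (f z).app_le _

theorem continuous_comp' {Z : Type} [TopologicalSpace Z] {f : Z → Contr X}
    {g : Z → (X →L[ℂ] ℂ)} (hf : Continuous f) (hg : Continuous g) :
    Continuous (fun z => (g z).comp (f z).op) := by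
  rw [continuous_iff_continuousAt]
  intro z0
  rw [ContinuousAt, tendsto_iff_norm_sub_tendsto_zero]
  have h1 : Tendsto (fun z => ‖g z - g z0‖ + ‖(g z0).comp (f z).op - (g z0).comp (f z0).op‖)
      (𝓝 z0) (𝓝 0) := by
    have a1 : Tendsto (fun z => ‖g z - g z0‖) (𝓝 z0) (𝓝 0) :=
      tendsto_iff_norm_sub_tendsto_zero.1 (hg.tendsto z0)
    have a2 : Tendsto (fun z => ‖(g z0).comp (f z).op - (g z0).comp (f z0).op‖) (𝓝 z0) (𝓝 0) :=
      tendsto_iff_norm_sub_tendsto_zero.1 (((continuous_comp (g z0)).comp hf).tendsto z0)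
    simpa using a1.add a2
  refine squeeze_zero (fun z => norm_nonneg _) (fun z => ?_) h1
  have e : (g z).comp (f z).op - (g z0).comp (f z0).op
      = (g z - g z0).comp (f z).op + ((g z0).comp (f z).op - (g z0).comp (f z0).op) := by
    ext v
    simp
  rw [e]
  refine (norm_add_le _ _).trans ?_
  gcongr
  exact (f z).comp_le _

theorem continuous_pow_app (n : ℕ) (x : X) : Continuous (fun T : Contr X => (T.op ^ n) x) := by
  induction n with
  | zero => simpa using continuous_const
  | succ n ih =>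
    have : (fun T : Contr X => (T.op ^ (n + 1)) x) = fun T : Contr X => T.op ((T.op ^ n) x) := by
      funext T
      rw [pow_succ']
      rfl
    rw [this]
    exact continuous_app' continuous_id ih

theorem continuous_comp_pow (n : ℕ) (z : X →L[ℂ] ℂ) :
    Continuous (fun T : Contr X => z.comp (T.op ^ n)) := by
  induction n with
  | zero =>
    have : (fun T : Contr X => z.comp (T.op ^ 0)) = fun _ => z := by
      funext T
      rw [pow_zero]
      rfl
    rw [this]
    exact continuous_const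
  | succ n ih =>
    have : (fun T : Contr X => z.comp (T.op ^ (n + 1)))
        = fun T : Contr X => (z.comp (T.op ^ n)).comp T.op := by
      funext T
      rw [pow_succ]
      rfl
    rw [this]
    exact continuous_comp' continuous_id ih

theorem continuous_aeval_app (b : ℂ[X]) (x : X) :
    Continuous (fun T : Contr X => (aeval T.op b) x) := by
  have : (fun T : Contr X => (aeval T.op b) x)
      = fun T : Contr X => ∑ i ∈ Finset.range (b.natDegree + 1), b.coeff i • (T.op ^ i) x := by
    funext T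
    rw [aeval_eq_sum_range]
    simp
  rw [this]
  exact continuous_finsetSum _ fun i _ => (continuous_pow_app i x).const_smul _

theorem continuous_comp_aeval (b : ℂ[X]) (z : X →L[ℂ] ℂ) :
    Continuous (fun T : Contr X => z.comp (aeval T.op b)) := by
  have : (fun T : Contr X => z.comp (aeval T.op b))
      = fun T : Contr X => ∑ i ∈ Finset.range (b.natDegree + 1),
        b.coeff i • z.comp (T.op ^ i) := by
    funext T
    rw [aeval_eq_sum_range]
    ext v
    simp
  rw [this]
  exact continuous_finsetSum _ fun i _ => (continuous_comp_pow i z).const_smul (b.coeff i)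

/-- The relation: `y` is almost `z ∘ b(T)`, and `b(T) x` is small relative to `z`. -/
def RR (ρ : ℝ) (T : X →L[ℂ] X) (x : X) (y : X →L[ℂ] ℂ) : Prop :=
  ∃ (b : ℂ[X]) (z : X →L[ℂ] ℂ), ‖y - z.comp (aeval T b)‖ < ρ ∧ ‖(aeval T b) x‖ * ‖z‖ < ρ

theorem isOpen_RR (ρ : ℝ) (x : X) (y : X →L[ℂ] ℂ) : IsOpen {T : Contr X | RR ρ T.op x y} := by
  have : {T : Contr X | RR ρ T.op x y} = ⋃ (b : ℂ[X]) (z : X →L[ℂ] ℂ),
      ({T : Contr X | ‖y - z.comp (aeval T.op b)‖ < ρ} ∩
        {T : Contr X | ‖(aeval T.op b) x‖ * ‖z‖ < ρ}) := by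
    ext T
    simp [RR]
  rw [this]
  refine isOpen_iUnion fun b => isOpen_iUnion fun z => IsOpen.inter ?_ ?_
  · exact isOpen_lt (continuous_const.sub (continuous_comp_aeval b z)).norm continuous_const
  · exact isOpen_lt ((continuous_aeval_app b x).norm.mul continuous_const) continuous_const

theorem commute_aeval {S T : X →L[ℂ] X} (h : S.comp T = T.comp S) (b : ℂ[X]) :
    S.comp (aeval T b) = (aeval T b).comp S := by
  have h1 : Commute S T := h
  have h2 : Commute S (aeval T b) := by
    induction b using Polynomial.induction_on' with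
    | add p q hp hq => rw [map_add]; exact hp.add_right hq
    | monomial n a =>
      rw [aeval_monomial]
      have h3 : Commute S (algebraMap ℂ (X →L[ℂ] X) a) := (Algebra.commutes a S).symm
      exact h3.mul_right (h1.pow_right n)
  exact h2

/-- `RR` bounds the functional `S ↦ y (S x)` on the commutant. -/
theorem RR.small {ρ : ℝ} {T : X →L[ℂ] X} {x : X} {y : X →L[ℂ] ℂ} (h : RR ρ T x y)
    (S : X →L[ℂ] X) (hS : S.comp T = T.comp S) : ‖y (S x)‖ ≤ ρ * (1 + ‖x‖) * ‖S‖ := by
  obtain ⟨b, z, h1, h2⟩ := h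
  have hρ : 0 ≤ ρ := (norm_nonneg _).trans h1.le
  have e : y (S x) = (y - z.comp (aeval T b)) (S x) + z (S ((aeval T b) x)) := by
    have h3 : (aeval T b) (S x) = S ((aeval T b) x) := by
      have := congrArg (fun A : X →L[ℂ] X => A x) (commute_aeval hS b)
      simpa using this.symm
    simp [h3]
  rw [e]
  have a1 : ‖(y - z.comp (aeval T b)) (S x)‖ ≤ ρ * (‖S‖ * ‖x‖) := by
    calc _ ≤ ‖y - z.comp (aeval T b)‖ * ‖S x‖ := ContinuousLinearMap.le_opNorm _ _
      _ ≤ ρ * (‖S‖ * ‖x‖) := by
          gcongr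
          exact S.le_opNorm x
  have a2 : ‖z (S ((aeval T b) x))‖ ≤ ρ * ‖S‖ := by
    calc _ ≤ ‖z‖ * ‖S ((aeval T b) x)‖ := z.le_opNorm _
      _ ≤ ‖z‖ * (‖S‖ * ‖(aeval T b) x‖) := by gcongr; exact S.le_opNorm _
      _ = (‖(aeval T b) x‖ * ‖z‖) * ‖S‖ := by ring
      _ ≤ ρ * ‖S‖ := by gcongr
  calc _ ≤ _ := norm_add_le _ _
    _ ≤ ρ * (‖S‖ * ‖x‖) + ρ * ‖S‖ := add_le_add a1 a2
    _ = ρ * (1 + ‖x‖) * ‖S‖ := by ring

end Pool.Agent.W736.TC
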