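import Pool.Agent.W736.TC.Poly
import Pool.Agent.W736.TC.Defs

/-! The one-step chain. -/

set_option autoImplicit false
open Filter Topology Polynomial

namespace Pool.Agent.W736.TC

variable {X : Type} [NormedAddCommGroup X] [NormedSpace ℂ X]

theorem chain (τ : X →L[ℂ] X) (Λ : Finset ℂ) (hΛ : Λ.Nonempty) (hμ : aeval τ (mu Λ) = 0)
    (x : X) (y : X →L[ℂ] ℂ) (hxy : ∀ p : ℂ[X], y ((aeval τ p) x) = 0) (ξ : ℂ → X)
    (hξ0 : ∀ l ∈ Λ, ξ l ≠ 0) (hξ : ∀ l ∈ Λ, τ (ξ l) = l • ξ l) (hy : ∀ l ∈ Λ, y (ξ l) = 0) :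
    ∃ N : X →L[ℂ] X, ∀ κ : ℝ, 0 < κ → ∀ ρ : ℝ, 0 < ρ → RR ρ (τ + (κ : ℂ) • N) x y := by
  classical
  set e : ℂ → (X →L[ℂ] X) := fun l => aeval τ (eL Λ l) with he
  set N : X →L[ℂ] X := ∑ l ∈ Λ, (y.comp (e l)).smulRight (ξ l) with hN
  have hNv : ∀ v, N v = ∑ l ∈ Λ, y (e l v) • ξ l := by
    intro v
    simp [hN]
  have heξ : ∀ l ∈ Λ, ∀ m ∈ Λ, e l (ξ m) = if l = m then ξ m else 0 := fun l hl m hm =>
    eL_eig τ Λ (ξ m) m hm (hξ m hm) l hl
  have hcomm : τ * N = N * τ := by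
    ext v
    show τ (N v) = N (τ v)
    rw [hNv, hNv, map_sum]
    refine Finset.sum_congr rfl fun l hl => ?_
    have h1 : e l (τ v) = l • e l v := by
      have := congrArg (fun B : X →L[ℂ] X => B v) (eL_mul τ Λ hμ l hl)
      simpa using this
    rw [map_smul, hξ l hl, h1, map_smul, smul_smul, smul_eq_mul, mul_comm]
  have hNξ : ∀ m ∈ Λ, N (ξ m) = 0 := by
    intro m hm
    rw [hNv]
    refine Finset.sum_eq_zero fun l hl => ?_
    rw [heξ l hl m hm]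
    split_ifs
    · rw [hy m hm, zero_smul]
    · rw [map_zero, zero_smul]
  have hNN : N * N = 0 := by
    ext v
    show N (N v) = 0
    rw [hNv v, map_sum]
    refine Finset.sum_eq_zero fun l hl => ?_
    rw [map_smul, hNξ l hl, smul_zero]
  have hNx : N x = 0 := by
    rw [hNv]
    refine Finset.sum_eq_zero fun l hl => ?_
    rw [hxy, zero_smul]
  refine ⟨N, fun κ hκ ρ hρ => ?_⟩
  have hκ' : (κ : ℂ) ≠ 0 := by exact_mod_cast hκ.ne'
  have hmu : aeval (τ + (κ : ℂ) • N) (mu Λ) = (κ : ℂ) • (aeval τ (derivative (mu Λ)) * N) := by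
    rw [aeval_add_nil τ ((κ : ℂ) • N) (by rw [mul_smul_comm, smul_mul_assoc, hcomm])
      (by rw [smul_mul_smul_comm, hNN, smul_zero]), hμ, zero_add, mul_smul_comm]
  have hf : ∀ l : ℂ, ∃ f : X →L[ℂ] ℂ, l ∈ Λ → f (ξ l) = 1 := by
    intro l
    by_cases hl : l ∈ Λ
    · obtain ⟨f, hf⟩ := exists_f (ξ l) (hξ0 l hl)
      exact ⟨f, fun _ => hf⟩
    · exact ⟨0, fun h => absurd h hl⟩
  choose f hf using hf
  set z : X →L[ℂ] ℂ := ∑ l ∈ Λ, ((κ : ℂ) * (derivative (mu Λ)).eval l)⁻¹ • (f l).comp (e l)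
    with hz
  have hzξ : ∀ m ∈ Λ, z (ξ m) = ((κ : ℂ) * (derivative (mu Λ)).eval m)⁻¹ := by
    intro m hm
    have : z (ξ m) = ∑ l ∈ Λ, ((κ : ℂ) * (derivative (mu Λ)).eval l)⁻¹ * f l (e l (ξ m)) := by
      simp [hz]
    rw [this, Finset.sum_eq_single m]
    · rw [heξ m hm m hm, if_pos rfl, hf m hm, mul_one]
    · intro l hl hlm
      rw [heξ l hl m hm, if_neg hlm, map_zero, mul_zero]
    · intro h
      exact absurd hm h
  refine ⟨mu Λ, z, ?_, ?_⟩
  · have : y - z.comp (aeval (τ + (κ : ℂ) • N) (mu Λ)) = 0 := by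
      rw [sub_eq_zero, hmu]
      ext v
      show y v = z ((κ : ℂ) • (aeval τ (derivative (mu Λ))) (N v))
      rw [map_smul, hNv, map_sum, map_sum]
      have h1 : ∀ l ∈ Λ, z ((aeval τ (derivative (mu Λ))) (y (e l v) • ξ l))
          = (κ : ℂ)⁻¹ * y (e l v) := by
        intro l hl
        rw [map_smul, aeval_eig τ (ξ l) l (hξ l hl), map_smul, map_smul, hzξ l hl, smul_eq_mul,
          smul_eq_mul]
        have := eval_mu_derivative_ne Λ l hl
        field_simp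
      rw [Finset.sum_congr rfl h1, ← Finset.mul_sum, smul_eq_mul, ← mul_assoc,
        mul_inv_cancel₀ hκ', one_mul, ← map_sum]
      congr 1
      have h2 := congrArg (fun B : X →L[ℂ] X => B v) (sum_eL τ Λ hΛ)
      simp only [sum_apply] at h2
      exact h2.symm
    rw [this, norm_zero]
    exact hρ
  · have : (aeval (τ + (κ : ℂ) • N) (mu Λ)) x = 0 := by
      rw [hmu]
      show (κ : ℂ) • (aeval τ (derivative (mu Λ))) (N x) = 0
      rw [hNx, map_zero, smul_zero]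
    rw [this, norm_zero, zero_mul]
    exact hρ

end Pool.Agent.W736.TC
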