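import Pool.Agent.W736.TC.Poly

/-! Representation of small functionals on the algebra generated by `t`. -/

set_option autoImplicit false
open Filter Topology Polynomial

namespace Pool.Agent.W736.TC

section
variable {V : Type} [NormedAddCommGroup V] [NormedSpace ℂ V]

/-- The values `v (e_l(t) u)`. -/
noncomputable def Th (t : V →L[ℂ] V) (Λ : Finset ℂ) (u : V) (v : V →L[ℂ] ℂ) : Λ → ℂ :=
  fun l => v ((aeval t (eL Λ l)) u)

/-- `F` is a sum of elementary functionals of total weight at most `c`. -/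
def Rep (t : V →L[ℂ] V) (Λ : Finset ℂ) (c : ℝ) (F : Λ → ℂ) : Prop :=
  ∃ (n : ℕ) (w : ℕ → ℝ) (u : ℕ → V) (v : ℕ → (V →L[ℂ] ℂ)), (∀ j, 0 ≤ w j) ∧
    ∑ j ∈ Finset.range n, w j ≤ c ∧ (∀ j, ‖u j‖ ≤ 1) ∧ (∀ j, ‖v j‖ ≤ 1) ∧
    ∀ l, F l = ∑ j ∈ Finset.range n, (w j : ℂ) * Th t Λ (u j) (v j) l

variable {t : V →L[ℂ] V} {Λ : Finset ℂ}

theorem Rep.zero : Rep t Λ 0 0 :=
  ⟨0, fun _ => 0, fun _ => 0, fun _ => 0, by simp, by simp, by simp, by simp, by simp⟩

theorem Rep.mono {c c' : ℝ} {F : Λ → ℂ} (h : Rep t Λ c F) (hc : c ≤ c') : Rep t Λ c' F := by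
  obtain ⟨n, w, u, v, h1, h2, h3⟩ := h
  exact ⟨n, w, u, v, h1, h2.trans hc, h3⟩

theorem Rep.smul {c a : ℝ} (ha : 0 ≤ a) {F : Λ → ℂ} (h : Rep t Λ c F) :
    Rep t Λ (a * c) (fun l => (a : ℂ) * F l) := by
  obtain ⟨n, w, u, v, h1, h2, h3, h4, h5⟩ := h
  refine ⟨n, fun j => a * w j, u, v, fun j => mul_nonneg ha (h1 j), ?_, h3, h4, fun l => ?_⟩
  · rw [← Finset.mul_sum]
    gcongr
  · dsimp only
    rw [h5 l, Finset.mul_sum]
    refine Finset.sum_congr rfl fun j _ => ?_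
    push_cast
    ring

theorem Rep.add {c c' : ℝ} {F G : Λ → ℂ} (h : Rep t Λ c F) (h' : Rep t Λ c' G) :
    Rep t Λ (c + c') (F + G) := by
  obtain ⟨n, w, u, v, h1, h2, h3, h4, h5⟩ := h
  obtain ⟨n', w', u', v', h1', h2', h3', h4', h5'⟩ := h'
  refine ⟨n + n', fun j => if j < n then w j else w' (j - n),
    fun j => if j < n then u j else u' (j - n), fun j => if j < n then v j else v' (j - n),
    fun j => ?_, ?_, fun j => ?_, fun j => ?_, fun l => ?_⟩
  · dsimp only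
    split_ifs
    exacts [h1 j, h1' _]
  · rw [Finset.sum_range_add]
    refine add_le_add ?_ ?_
    · refine le_trans (le_of_eq (Finset.sum_congr rfl fun j hj => ?_)) h2
      exact if_pos (Finset.mem_range.1 hj)
    · refine le_trans (le_of_eq (Finset.sum_congr rfl fun j hj => ?_)) h2'
      have hj2 : ¬ (n + j < n) := by omega
      rw [if_neg hj2, Nat.add_sub_cancel_left]
  · dsimp only
    split_ifs
    exacts [h3 j, h3' _]
  · dsimp only
    split_ifs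
    exacts [h4 j, h4' _]
  · rw [Pi.add_apply, h5, h5', Finset.sum_range_add]
    congr 1
    · refine Finset.sum_congr rfl fun j hj => ?_
      dsimp only
      rw [if_pos (Finset.mem_range.1 hj), if_pos (Finset.mem_range.1 hj),
        if_pos (Finset.mem_range.1 hj)]
    · refine Finset.sum_congr rfl fun j hj => ?_
      have hj2 : ¬ (n + j < n) := by omega
      dsimp only
      rw [if_neg hj2, if_neg hj2, if_neg hj2, Nat.add_sub_cancel_left]

theorem Rep.single (w : ℝ) (hw : 0 ≤ w) (u : V) (v : V →L[ℂ] ℂ) (hu : ‖u‖ ≤ 1) (hv : ‖v‖ ≤ 1) :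
    Rep t Λ w (fun l => (w : ℂ) * Th t Λ u v l) :=
  ⟨1, fun _ => w, fun _ => u, fun _ => v, fun _ => hw, by simp, fun _ => hu, fun _ => hv,
    by simp⟩

theorem Rep.sum {ι : Type} (s : Finset ι) (c : ι → ℝ) (F : ι → (Λ → ℂ))
    (h : ∀ i ∈ s, Rep t Λ (c i) (F i)) : Rep t Λ (∑ i ∈ s, c i) (∑ i ∈ s, F i) := by
  classical
  induction s using Finset.induction_on with
  | empty => simpa using Rep.zero
  | insert i s hi ih =>
    rw [Finset.sum_insert hi, Finset.sum_insert hi]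
    exact (h i (Finset.mem_insert_self _ _)).add
      (ih fun j hj => h j (Finset.mem_insert_of_mem hj))

theorem aeval_sum_eL (t : V →L[ℂ] V) (Λ : Finset ℂ) (a : Λ → ℂ) :
    aeval t (∑ l : Λ, C (a l) * eL Λ l) = ∑ l : Λ, a l • aeval t (eL Λ l) := by
  rw [map_sum]
  refine Finset.sum_congr rfl fun l _ => ?_
  rw [map_mul, aeval_C, Algebra.smul_def]

theorem re_lin {ι : Type} [Fintype ι] [DecidableEq ι] (f : (ι → ℂ) →L[ℝ] ℝ) (z : ι → ℂ) :
    f z = (∑ l, ((f (Pi.single l 1) : ℂ) - Complex.I * (f (Pi.single l Complex.I) : ℂ)) * z l).re := by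
  have hz : z = ∑ l, ((z l).re • (Pi.single l (1 : ℂ) : ι → ℂ)
      + (z l).im • (Pi.single l Complex.I : ι → ℂ)) := by
    funext m
    rw [Finset.sum_apply, Finset.sum_eq_single m]
    · simp only [Pi.add_apply, Pi.smul_apply, Pi.single_eq_same, Complex.real_smul, mul_one]
      exact (Complex.re_add_im (z m)).symm
    · intro l _ hlm
      simp [Pi.single_eq_of_ne (Ne.symm hlm)]
    · intro h
      exact absurd (Finset.mem_univ m) h
  conv_lhs => rw [hz]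
  rw [map_sum, Complex.re_sum]
  refine Finset.sum_congr rfl fun l _ => ?_
  rw [map_add, map_smul, map_smul]
  simp [Complex.mul_re, Complex.sub_re, Complex.sub_im]
  ring

theorem corr_closure (x0 : V) (y0 : V →L[ℂ] ℂ) (c : ℝ) (hc : 0 < c)
    (h : ∀ p : ℂ[X], ‖y0 ((aeval t p) x0)‖ ≤ c * ‖aeval t p‖) :
    (fun l : Λ => -((c : ℂ)⁻¹ * y0 ((aeval t (eL Λ l)) x0))) ∈
      closure (convexHull ℝ {F : Λ → ℂ | ∃ u v, ‖u‖ ≤ 1 ∧ ‖v‖ ≤ 1 ∧ F = Th t Λ u v}) := by
  classical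
  by_contra hcon
  obtain ⟨f, s, h1, h2⟩ := geometric_hahn_banach_closed_point
    (convex_convexHull ℝ _).closure isClosed_closure hcon
  set a : Λ → ℂ := fun l => (f (Pi.single l 1) : ℂ) - Complex.I * (f (Pi.single l Complex.I) : ℂ)
    with ha
  have hf : ∀ z, f z = (∑ l, a l * z l).re := fun z => re_lin f z
  set p : ℂ[X] := ∑ l : Λ, C (a l) * eL Λ l with hp
  have hpt : aeval t p = ∑ l : Λ, a l • aeval t (eL Λ l) := aeval_sum_eL t Λ a
  have hfT : ∀ u v, f (Th t Λ u v) = (v ((aeval t p) u)).re := by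
    intro u v
    rw [hf, hpt, sum_apply, map_sum]
    congr 1
    refine Finset.sum_congr rfl fun l _ => ?_
    rw [smul_apply, map_smul]
    rfl
  have hle : ‖aeval t p‖ ≤ s := by
    by_contra hlt
    push Not at hlt
    obtain ⟨u, hu, hu2⟩ := ContinuousLinearMap.exists_lt_apply_of_lt_opNorm (aeval t p) hlt
    obtain ⟨v, hv, hv2⟩ := exists_dual_vector'' ℂ ((aeval t p) u)
    have h3 := h1 (Th t Λ u v) (subset_closure (subset_convexHull ℝ _ ⟨u, v, hu.le, hv, rfl⟩))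
    rw [hfT, hv2] at h3
    have : ((‖(aeval t p) u‖ : ℝ) : ℂ).re = ‖(aeval t p) u‖ := Complex.ofReal_re _
    have h4 : ‖(aeval t p) u‖ < s := by
      rw [← this]; exact h3
    linarith
  have h5 : f (fun l : Λ => -((c : ℂ)⁻¹ * y0 ((aeval t (eL Λ l)) x0)))
      = -(c⁻¹ * (y0 ((aeval t p) x0)).re) := by
    rw [hf, hpt, sum_apply, map_sum]
    have : ∑ l : Λ, a l * -((c : ℂ)⁻¹ * y0 ((aeval t (eL Λ l)) x0))
        = -((c⁻¹ : ℝ) : ℂ) * ∑ l : Λ, y0 ((a l • aeval t (eL Λ l)) x0) := by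
      rw [Finset.mul_sum]
      refine Finset.sum_congr rfl fun l _ => ?_
      rw [smul_apply, map_smul, smul_eq_mul]
      push_cast
      ring
    rw [this]
    rw [neg_mul, Complex.neg_re, Complex.re_ofReal_mul]
  have h6 : -(c⁻¹ * (y0 ((aeval t p) x0)).re) ≤ ‖aeval t p‖ := by
    have h7 := h p
    have h8 : |(y0 ((aeval t p) x0)).re| ≤ ‖y0 ((aeval t p) x0)‖ := Complex.abs_re_le_norm _
    have h9 := neg_abs_le (y0 ((aeval t p) x0)).re
    have h10 : -(y0 ((aeval t p) x0)).re ≤ c * ‖aeval t p‖ := by linarith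
    calc -(c⁻¹ * (y0 ((aeval t p) x0)).re) = c⁻¹ * (-(y0 ((aeval t p) x0)).re) := by ring
      _ ≤ c⁻¹ * (c * ‖aeval t p‖) := by gcongr
      _ = ‖aeval t p‖ := by field_simp
  rw [h5] at h2
  linarith

theorem hull_rep : convexHull ℝ {F : Λ → ℂ | ∃ u v, ‖u‖ ≤ 1 ∧ ‖v‖ ≤ 1 ∧ F = Th t Λ u v} ⊆
    {F | Rep t Λ 1 F} := by
  refine convexHull_min ?_ ?_
  · rintro F ⟨u, v, hu, hv, rfl⟩
    have := Rep.single (t := t) (Λ := Λ) 1 zero_le_one u v hu hv
    simpa using this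
  · intro F hF G hG a b ha hb hab
    have := (hF.smul ha).add (hG.smul hb)
    rw [mul_one, mul_one, hab] at this
    have e : a • F + b • G = ((fun l => (a : ℂ) * F l) + fun l => (b : ℂ) * G l) := by
      funext l
      simp
    show Rep t Λ 1 (a • F + b • G)
    rw [e]
    exact this

theorem Rep.delta (hd : Diag t Λ) (l : Λ) (a : ℂ) : Rep t Λ ‖a‖ (Pi.single l a) := by
  classical
  obtain ⟨w, hw, htw⟩ := hd.2 l l.2
  obtain ⟨g, hg, hg2⟩ := exists_dual_vector ℂ w (norm_ne_zero_iff.2 hw)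
  have hwn : ‖w‖ ≠ 0 := norm_ne_zero_iff.2 hw
  set u : V := ((‖w‖⁻¹ : ℝ) : ℂ) • w with hu
  have hu1 : ‖u‖ = 1 := by
    rw [hu, norm_smul, Complex.norm_real, norm_inv, norm_norm, inv_mul_cancel₀ hwn]
  have hgu : g u = 1 := by
    rw [hu, map_smul, hg2, smul_eq_mul]
    push_cast
    exact inv_mul_cancel₀ (by exact_mod_cast hwn)
  have htu : t u = (l : ℂ) • u := by
    rw [hu, map_smul, htw, smul_comm]
  by_cases ha : a = 0
  · subst ha
    have : (Pi.single l (0 : ℂ) : Λ → ℂ) = 0 := Pi.single_zero l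
    rw [this, norm_zero]
    exact Rep.zero
  · have han : ‖a‖ ≠ 0 := norm_ne_zero_iff.2 ha
    have h1 := Rep.single (t := t) (Λ := Λ) ‖a‖ (norm_nonneg a) u ((a / ‖a‖) • g) hu1.le (by
      rw [norm_smul, hg, mul_one, norm_div, Complex.norm_real, norm_norm, div_self han])
    convert h1 using 1
    funext m
    have h2 : (aeval t (eL Λ m)) u = if (m : ℂ) = l then u else 0 :=
      eL_eig t Λ u l l.2 htu m m.2
    show (Pi.single l a : Λ → ℂ) m = (‖a‖ : ℂ) * ((a / ‖a‖) • g) ((aeval t (eL Λ m)) u)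
    rw [h2]
    by_cases hml : m = l
    · subst hml
      rw [if_pos rfl, Pi.single_eq_same, smul_apply, hgu, smul_eq_mul, mul_one]
      have : (‖a‖ : ℂ) ≠ 0 := by exact_mod_cast han
      field_simp
    · rw [if_neg (fun h => hml (Subtype.ext h)), map_zero, mul_zero, Pi.single_eq_of_ne hml]

/-- the correction lemma -/
theorem corr (hΛ : Λ.Nonempty) (hd : Diag t Λ) (x0 : V) (y0 : V →L[ℂ] ℂ) (c : ℝ) (hc : 0 < c)
    (h : ∀ p : ℂ[X], ‖y0 ((aeval t p) x0)‖ ≤ c * ‖aeval t p‖) :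
    ∃ (n : ℕ) (w : ℕ → ℝ) (u : ℕ → V) (v : ℕ → (V →L[ℂ] ℂ)), (∀ j, 0 ≤ w j) ∧
      ∑ j ∈ Finset.range n, w j ≤ 2 * c ∧ (∀ j, ‖u j‖ ≤ 1) ∧ (∀ j, ‖v j‖ ≤ 1) ∧
      ∀ p : ℂ[X], y0 ((aeval t p) x0) +
        ∑ j ∈ Finset.range n, (w j : ℂ) * v j ((aeval t p) (u j)) = 0 := by
  classical
  have h1 := corr_closure (Λ := Λ) x0 y0 c hc h
  set P : Λ → ℂ := fun l : Λ => -((c : ℂ)⁻¹ * y0 ((aeval t (eL Λ l)) x0)) with hP
  have hcard : (0:ℝ) < (Fintype.card Λ : ℝ) + 1 := by positivity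
  obtain ⟨k, hk, hPk⟩ := Metric.mem_closure_iff.1 h1 (1 / ((Fintype.card Λ : ℝ) + 1))
    (by positivity)
  have hk1 : Rep t Λ 1 k := hull_rep hk
  have hk2 := hk1.smul hc.le
  have hc' : (c : ℂ) ≠ 0 := by exact_mod_cast hc.ne'
  have hR : Rep t Λ (∑ l : Λ, ‖(c : ℂ) * (P l - k l)‖)
      (∑ l : Λ, (Pi.single l ((c : ℂ) * (P l - k l)) : Λ → ℂ)) :=
    Rep.sum _ _ _ fun l _ => Rep.delta hd l _
  have hsum : ∑ l : Λ, ‖(c : ℂ) * (P l - k l)‖ ≤ c := by
    have h2 : ∀ l : Λ, ‖(c : ℂ) * (P l - k l)‖ ≤ c * (1 / ((Fintype.card Λ : ℝ) + 1)) := by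
      intro l
      rw [norm_mul, Complex.norm_real, Real.norm_of_nonneg hc.le]
      gcongr
      rw [← dist_eq_norm]
      exact (dist_le_pi_dist P k l).trans hPk.le
    calc _ ≤ ∑ _l : Λ, c * (1 / ((Fintype.card Λ : ℝ) + 1)) := Finset.sum_le_sum fun l _ => h2 l
      _ = (Fintype.card Λ : ℝ) * (c * (1 / ((Fintype.card Λ : ℝ) + 1))) := by
          rw [Finset.sum_const, nsmul_eq_mul, Finset.card_univ]
      _ = c * ((Fintype.card Λ : ℝ) / ((Fintype.card Λ : ℝ) + 1)) := by ring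
      _ ≤ c * 1 := by
          gcongr
          rw [div_le_one hcard]
          linarith
      _ = c := mul_one c
  have hF := (hk2.add hR).mono (show c * 1 + ∑ l : Λ, ‖(c : ℂ) * (P l - k l)‖ ≤ 2 * c by linarith)
  obtain ⟨n, w, u, v, a1, a2, a3, a4, a5⟩ := hF
  refine ⟨n, w, u, v, a1, a2, a3, a4, fun p => ?_⟩
  have hval : ∀ l : Λ, ∑ j ∈ Finset.range n, (w j : ℂ) * Th t Λ (u j) (v j) l
      = - y0 ((aeval t (eL Λ l)) x0) := by
    intro l
    rw [← a5 l, Pi.add_apply, Finset.sum_apply, Finset.sum_eq_single l, Pi.single_eq_same]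
    · rw [mul_sub, hP]
      field_simp
      ring
    · intro m _ hml
      exact Pi.single_eq_of_ne (Ne.symm hml) _
    · intro h
      exact absurd (Finset.mem_univ l) h
  have hpe : aeval t p = ∑ l : Λ, p.eval (l : ℂ) • aeval t (eL Λ l) := by
    rw [aeval_eq_sum_eL t Λ hΛ hd.1 p, ← Finset.sum_coe_sort]
  have e1 : y0 ((aeval t p) x0) = ∑ l : Λ, p.eval (l : ℂ) * y0 ((aeval t (eL Λ l)) x0) := by
    rw [hpe, sum_apply, map_sum]
    refine Finset.sum_congr rfl fun l _ => ?_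
    rw [smul_apply, map_smul, smul_eq_mul]
  have e2 : ∀ j, v j ((aeval t p) (u j)) = ∑ l : Λ, p.eval (l : ℂ) * Th t Λ (u j) (v j) l := by
    intro j
    rw [hpe, sum_apply, map_sum]
    refine Finset.sum_congr rfl fun l _ => ?_
    rw [smul_apply, map_smul, smul_eq_mul]
    rfl
  rw [e1]
  simp only [e2, Finset.mul_sum]
  rw [Finset.sum_comm, ← Finset.sum_add_distrib]
  refine Finset.sum_eq_zero fun l _ => ?_
  have e3 : ∑ j ∈ Finset.range n, (w j : ℂ) * (p.eval (l : ℂ) * Th t Λ (u j) (v j) l)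
      = p.eval (l : ℂ) * ∑ j ∈ Finset.range n, (w j : ℂ) * Th t Λ (u j) (v j) l := by
    rw [Finset.mul_sum]
    refine Finset.sum_congr rfl fun j _ => ?_
    ring
  rw [e3, hval l]
  ring

end

end Pool.Agent.W736.TC
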