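import Mathlib

/-! Operators on finite-dimensional spaces: approximation by operators with simple spectrum. -/

set_option autoImplicit false
open Filter Topology Polynomial

namespace Pool.Agent.W736.TC

/-- `∏ (z - μ)` over `μ ∈ Λ` -/
noncomputable def mu (Λ : Finset ℂ) : ℂ[X] := ∏ m ∈ Λ, (X - C m)

/-- `t` is annihilated by `∏ (z - μ)`, `μ ∈ Λ`, and all `μ` are eigenvalues. -/
def Diag {V : Type} [NormedAddCommGroup V] [NormedSpace ℂ V] (t : V →L[ℂ] V) (Λ : Finset ℂ) :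
    Prop :=
  aeval t (mu Λ) = 0 ∧ ∀ m ∈ Λ, ∃ w : V, w ≠ 0 ∧ t w = m • w

section step

variable {V : Type} [NormedAddCommGroup V] [NormedSpace ℂ V] [FiniteDimensional ℂ V]

/-- the kernel of `f` -/
abbrev Kf (f : V →L[ℂ] ℂ) : Submodule ℂ V := LinearMap.ker (f : V →ₗ[ℂ] ℂ)

theorem mem_Kf (f : V →L[ℂ] ℂ) (x : V) : x ∈ Kf f ↔ f x = 0 := Iff.rfl

/-- the projection onto the kernel along `v` -/
noncomputable def Pf (f : V →L[ℂ] ℂ) (v : V) (hf : f v = 1) : V →L[ℂ] Kf f :=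
  ContinuousLinearMap.codRestrict (ContinuousLinearMap.id ℂ V - f.smulRight v) (Kf f) (by
    intro x
    rw [mem_Kf]
    simp [hf])

theorem Pf_coe (f : V →L[ℂ] ℂ) (v : V) (hf : f v = 1) (x : V) :
    ((Pf f v hf x : Kf f) : V) = x - f x • v := rfl

theorem LA_step (t0 : V →L[ℂ] V) (v : V) (l0 : ℂ) (h0 : t0 v = l0 • v)
    (f : V →L[ℂ] ℂ) (hf : f v = 1) : ∃ (K : ℝ) (s0 : Kf f →L[ℂ] Kf f), 0 < K ∧
    ∀ (s : Kf f →L[ℂ] Kf f) (Λ : Finset ℂ) (l : ℂ), l ∉ Λ → Diag s Λ →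
      ∃ t : V →L[ℂ] V, ‖t - t0‖ ≤ K * (‖s - s0‖ + ‖l - l0‖) ∧ Diag t (insert l Λ) ∧
        t v = l • v := by
  classical
  have hv : v ≠ 0 := by
    rintro rfl
    simp at hf
  set P := Pf f v hf with hP
  set J : Kf f →L[ℂ] V := (Kf f).subtypeL with hJ
  have hPJ : ∀ w : Kf f, P (J w) = w := by
    intro w
    apply Subtype.ext
    rw [hP, Pf_coe]
    have : f (J w) = 0 := w.2
    rw [this, zero_smul, sub_zero]
    rfl
  have hPv : P v = 0 := by
    apply Subtype.ext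
    rw [hP, Pf_coe, hf, one_smul, sub_self]
    rfl
  have hfJ : ∀ w : Kf f, f (J w) = 0 := fun w => w.2
  have hdec : ∀ x : V, x = f x • v + J (P x) := by
    intro x
    have : J (P x) = x - f x • v := rfl
    rw [this]
    abel
  have hJ0 : ∀ w : Kf f, w ≠ 0 → J w ≠ 0 := by
    intro w hw h
    apply hw
    have := congrArg P h
    rwa [hPJ, map_zero] at this
  set s0 : Kf f →L[ℂ] Kf f := P.comp (t0.comp J) with hs0
  refine ⟨‖f‖ * ‖v‖ + ‖J‖ * ‖P‖ + 1, s0, by positivity, ?_⟩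
  intro s Λ l hl hs
  set t : V →L[ℂ] V := (l • f).smulRight v + (J.comp (s.comp P) + ((f.comp t0).comp (J.comp P)).smulRight v)
    with ht
  have htx : ∀ x, t x = (l * f x) • v + (J (s (P x)) + f (t0 (J (P x))) • v) := by
    intro x
    simp [ht]
  have ht0x : ∀ x, t0 x = (l0 * f x) • v + (J (s0 (P x)) + f (t0 (J (P x))) • v) := by
    intro x
    have e1 : t0 x = f x • t0 v + t0 (J (P x)) := by
      conv_lhs => rw [hdec x]
      rw [map_add, map_smul]
    have e2 : t0 (J (P x)) = f (t0 (J (P x))) • v + J (s0 (P x)) := by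
      conv_lhs => rw [hdec (t0 (J (P x)))]
      rfl
    rw [e1, h0]
    conv_lhs => rw [e2]
    rw [smul_smul, mul_comm (f x) l0]
    abel
  have htv : t v = l • v := by
    rw [htx, hPv, hf]
    simp
  have htJ : ∀ w : Kf f, t (J w) = J (s w) + f (t0 (J w)) • v := by
    intro w
    rw [htx, hfJ, hPJ]
    simp
  have hPt : P.comp t = s.comp P := by
    ext x
    have : P (t x) = s (P x) := by
      rw [htx, map_add, map_add, map_smul, map_smul, hPv, hPJ]
      simp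
    exact congrArg Subtype.val this
  have hPq : ∀ q : ℂ[X], P.comp (aeval t q) = (aeval s q).comp P := by
    intro q
    induction q using Polynomial.induction_on' with
    | add p q hp hq =>
      rw [map_add, map_add, ContinuousLinearMap.comp_add, hp, hq, ContinuousLinearMap.add_comp]
    | monomial n a =>
      have hn : ∀ n : ℕ, P.comp (t ^ n) = (s ^ n).comp P := by
        intro n
        induction n with
        | zero => ext x; simp
        | succ n ih =>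
          rw [pow_succ, pow_succ]
          have e1 : P.comp (t ^ n * t) = (P.comp (t ^ n)).comp t := rfl
          rw [e1, ih]
          have e2 : ((s ^ n).comp P).comp t = (s ^ n).comp (P.comp t) := rfl
          rw [e2, hPt]
          rfl
      rw [aeval_monomial, aeval_monomial]
      ext x
      have h1 := congrArg (fun A : V →L[ℂ] Kf f => A x) (hn n)
      simp only [ContinuousLinearMap.comp_apply] at h1
      have e1 : (algebraMap ℂ (V →L[ℂ] V)) a * t ^ n = a • t ^ n := by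
        rw [Algebra.algebraMap_eq_smul_one, smul_mul_assoc, one_mul]
      have e2 : (algebraMap ℂ (Kf f →L[ℂ] Kf f)) a * s ^ n = a • s ^ n := by
        rw [Algebra.algebraMap_eq_smul_one, smul_mul_assoc, one_mul]
      rw [e1, e2]
      have h2 : P ((a • t ^ n) x) = (a • s ^ n) (P x) := by
        rw [smul_apply, map_smul, h1, smul_apply]
      exact congrArg Subtype.val h2
  refine ⟨t, ?_, ⟨?_, ?_⟩, htv⟩
  · apply ContinuousLinearMap.opNorm_le_bound _ (by positivity)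
    intro x
    have e : (t - t0) x = ((l - l0) * f x) • v + J ((s - s0) (P x)) := by
      rw [sub_apply, htx, ht0x x, sub_apply, map_sub,
        sub_mul, sub_smul]
      abel
    rw [e]
    have a1 : ‖((l - l0) * f x) • v‖ ≤ ‖l - l0‖ * (‖f‖ * ‖v‖) * ‖x‖ := by
      rw [norm_smul, norm_mul]
      calc ‖l - l0‖ * ‖f x‖ * ‖v‖ ≤ ‖l - l0‖ * (‖f‖ * ‖x‖) * ‖v‖ := by
            gcongr
            exact f.le_opNorm x
        _ = _ := by ring
    have a2 : ‖J ((s - s0) (P x))‖ ≤ ‖s - s0‖ * (‖J‖ * ‖P‖) * ‖x‖ := by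
      calc _ ≤ ‖J‖ * ‖(s - s0) (P x)‖ := J.le_opNorm _
        _ ≤ ‖J‖ * (‖s - s0‖ * ‖P x‖) := by gcongr; exact (s - s0).le_opNorm _
        _ ≤ ‖J‖ * (‖s - s0‖ * (‖P‖ * ‖x‖)) := by gcongr; exact P.le_opNorm _
        _ = _ := by ring
    calc _ ≤ _ := norm_add_le _ _
      _ ≤ ‖l - l0‖ * (‖f‖ * ‖v‖) * ‖x‖ + ‖s - s0‖ * (‖J‖ * ‖P‖) * ‖x‖ := add_le_add a1 a2
      _ ≤ (‖f‖ * ‖v‖ + ‖J‖ * ‖P‖ + 1) * (‖s - s0‖ + ‖l - l0‖) * ‖x‖ := by
          have : 0 ≤ ‖x‖ := norm_nonneg x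
          have b1 : 0 ≤ ‖l - l0‖ := norm_nonneg _
          have b2 : 0 ≤ ‖s - s0‖ := norm_nonneg (s - s0)
          have b3 : 0 ≤ ‖f‖ * ‖v‖ := by positivity
          have b4 : 0 ≤ ‖J‖ * ‖P‖ := by positivity
          have : ‖l - l0‖ * (‖f‖ * ‖v‖) + ‖s - s0‖ * (‖J‖ * ‖P‖)
              ≤ (‖f‖ * ‖v‖ + ‖J‖ * ‖P‖ + 1) * (‖s - s0‖ + ‖l - l0‖) := by nlinarith
          nlinarith
  · rw [mu, Finset.prod_insert hl, map_mul]
    ext x
    set y : V := (aeval t (∏ m ∈ Λ, (X - C m))) x with hy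
    have h1 : P y = 0 := by
      have h2 := congrArg (fun A : V →L[ℂ] Kf f => A x) (hPq (∏ m ∈ Λ, (X - C m)))
      simp only [ContinuousLinearMap.comp_apply] at h2
      have h3 : aeval s (∏ m ∈ Λ, (X - C m)) = 0 := hs.1
      rw [h3] at h2
      rw [hy, h2]
      simp
    have h4 : y = f y • v := by
      have := hdec y
      rw [h1, map_zero, add_zero] at this
      exact this
    show (aeval t (X - C l)) y = (0 : V →L[ℂ] V) x
    have h5 : (aeval t (X - C l)) y = t y - l • y := by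
      simp [Algebra.algebraMap_eq_smul_one]
    rw [h5, h4, map_smul, htv, smul_comm l (f y) v, sub_self]
    simp
  · intro m hm
    rw [Finset.mem_insert] at hm
    rcases hm with rfl | hm
    · exact ⟨v, hv, htv⟩
    · obtain ⟨w, hw, hsw⟩ := hs.2 m hm
      have hml : m - l ≠ 0 := by
        intro h
        apply hl
        rwa [← sub_eq_zero.1 h]
      refine ⟨J w + (f (t0 (J w)) / (m - l)) • v, ?_, ?_⟩
      · intro h
        apply hw
        have := congrArg P h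
        rw [map_add, map_smul, hPv, smul_zero, add_zero, hPJ, map_zero] at this
        exact this
      · rw [map_add, map_smul, htJ, htv, hsw, map_smul, smul_add, smul_smul, smul_smul,
          add_assoc, ← add_smul]
        congr 2
        field_simp
        ring

end step

theorem exists_near (l0 : ℂ) (ε : ℝ) (hε : 0 < ε) (B : Finset ℂ) : ∃ l : ℂ, ‖l - l0‖ < ε ∧ l ∉ B := by
  have h := (B.finite_toSet.countable.dense_compl ℂ).inter_open_nonempty (Metric.ball l0 ε)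
    Metric.isOpen_ball ⟨l0, Metric.mem_ball_self hε⟩
  obtain ⟨l, hl, hlB⟩ := h
  exact ⟨l, by simpa [dist_eq_norm] using hl, by simpa using hlB⟩

theorem exists_f {V : Type} [NormedAddCommGroup V] [NormedSpace ℂ V] (v : V) (hv : v ≠ 0) :
    ∃ f : V →L[ℂ] ℂ, f v = 1 := by
  obtain ⟨g, -, hg⟩ := exists_dual_vector ℂ v (norm_ne_zero_iff.2 hv)
  refine ⟨(((‖v‖ : ℝ) : ℂ)⁻¹) • g, ?_⟩
  have h : ((‖v‖ : ℝ) : ℂ) ≠ 0 := by
    simpa using hv
  rw [smul_apply, hg, smul_eq_mul]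
  exact inv_mul_cancel₀ h

theorem finrank_Kf {V : Type} [NormedAddCommGroup V] [NormedSpace ℂ V] [FiniteDimensional ℂ V]
    (f : V →L[ℂ] ℂ) (v : V) (hf : f v = 1) :
    Module.finrank ℂ (Kf f) + 1 = Module.finrank ℂ V := by
  have h := LinearMap.finrank_range_add_finrank_ker (f : V →ₗ[ℂ] ℂ)
  have h2 : LinearMap.range (f : V →ₗ[ℂ] ℂ) = ⊤ := by
    rw [LinearMap.range_eq_top]
    intro c
    refine ⟨c • v, ?_⟩
    show f (c • v) = c
    rw [map_smul, hf, smul_eq_mul, mul_one]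
  rw [h2, finrank_top, Module.finrank_self] at h
  change 1 + Module.finrank ℂ (Kf f) = _ at h
  rw [← h, add_comm]

theorem LA (n : ℕ) : ∀ (V : Type) [NormedAddCommGroup V] [NormedSpace ℂ V]
    [FiniteDimensional ℂ V], Module.finrank ℂ V = n → ∀ (t0 : V →L[ℂ] V) (ε : ℝ), 0 < ε →
    ∀ B : Finset ℂ, ∃ (t : V →L[ℂ] V) (Λ : Finset ℂ), ‖t - t0‖ < ε ∧ Diag t Λ ∧ ∀ m ∈ Λ, m ∉ B := by
  induction n with
  | zero =>
    intro V _ _ _ hV t0 ε hε B
    have : Subsingleton V := Module.finrank_zero_iff.1 hV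
    refine ⟨t0, ∅, by simpa using hε, ⟨?_, by simp⟩, by simp⟩
    ext x
    exact Subsingleton.elim _ _
  | succ n ih =>
    intro V _ _ _ hV t0 ε hε B
    have hnt : Nontrivial V := Module.nontrivial_of_finrank_pos (R := ℂ) (by omega)
    obtain ⟨l0, hl0⟩ := Module.End.exists_eigenvalue (t0 : V →ₗ[ℂ] V)
    obtain ⟨v, hv⟩ := hl0.exists_hasEigenvector
    have hv0 : v ≠ 0 := hv.2
    have htv : t0 v = l0 • v := hv.apply_eq_smul
    obtain ⟨f, hf⟩ := exists_f v hv0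
    obtain ⟨K, s0, hK, h⟩ := LA_step t0 v l0 htv f hf
    have hd := finrank_Kf f v hf
    have hε' : 0 < ε / (2 * K) := by positivity
    obtain ⟨s, Λ, hs1, hs2, hs3⟩ := ih (Kf f) (by omega) s0 (ε / (2 * K)) hε' B
    obtain ⟨l, hl1, hl2⟩ := exists_near l0 (ε / (2 * K)) hε' (Λ ∪ B)
    rw [Finset.notMem_union] at hl2
    obtain ⟨t, ht1, ht2, -⟩ := h s Λ l hl2.1 hs2
    refine ⟨t, insert l Λ, ?_, ht2, ?_⟩
    · calc ‖t - t0‖ ≤ K * (‖s - s0‖ + ‖l - l0‖) := ht1
        _ < K * (ε / (2 * K) + ε / (2 * K)) := by gcongr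
        _ = ε := by field_simp; ring
    · intro m hm
      rw [Finset.mem_insert] at hm
      rcases hm with rfl | hm
      · exact hl2.2
      · exact hs3 m hm

/-- The case with a kernel vector. -/
theorem LA0 {V : Type} [NormedAddCommGroup V] [NormedSpace ℂ V] [FiniteDimensional ℂ V]
    (t0 : V →L[ℂ] V) (w : V) (hw : w ≠ 0) (h0 : t0 w = 0) (ε : ℝ) (hε : 0 < ε) :
    ∃ (t : V →L[ℂ] V) (Λ : Finset ℂ), ‖t - t0‖ < ε ∧ Diag t Λ ∧ (0 : ℂ) ∈ Λ := by
  obtain ⟨f, hf⟩ := exists_f w hw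
  obtain ⟨K, s0, hK, h⟩ := LA_step t0 w 0 (by rw [h0, zero_smul]) f hf
  obtain ⟨s, Λ, hs1, hs2, hs3⟩ := LA _ (Kf f) rfl s0 (ε / K) (by positivity) {0}
  obtain ⟨t, ht1, ht2, -⟩ := h s Λ 0 (fun h => hs3 0 h (by simp)) hs2
  refine ⟨t, insert 0 Λ, ?_, ht2, Finset.mem_insert_self _ _⟩
  calc ‖t - t0‖ ≤ K * (‖s - s0‖ + ‖(0:ℂ) - 0‖) := ht1
    _ = K * ‖s - s0‖ := by simp
    _ < K * (ε / K) := by gcongr
    _ = ε := by field_simp

end Pool.Agent.W736.TC
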