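import Pool.Agent.W736.TC.LA

/-! Idempotents of an element annihilated by a polynomial with simple roots. -/

set_option autoImplicit false
open Filter Topology Polynomial

namespace Pool.Agent.W736.TC

theorem mu_eq_nodal (Λ : Finset ℂ) : mu Λ = Lagrange.nodal Λ id := by
  rw [Lagrange.nodal_eq]
  rfl

/-- the interpolation polynomials -/
noncomputable def eL (Λ : Finset ℂ) (l : ℂ) : ℂ[X] := Lagrange.basis Λ id l

theorem injOn_id' (Λ : Finset ℂ) : Set.InjOn (id : ℂ → ℂ) (Λ : Set ℂ) := Set.injOn_id _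

theorem X_sub_mul_eL (Λ : Finset ℂ) (l : ℂ) (hl : l ∈ Λ) :
    (X - C l) * eL Λ l = C (Lagrange.nodalWeight Λ id l) * mu Λ := by
  classical
  rw [eL, Lagrange.basis_eq_prod_sub_inv_mul_nodal_div hl, ← Lagrange.nodal_erase_eq_nodal_div hl,
    mu_eq_nodal, Lagrange.nodal_eq_mul_nodal_erase hl]
  simp only [id]
  ring

theorem eval_mu_derivative_ne (Λ : Finset ℂ) (l : ℂ) (hl : l ∈ Λ) :
    (derivative (mu Λ)).eval l ≠ 0 := by
  have h1 := Lagrange.nodalWeight_ne_zero (injOn_id' Λ) hl
  rw [Lagrange.nodalWeight_eq_eval_derivative_nodal hl] at h1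
  rw [mu_eq_nodal]
  intro h
  apply h1
  have : eval (id l) (derivative (Lagrange.nodal Λ id)) = 0 := h
  rw [this, inv_zero]

section
variable {A : Type} [Ring A] [Algebra ℂ A]

theorem aeval_comm (T : A) (p q : ℂ[X]) : aeval T p * aeval T q = aeval T q * aeval T p := by
  rw [← map_mul, mul_comm, map_mul]

theorem sum_eL (T : A) (Λ : Finset ℂ) (hΛ : Λ.Nonempty) : ∑ l ∈ Λ, aeval T (eL Λ l) = 1 := by
  rw [← map_sum]
  have : ∑ l ∈ Λ, eL Λ l = 1 := Lagrange.sum_basis (injOn_id' Λ) hΛ
  rw [this, map_one]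

theorem mul_eL (T : A) (Λ : Finset ℂ) (h : aeval T (mu Λ) = 0) (l : ℂ) (hl : l ∈ Λ) :
    T * aeval T (eL Λ l) = l • aeval T (eL Λ l) := by
  have h1 := congrArg (aeval T) (X_sub_mul_eL Λ l hl)
  rw [map_mul, map_mul, h, mul_zero] at h1
  have h2 : aeval T (X - C l) = T - l • (1 : A) := by
    simp [Algebra.algebraMap_eq_smul_one]
  rw [h2, sub_mul, smul_mul_assoc, one_mul, sub_eq_zero] at h1
  exact h1

theorem eL_mul (T : A) (Λ : Finset ℂ) (h : aeval T (mu Λ) = 0) (l : ℂ) (hl : l ∈ Λ) :
    aeval T (eL Λ l) * T = l • aeval T (eL Λ l) := by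
  rw [← mul_eL T Λ h l hl]
  have := aeval_comm T (eL Λ l) X
  rwa [aeval_X] at this

theorem aeval_mul_eL (T : A) (Λ : Finset ℂ) (h : aeval T (mu Λ) = 0) (l : ℂ) (hl : l ∈ Λ)
    (p : ℂ[X]) : aeval T p * aeval T (eL Λ l) = p.eval l • aeval T (eL Λ l) := by
  induction p using Polynomial.induction_on' with
  | add p q hp hq => rw [map_add, add_mul, hp, hq, eval_add, add_smul]
  | monomial n a =>
    rw [aeval_monomial, eval_monomial]
    have hn : T ^ n * aeval T (eL Λ l) = l ^ n • aeval T (eL Λ l) := by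
      induction n with
      | zero => simp
      | succ n ih => rw [pow_succ', mul_assoc, ih, mul_smul_comm, mul_eL T Λ h l hl, smul_smul,
          pow_succ]
    rw [mul_assoc, hn, ← Algebra.smul_def, smul_smul]

theorem aeval_eq_sum_eL (T : A) (Λ : Finset ℂ) (hΛ : Λ.Nonempty) (h : aeval T (mu Λ) = 0)
    (p : ℂ[X]) : aeval T p = ∑ l ∈ Λ, p.eval l • aeval T (eL Λ l) := by
  calc aeval T p = aeval T p * ∑ l ∈ Λ, aeval T (eL Λ l) := by rw [sum_eL T Λ hΛ, mul_one]
    _ = ∑ l ∈ Λ, aeval T p * aeval T (eL Λ l) := Finset.mul_sum _ _ _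
    _ = _ := Finset.sum_congr rfl fun l hl => aeval_mul_eL T Λ h l hl p

/-- first order expansion -/
theorem aeval_add_nil (T N : A) (hTN : T * N = N * T) (hN : N * N = 0) (p : ℂ[X]) :
    aeval (T + N) p = aeval T p + aeval T (derivative p) * N := by
  induction p using Polynomial.induction_on' with
  | add p q hp hq =>
    rw [map_add, map_add, derivative_add, map_add, hp, hq, add_mul]
    abel
  | monomial n a =>
    rw [aeval_monomial, aeval_monomial, derivative_monomial, aeval_monomial]
    have hn : ∀ n : ℕ, (T + N) ^ n = T ^ n + (n : A) * T ^ (n - 1) * N := by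
      intro n
      induction n with
      | zero => simp
      | succ n ih =>
        have hc : Commute N (T ^ n) := (Commute.pow_right (show Commute N T from hTN.symm) n)
        rw [pow_succ, ih]
        rcases Nat.eq_zero_or_pos n with rfl | hn
        · simp
        · have e1 : (n : A) * T ^ (n - 1) * N * T = (n : A) * T ^ n * N := by
            rw [mul_assoc, ← hTN, ← mul_assoc, mul_assoc (n : A), ← pow_succ,
              Nat.sub_add_cancel hn]
          have e2 : (n : A) * T ^ (n - 1) * N * N = 0 := by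
            rw [mul_assoc, hN, mul_zero]
          rw [mul_add, add_mul, add_mul, e1, e2, Nat.add_sub_cancel, pow_succ]
          push_cast
          rw [add_mul, add_mul, one_mul]
          abel
    rw [hn n, mul_add, map_mul, map_natCast]
    simp only [mul_assoc]

end

section
variable {X : Type} [NormedAddCommGroup X] [NormedSpace ℂ X]

theorem aeval_eig (T : X →L[ℂ] X) (v : X) (l : ℂ) (h : T v = l • v) (p : ℂ[X]) :
    (aeval T p) v = p.eval l • v := by
  induction p using Polynomial.induction_on' with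
  | add p q hp hq => rw [map_add, add_apply, hp, hq, eval_add, add_smul]
  | monomial n a =>
    have hn : (T ^ n) v = l ^ n • v := by
      induction n with
      | zero => simp
      | succ n ih =>
        rw [pow_succ']
        show T ((T ^ n) v) = _
        rw [ih, map_smul, h, smul_smul, pow_succ]
    rw [aeval_monomial, eval_monomial, Algebra.algebraMap_eq_smul_one, smul_mul_assoc, one_mul,
      smul_apply, hn, smul_smul]

theorem eL_eig (T : X →L[ℂ] X) (Λ : Finset ℂ) (v : X) (m : ℂ) (hm : m ∈ Λ) (h : T v = m • v)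
    (l : ℂ) (hl : l ∈ Λ) : (aeval T (eL Λ l)) v = if l = m then v else 0 := by
  rw [aeval_eig T v m h]
  split_ifs with hlm
  · subst hlm
    have : (eL Λ l).eval l = 1 := Lagrange.eval_basis_self (injOn_id' Λ) hl
    rw [this, one_smul]
  · have : (eL Λ l).eval m = 0 := Lagrange.eval_basis_of_ne (v := id) hlm hm
    rw [this, zero_smul]

end

end Pool.Agent.W736.TC
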