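import Pool.Agent.W736.TC.Approx
import Pool.Agent.W736.TC.Corr
import Pool.Agent.W736.TC.Chain

/-! The refinement step and the starting steps. -/

set_option autoImplicit false
open Filter Topology Polynomial

namespace Pool.Agent.W736.TC

variable {X : Type} [NormedAddCommGroup X] [NormedSpace ℂ X]

section blocks
variable {V : Type} [NormedAddCommGroup V] [NormedSpace ℂ V]
variable {p : ℝ} {J : ℕ → V →L[ℂ] X} {R : ℕ → X →L[ℂ] V}

theorem sumR_J (h : Blk p J R) (s : Finset ℕ) (v : ℕ → (V →L[ℂ] ℂ)) (l : ℕ) (a : V) :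
    (∑ k ∈ s, (v k).comp (R k)) (J l a) = if l ∈ s then v l a else 0 := by
  rw [sum_apply]
  split_ifs with hl
  · rw [Finset.sum_eq_single l]
    · rw [ContinuousLinearMap.comp_apply, h.rj]
    · intro k _ hk
      rw [ContinuousLinearMap.comp_apply, h.rj' k l hk, map_zero]
    · intro hh
      exact absurd hl hh
  · refine Finset.sum_eq_zero fun k hk => ?_
    rw [ContinuousLinearMap.comp_apply, h.rj' k l, map_zero]
    rintro rfl
    exact hl hk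

/-- The chain for block operators: `x`, `y` in the first blocks, the block `m` free. -/
theorem chain_blk (h : Blk p J R) (t : V →L[ℂ] V) (Λ : Finset ℂ) (hd : Diag t Λ)
    (h0 : (0:ℂ) ∈ Λ) (s : Finset ℕ) (m : ℕ) (hm : m ∈ s) (x : X) (y : X →L[ℂ] ℂ)
    (hy : ∀ a, y (J m a) = 0) (hxy : ∀ q : ℂ[X], y ((aeval (bOp J R s t) q) x) = 0) :
    ∃ N : X →L[ℂ] X, ∀ κ : ℝ, 0 < κ → ∀ ρ : ℝ, 0 < ρ →
      RR ρ (bOp J R s t + (κ : ℂ) • N) x y := by
  have hw : ∀ l : ℂ, ∃ w : V, l ∈ Λ → w ≠ 0 ∧ t w = l • w := by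
    intro l
    by_cases hl : l ∈ Λ
    · obtain ⟨w, h1, h2⟩ := hd.2 l hl
      exact ⟨w, fun _ => ⟨h1, h2⟩⟩
    · exact ⟨0, fun h => absurd h hl⟩
  choose w hw using hw
  refine chain (bOp J R s t) Λ ⟨0, h0⟩ (h.annih s t Λ h0 hd.1) x y hxy (fun l => J m (w l))
    (fun l hl => ?_) (fun l hl => ?_) (fun l _ => hy _)
  · intro hh
    have := congrArg (R m) hh
    rw [h.rj, map_zero] at this
    exact (hw l hl).1 this
  · rw [h.bOp_J s t m hm, (hw l hl).2, map_smul]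

end blocks

theorem refine_step {p q : ℝ} (hpq : p.HolderConjugate q) (hX : HP p X) (η B : ℝ) (hη : 0 < η)
    (hB0 : 0 ≤ B) : ∃ ρ : ℝ, 0 < ρ ∧ ∀ (U : Set (Contr X)), IsOpen U → ∀ T ∈ U,
    ∀ (x : X) (y : X →L[ℂ] ℂ), ‖x‖ ≤ B → RR ρ T.op x y →
    ∃ T' ∈ U, ∃ (x' : X) (y' : X →L[ℂ] ℂ), ‖x' - x‖ ≤ η ∧ ‖y' - y‖ ≤ η ∧
      ∀ ρ' : ℝ, 0 < ρ' → RR ρ' T'.op x' y' := by
  classical
  have hp : 0 < p := hpq.pos
  have hq : 0 < q := hpq.symm.pos
  set m : ℝ := min ((η / 2) ^ p) ((η / 2) ^ q) with hm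
  have hm0 : 0 < m := lt_min (by positivity) (by positivity)
  set ρ : ℝ := m / (6 * (2 + B)) with hρ
  have hρ0 : 0 < ρ := by positivity
  refine ⟨ρ, hρ0, fun U hU T hT x y hxB hRR => ?_⟩
  set c : ℝ := 3 * (ρ * (2 + B)) with hc
  have hc0 : 0 < c := by positivity
  have hcm : 2 * c = m := by
    rw [hc, hρ]
    field_simp
    ring
  have hcp : (2 * c) ^ (1 / p) ≤ η / 2 := by
    rw [hcm]
    calc m ^ (1 / p) ≤ ((η / 2) ^ p) ^ (1 / p) := by
          gcongr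
          exact min_le_left _ _
      _ = η / 2 := by
          rw [← Real.rpow_mul (by positivity), mul_one_div, div_self hp.ne', Real.rpow_one]
  have hcq : (2 * c) ^ (1 / q) ≤ η / 2 := by
    rw [hcm]
    calc m ^ (1 / q) ≤ ((η / 2) ^ q) ^ (1 / q) := by
          gcongr
          exact min_le_right _ _
      _ = η / 2 := by
          rw [← Real.rpow_mul (by positivity), mul_one_div, div_self hq.ne', Real.rpow_one]
  set ε0 : ℝ := min (η / 2) (ρ / (‖x‖ + ‖y‖ + 1)) with hε0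
  have hε00 : 0 < ε0 := lt_min (by positivity) (by positivity)
  have hε0η : ε0 ≤ η / 2 := min_le_left _ _
  have hε0ρ : ε0 * (‖x‖ + ‖y‖) ≤ ρ := by
    calc ε0 * (‖x‖ + ‖y‖) ≤ (ρ / (‖x‖ + ‖y‖ + 1)) * (‖x‖ + ‖y‖ + 1) :=
          mul_le_mul (min_le_right _ _) (by linarith) (by positivity) (by positivity)
      _ = ρ := by field_simp
  obtain ⟨V, i1, i2, i3, J, R, Q, t, Λ, hB, hQ1, htn, hd, h0Λ, hs, hx, hy⟩ :=
    approx hp hX (U ∩ {T' | RR ρ T'.op x y}) (hU.inter (isOpen_RR ρ x y)) T ⟨hT, hRR⟩ x y ε0 hε00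
  obtain ⟨w0, hw0, htw0⟩ := hd.2 0 h0Λ
  rw [zero_smul] at htw0
  -- first approximation
  set x0 : V := Q (R 0 x) with hx0
  set y0 : V →L[ℂ] ℂ := y.comp ((J 0).comp Q) with hy0
  have hy1 : y.comp ((J 0).comp (Q.comp (R 0))) = y0.comp (R 0) := rfl
  rw [hy1] at hy
  have hy1n : ‖y0.comp (R 0)‖ ≤ ‖y‖ := by
    apply ContinuousLinearMap.opNorm_le_bound _ (norm_nonneg _)
    intro v
    show ‖y (J 0 (Q (R 0 v)))‖ ≤ _
    calc _ ≤ ‖y‖ * ‖J 0 (Q (R 0 v))‖ := y.le_opNorm _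
      _ ≤ ‖y‖ * (‖Q‖ * ‖v‖) := by gcongr; exact norm_comp3 hp hB Q v
      _ ≤ ‖y‖ * (1 * ‖v‖) := by gcongr
      _ = ‖y‖ * ‖v‖ := by rw [one_mul]
  obtain ⟨h01, -, hRR0⟩ := hs {0} (by simp)
  have hsmall : ∀ r : ℂ[X], ‖y0 ((aeval t r) x0)‖ ≤ c * ‖aeval t r‖ := by
    intro r
    set τ := bOp J R {0} t with hτ
    have e1 : y0 ((aeval t r) x0) = (y0.comp (R 0)) ((aeval τ r) (J 0 x0)) := by
      have e0 : (y0.comp (R 0)) ((aeval τ r) (J 0 x0)) = y0 (R 0 ((aeval τ r) (J 0 x0))) := rfl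
      rw [e0, hB.aeval_J {0} t r 0 (by simp), hB.rj]
    have e2 : (y0.comp (R 0)) ((aeval τ r) (J 0 x0)) = y ((aeval τ r) x)
        - (y0.comp (R 0)) ((aeval τ r) (x - J 0 x0)) - (y - y0.comp (R 0)) ((aeval τ r) x) := by
      rw [map_sub, map_sub, sub_apply]
      ring
    have b1 : ‖y ((aeval τ r) x)‖ ≤ ρ * (1 + ‖x‖) * ‖aeval τ r‖ :=
      RR.small hRR0 (aeval τ r) (by
        have := aeval_comm τ r Polynomial.X
        rw [aeval_X] at this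
        exact this)
    have b2 : ‖(y0.comp (R 0)) ((aeval τ r) (x - J 0 x0))‖ ≤ ‖y‖ * (‖aeval τ r‖ * ε0) := by
      calc _ ≤ ‖y0.comp (R 0)‖ * ‖(aeval τ r) (x - J 0 x0)‖ := ContinuousLinearMap.le_opNorm _ _
        _ ≤ ‖y‖ * (‖aeval τ r‖ * ε0) := by
            gcongr
            calc _ ≤ ‖aeval τ r‖ * ‖x - J 0 x0‖ := ContinuousLinearMap.le_opNorm _ _
              _ ≤ _ := by gcongr
    have b3 : ‖(y - y0.comp (R 0)) ((aeval τ r) x)‖ ≤ ε0 * (‖aeval τ r‖ * ‖x‖) := by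
      calc _ ≤ ‖y - y0.comp (R 0)‖ * ‖(aeval τ r) x‖ := ContinuousLinearMap.le_opNorm _ _
        _ ≤ ε0 * (‖aeval τ r‖ * ‖x‖) := by
            gcongr
            exact ContinuousLinearMap.le_opNorm _ _
    have b4 := hB.aeval_le hp {0} t w0 hw0 htw0 r
    rw [e1, e2]
    calc _ ≤ ρ * (1 + ‖x‖) * ‖aeval τ r‖ + ‖y‖ * (‖aeval τ r‖ * ε0)
          + ε0 * (‖aeval τ r‖ * ‖x‖) := by
          refine (norm_sub_le _ _).trans (add_le_add ((norm_sub_le _ _).trans ?_) b3)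
          exact add_le_add b1 b2
      _ = (ρ * (1 + ‖x‖) + ε0 * (‖x‖ + ‖y‖)) * ‖aeval τ r‖ := by ring
      _ ≤ (ρ * (1 + B) + ρ) * (3 * ‖aeval t r‖) := by gcongr
      _ = c * ‖aeval t r‖ := by rw [hc]; ring
  obtain ⟨n, wt, u, v, a1, a2, a3, a4, a5⟩ := corr ⟨0, h0Λ⟩ hd x0 y0 c hc0 hsmall
  -- far parts
  set uu : ℕ → V := fun k => match k with
    | 0 => 0
    | j + 1 => ((wt j ^ (1 / p) : ℝ) : ℂ) • u j with huu
  set vv : ℕ → (V →L[ℂ] ℂ) := fun k => match k with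
    | 0 => 0
    | j + 1 => ((wt j ^ (1 / q) : ℝ) : ℂ) • v j with hvv
  set xx : X := ∑ k ∈ Finset.range (n + 1), J k (uu k) with hxx
  set yy : X →L[ℂ] ℂ := ∑ k ∈ Finset.range (n + 1), (vv k).comp (R k) with hyy
  have hxxn : ‖xx‖ ≤ η / 2 := by
    refine (hB.sumJ_le hp (Finset.range (n + 1)) uu (2 * c) (by positivity) ?_).trans hcp
    rw [Finset.sum_range_succ']
    have e0 : ‖uu 0‖ ^ p = 0 := by
      show ‖(0 : V)‖ ^ p = 0
      rw [norm_zero, Real.zero_rpow hp.ne']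
    rw [e0, add_zero]
    refine le_trans (Finset.sum_le_sum fun j _ => ?_) a2
    show ‖((wt j ^ (1 / p) : ℝ) : ℂ) • u j‖ ^ p ≤ wt j
    rw [norm_smul, Complex.norm_real, Real.norm_of_nonneg (Real.rpow_nonneg (a1 j) _)]
    calc (wt j ^ (1 / p) * ‖u j‖) ^ p ≤ (wt j ^ (1 / p) * 1) ^ p := by
          have := a1 j
          gcongr
          exact a3 j
      _ = wt j := by
          rw [mul_one, ← Real.rpow_mul (a1 j), one_div, inv_mul_cancel₀ hp.ne', Real.rpow_one]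
  have hyyn : ‖yy‖ ≤ η / 2 := by
    refine (hB.sumR_le hpq (Finset.range (n + 1)) vv (2 * c) (by positivity) ?_).trans hcq
    rw [Finset.sum_range_succ']
    have e0 : ‖vv 0‖ ^ q = 0 := by
      show ‖(0 : V →L[ℂ] ℂ)‖ ^ q = 0
      rw [norm_zero, Real.zero_rpow hq.ne']
    rw [e0, add_zero]
    refine le_trans (Finset.sum_le_sum fun j _ => ?_) a2
    show ‖((wt j ^ (1 / q) : ℝ) : ℂ) • v j‖ ^ q ≤ wt j
    rw [norm_smul, Complex.norm_real, Real.norm_of_nonneg (Real.rpow_nonneg (a1 j) _)]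
    calc (wt j ^ (1 / q) * ‖v j‖) ^ q ≤ (wt j ^ (1 / q) * 1) ^ q := by
          have := a1 j
          gcongr
          exact a4 j
      _ = wt j := by
          rw [mul_one, ← Real.rpow_mul (a1 j), one_div, inv_mul_cancel₀ hq.ne', Real.rpow_one]
  set x' : X := J 0 x0 + xx with hx'
  set y' : X →L[ℂ] ℂ := y0.comp (R 0) + yy with hy'
  set s : Finset ℕ := Finset.range (n + 2) with hsdef
  have h0s : 0 ∈ s := Finset.mem_range.2 (by omega)
  have hks : ∀ k ∈ Finset.range (n + 1), k ∈ s := fun k hk =>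
    Finset.mem_range.2 (by have := Finset.mem_range.1 hk; omega)
  have hxy : ∀ r : ℂ[X], y' ((aeval (bOp J R s t) r) x') = 0 := by
    intro r
    have e1 : (aeval (bOp J R s t) r) x' = J 0 ((aeval t r) x0)
        + ∑ k ∈ Finset.range (n + 1), J k ((aeval t r) (uu k)) := by
      rw [hx', map_add, hB.aeval_J s t r 0 h0s, hxx, map_sum]
      congr 1
      exact Finset.sum_congr rfl fun k hk => hB.aeval_J s t r k (hks k hk) _
    have e2 : y' (J 0 ((aeval t r) x0)) = y0 ((aeval t r) x0) := by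
      rw [hy', add_apply, hyy, sumR_J hB, if_pos (by simp), ContinuousLinearMap.comp_apply, hB.rj]
      show y0 ((aeval t r) x0) + (0 : V →L[ℂ] ℂ) _ = _
      simp
    have e3 : ∀ k ∈ Finset.range (n + 1), y' (J k ((aeval t r) (uu k)))
        = vv k ((aeval t r) (uu k)) := by
      intro k hk
      rw [hy', add_apply, hyy, sumR_J hB, if_pos hk, ContinuousLinearMap.comp_apply]
      rcases Nat.eq_zero_or_pos k with rfl | hk0
      · have : uu 0 = 0 := rfl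
        rw [this]
        simp
      · rw [hB.rj' 0 k hk0.ne, map_zero, zero_add]
    rw [e1, map_add, e2, map_sum, Finset.sum_congr rfl e3, Finset.sum_range_succ']
    have e4 : vv 0 ((aeval t r) (uu 0)) = 0 := by
      show (0 : V →L[ℂ] ℂ) _ = 0
      simp
    rw [e4, add_zero]
    have e5 : ∀ j, vv (j + 1) ((aeval t r) (uu (j + 1))) = (wt j : ℂ) * v j ((aeval t r) (u j)) := by
      intro j
      show (((wt j ^ (1 / q) : ℝ) : ℂ) • v j) ((aeval t r) (((wt j ^ (1 / p) : ℝ) : ℂ) • u j)) = _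
      rw [map_smul, smul_apply, map_smul, smul_eq_mul, smul_eq_mul, ← mul_assoc,
        ← Complex.ofReal_mul, ← Real.rpow_add' (a1 j)]
      · have : 1 / q + 1 / p = 1 := by
          have := hpq.inv_add_inv_eq_one
          rw [one_div, one_div, add_comm]
          exact this
        rw [this, Real.rpow_one]
      · have : 1 / q + 1 / p = 1 := by
          have := hpq.inv_add_inv_eq_one
          rw [one_div, one_div, add_comm]
          exact this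
        rw [this]
        exact one_ne_zero
    simp only [e5]
    exact a5 r
  have hyJ : ∀ a, y' (J (n + 1) a) = 0 := by
    intro a
    rw [hy', add_apply, hyy, sumR_J hB, if_neg (by simp), ContinuousLinearMap.comp_apply,
      hB.rj' 0 (n + 1) (by omega), map_zero, add_zero]
  obtain ⟨N, hN⟩ := chain_blk hB t Λ hd h0Λ s (n + 1) (Finset.mem_range.2 (by omega)) x' y' hyJ hxy
  obtain ⟨hle, hU1, -⟩ := hs s h0s
  have hlt : ‖(mkC (bOp J R s t) hle).op‖ < 1 := (hB.bOp_le hp s t).trans_lt htn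
  obtain ⟨κ, hκ, hk1, hk2⟩ := perturb U hU (mkC (bOp J R s t) hle) hU1 hlt N
  refine ⟨_, hk2, x', y', ?_, ?_, fun ρ' hρ' => hN κ hκ ρ' hρ'⟩
  · calc ‖x' - x‖ = ‖xx - (x - J 0 x0)‖ := by rw [hx']; congr 1; abel
      _ ≤ ‖xx‖ + ‖x - J 0 x0‖ := norm_sub_le _ _
      _ ≤ η / 2 + η / 2 := add_le_add hxxn (hx.le.trans hε0η)
      _ = η := by ring
  · calc ‖y' - y‖ = ‖yy - (y - y0.comp (R 0))‖ := by rw [hy']; congr 1; abel
      _ ≤ ‖yy‖ + ‖y - y0.comp (R 0)‖ := norm_sub_le _ _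
      _ ≤ η / 2 + η / 2 := add_le_add hyyn (hy.le.trans hε0η)
      _ = η := by ring

/-- start with `x` near a given vector, `y` of norm one -/
theorem start_x {p : ℝ} (hp : 0 < p) (hX : HP p X) (x : X) (η : ℝ) (hη : 0 < η)
    (U : Set (Contr X)) (hU : IsOpen U) (hne : U.Nonempty) :
    ∃ T' ∈ U, ∃ (x' : X) (y' : X →L[ℂ] ℂ), ‖x' - x‖ ≤ η ∧ ‖y'‖ = 1 ∧
      ∀ ρ' : ℝ, 0 < ρ' → RR ρ' T'.op x' y' := by
  obtain ⟨T, hT⟩ := hne
  obtain ⟨V, i1, i2, i3, J, R, Q, t, Λ, hB, hQ1, htn, hd, h0Λ, hs, hx, -⟩ :=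
    approx hp hX U hU T hT x 0 η hη
  obtain ⟨w0, hw0, -⟩ := hd.2 0 h0Λ
  obtain ⟨g, hg, hg2⟩ := exists_dual_vector ℂ w0 (norm_ne_zero_iff.2 hw0)
  set x' : X := J 0 (Q (R 0 x)) with hx'
  set y' : X →L[ℂ] ℂ := g.comp (R 1) with hy'
  set s : Finset ℕ := {0, 2} with hsd
  have hxy : ∀ r : ℂ[X], y' ((aeval (bOp J R s t) r) x') = 0 := by
    intro r
    rw [hx', hB.aeval_J s t r 0 (by simp [hsd]), hy', ContinuousLinearMap.comp_apply,
      hB.rj' 1 0 (by omega), map_zero]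
  obtain ⟨N, hN⟩ := chain_blk hB t Λ hd h0Λ s 2 (by simp [hsd]) x' y' (fun a => by
    rw [hy', ContinuousLinearMap.comp_apply, hB.rj' 1 2 (by omega), map_zero]) hxy
  obtain ⟨hle, hU1⟩ := hs s (by simp [hsd])
  have hlt : ‖(mkC (bOp J R s t) hle).op‖ < 1 := (hB.bOp_le hp s t).trans_lt htn
  obtain ⟨κ, hκ, hk1, hk2⟩ := perturb U hU (mkC (bOp J R s t) hle) hU1 hlt N
  refine ⟨_, hk2, x', y', ?_, ?_, fun ρ' hρ' => hN κ hκ ρ' hρ'⟩
  · rw [norm_sub_rev]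
    exact hx.le
  · apply le_antisymm
    · apply ContinuousLinearMap.opNorm_le_bound _ zero_le_one
      intro v
      rw [hy', ContinuousLinearMap.comp_apply, one_mul]
      calc _ ≤ ‖g‖ * ‖R 1 v‖ := g.le_opNorm _
        _ ≤ 1 * ‖v‖ := by rw [hg]; gcongr; exact hB.R_le hp 1 v
        _ = ‖v‖ := one_mul _
    · have h1 := y'.le_opNorm (J 1 w0)
      rw [hy', ContinuousLinearMap.comp_apply, hB.rj, hg2] at h1
      have h2 : ‖((‖w0‖ : ℝ) : ℂ)‖ = ‖w0‖ := by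
        rw [Complex.norm_real, norm_norm]
      have h3 : ‖w0‖ ≤ ‖g.comp (R 1)‖ * ‖w0‖ := by
        calc ‖w0‖ ≤ ‖g.comp (R 1)‖ * ‖J 1 w0‖ := by
              rw [← h2]; exact h1
          _ ≤ ‖g.comp (R 1)‖ * ‖w0‖ := by gcongr; exact hB.J_le hp 1 w0
      have h4 : 0 < ‖w0‖ := norm_pos_iff.2 hw0
      rw [hy']
      by_contra hlt2
      push Not at hlt2
      nlinarith

/-- start with `y` near a given functional, `x` of norm at least one -/
theorem start_y {p : ℝ} (hp : 0 < p) (hX : HP p X) (y : X →L[ℂ] ℂ) (η : ℝ) (hη : 0 < η)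
    (U : Set (Contr X)) (hU : IsOpen U) (hne : U.Nonempty) :
    ∃ T' ∈ U, ∃ (x' : X) (y' : X →L[ℂ] ℂ), ‖y' - y‖ ≤ η ∧ ‖x'‖ = 1 ∧
      ∀ ρ' : ℝ, 0 < ρ' → RR ρ' T'.op x' y' := by
  obtain ⟨T, hT⟩ := hne
  obtain ⟨V, i1, i2, i3, J, R, Q, t, Λ, hB, hQ1, htn, hd, h0Λ, hs, -, hy⟩ :=
    approx hp hX U hU T hT 0 y η hη
  obtain ⟨w0, hw0, -⟩ := hd.2 0 h0Λ
  have hw0n : 0 < ‖w0‖ := norm_pos_iff.2 hw0
  set w1 : V := ((‖w0‖⁻¹ : ℝ) : ℂ) • w0 with hw1
  have hw1n : ‖w1‖ = 1 := by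
    rw [hw1, norm_smul, Complex.norm_real, norm_inv, norm_norm, inv_mul_cancel₀ hw0n.ne']
  set x' : X := J 1 w1 with hx'
  set y' : X →L[ℂ] ℂ := y.comp ((J 0).comp (Q.comp (R 0))) with hy'
  set s : Finset ℕ := {0, 1, 2} with hsd
  have hy'J : ∀ l, l ≠ 0 → ∀ a, y' (J l a) = 0 := by
    intro l hl a
    show y (J 0 (Q (R 0 (J l a)))) = 0
    rw [hB.rj' 0 l (Ne.symm hl)]
    simp
  have hxy : ∀ r : ℂ[X], y' ((aeval (bOp J R s t) r) x') = 0 := by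
    intro r
    rw [hx', hB.aeval_J s t r 1 (by simp [hsd]), hy'J 1 one_ne_zero]
  obtain ⟨N, hN⟩ := chain_blk hB t Λ hd h0Λ s 2 (by simp [hsd]) x' y' (hy'J 2 two_ne_zero) hxy
  obtain ⟨hle, hU1⟩ := hs s (by simp [hsd])
  have hlt : ‖(mkC (bOp J R s t) hle).op‖ < 1 := (hB.bOp_le hp s t).trans_lt htn
  obtain ⟨κ, hκ, hk1, hk2⟩ := perturb U hU (mkC (bOp J R s t) hle) hU1 hlt N
  refine ⟨_, hk2, x', y', ?_, ?_, fun ρ' hρ' => hN κ hκ ρ' hρ'⟩
  · rw [norm_sub_rev]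
    exact hy.le
  · apply le_antisymm
    · rw [hx', ← hw1n]
      exact hB.J_le hp 1 w1
    · calc (1:ℝ) = ‖R 1 (J 1 w1)‖ := by rw [hB.rj, hw1n]
        _ ≤ ‖J 1 w1‖ := hB.R_le hp 1 _

end Pool.Agent.W736.TC
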